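import Pool.Agent.V11131.Mod2

/-!
Circle maps of degree 2, 3, 4, ... with an attracting fixed point at the integers, their
composites, the height function `ps` and the generalized rotations `Rt`.
-/

namespace Pool.Agent.W2helper30.QM

open Set Filter Topology Pool.Agent.V11131.Mod

noncomputable section

/-- The lift of a circle map of degree `m + 2`. -/
def Ef (m : ℕ) (x : ℝ) : ℝ := x / 2 + ((m : ℝ) + 3 / 2) * (⌊x⌋ + cc (Int.fract x))

lemma Ef_add_int (m : ℕ) (x : ℝ) (n : ℤ) : Ef m (x + n) = Ef m x + (m + 2) * n := by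
  unfold Ef
  rw [Int.floor_add_intCast, Int.fract_add_intCast]
  push_cast
  ring

lemma Ef_cont (m : ℕ) : Continuous (Ef m) := by
  have h1 : Continuous ((fun y => cc y - y) ∘ Int.fract) := by
    apply ContinuousOn.comp_fract''
    · exact (cc_cont.sub continuous_id).continuousOn
    · show cc 0 - 0 = cc 1 - 1
      rw [cc_low (by norm_num), cc_high (by norm_num)]; norm_num
  have h2 : Ef m = fun x => (m + 2) * x +
      ((m : ℝ) + 3 / 2) * ((fun y => cc y - y) ∘ Int.fract) x := by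
    funext x
    have h := Int.floor_add_fract x
    simp only [Ef, Function.comp]
    have : x / 2 + ((m : ℝ) + 3 / 2) * (⌊x⌋ + cc (Int.fract x)) =
      x / 2 + ((m : ℝ) + 3 / 2) * ((⌊x⌋ + Int.fract x) + (cc (Int.fract x) - Int.fract x)) := by
      ring
    rw [this, h]
    ring
  rw [h2]
  exact (continuous_const.mul continuous_id).add (continuous_const.mul h1)

lemma Ef_strictMono (m : ℕ) : StrictMono (Ef m) := by
  intro x y h
  unfold Ef
  have h1 : (⌊x⌋ : ℝ) + cc (Int.fract x) ≤ ⌊y⌋ + cc (Int.fract y) := by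
    rcases (Int.floor_le_floor h.le).lt_or_eq with hlt | heq
    · have : ((⌊x⌋ : ℝ) + 1) ≤ ⌊y⌋ := by exact_mod_cast hlt
      have a := cc_le_one (Int.fract x)
      have b := cc_nonneg (Int.fract y)
      linarith
    · rw [heq]
      have hx := Int.floor_add_fract x
      have hy := Int.floor_add_fract y
      have : Int.fract x ≤ Int.fract y := by
        rw [heq] at hx
        linarith
      have := cc_mono this
      linarith
  have h2 : (0 : ℝ) ≤ (m : ℝ) + 3 / 2 := by positivity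
  have h3 := mul_le_mul_of_nonneg_left h1 h2
  linarith

lemma Ef_lower (m : ℕ) (x : ℝ) : (m + 2) * x - (m + 3 / 2) ≤ Ef m x := by
  unfold Ef
  have h1 := Int.floor_add_fract x
  have h2 := Int.fract_lt_one x
  have h3 := cc_nonneg (Int.fract x)
  have h4 : (0 : ℝ) ≤ (m : ℝ) + 3 / 2 := by positivity
  have h5 : x - 1 ≤ ⌊x⌋ + cc (Int.fract x) := by linarith
  have h6 := mul_le_mul_of_nonneg_left h5 h4
  linarith

lemma Ef_upper (m : ℕ) (x : ℝ) : Ef m x ≤ (m + 2) * x + (m + 3 / 2) := by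
  unfold Ef
  have h1 := Int.floor_add_fract x
  have h2 := Int.fract_nonneg x
  have h3 := cc_le_one (Int.fract x)
  have h4 : (0 : ℝ) ≤ (m : ℝ) + 3 / 2 := by positivity
  have h5 : ⌊x⌋ + cc (Int.fract x) ≤ x + 1 := by linarith
  have h6 := mul_le_mul_of_nonneg_left h5 h4
  linarith

lemma Ef_surj (m : ℕ) : Function.Surjective (Ef m) := by
  have hm : (0 : ℝ) < (m : ℝ) + 2 := by positivity
  apply (Ef_cont m).surjective
  · apply tendsto_atTop_mono (Ef_lower m)
    exact tendsto_atTop_add_const_right _ _ (tendsto_id.const_mul_atTop hm)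
  · apply tendsto_atBot_mono (Ef_upper m)
    exact tendsto_atBot_add_const_right _ _ (tendsto_id.const_mul_atBot hm)

/-- The lift as an order isomorphism of the real line. -/
def EI (m : ℕ) : ℝ ≃o ℝ := StrictMono.orderIsoOfSurjective (Ef m) (Ef_strictMono m) (Ef_surj m)

lemma EI_apply (m : ℕ) (x : ℝ) : EI m x = Ef m x := rfl

lemma EI_add_int (m : ℕ) (x : ℝ) (n : ℤ) : EI m (x + n) = EI m x + (m + 2) * n :=
  Ef_add_int m x n

lemma EI_near {m : ℕ} {x : ℝ} {n : ℤ} (h : |x - n| ≤ 1 / 5) :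
    EI m x = (m + 2) * n + (x - n) / 2 := by
  have hx : x = (x - n) + n := by ring
  conv_lhs => rw [hx]
  rw [EI_add_int, EI_apply]
  set y := x - n
  rw [abs_le] at h
  unfold Ef
  by_cases hy : 0 ≤ y
  · have hf : ⌊y⌋ = 0 := by
      rw [Int.floor_eq_iff]
      push_cast
      constructor <;> linarith
    have hfr : Int.fract y = y := by
      have := Int.floor_add_fract y
      rw [hf] at this
      simpa using this
    rw [hf, hfr, cc_low h.2]
    push_cast
    ring
  · push Not at hy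
    have hf : ⌊y⌋ = -1 := by
      rw [Int.floor_eq_iff]
      push_cast
      constructor <;> linarith
    have hfr : Int.fract y = y + 1 := by
      have := Int.floor_add_fract y
      rw [hf] at this
      push_cast at this
      linarith
    rw [hf, hfr, cc_high (by linarith)]
    push_cast
    ring

/-- The composite of the first `m` circle maps. -/
def DD : ℕ → (ℝ ≃o ℝ)
  | 0 => OrderIso.refl ℝ
  | m + 1 => (DD m).trans (EI m)

lemma DD_zero (x : ℝ) : DD 0 x = x := rfl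

lemma DD_succ (m : ℕ) (x : ℝ) : DD (m + 1) x = EI m (DD m x) := rfl

/-- The number of sectors of level `m`. -/
def NN (m : ℕ) : ℕ := (m + 1).factorial

lemma NN_zero : NN 0 = 1 := rfl

lemma NN_succ (m : ℕ) : NN (m + 1) = (m + 2) * NN m := Nat.factorial_succ (m + 1)

lemma NN_pos (m : ℕ) : 0 < NN m := Nat.factorial_pos _

lemma DD_add_int (m : ℕ) (x : ℝ) (n : ℤ) : DD m (x + n) = DD m x + NN m * n := by
  induction m with
  | zero => simp [DD_zero, NN_zero]
  | succ m ih =>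
    rw [DD_succ, ih]
    have := EI_add_int m (DD m x) (NN m * n)
    push_cast at this
    rw [this, NN_succ, DD_succ]
    push_cast
    ring

lemma EI_int (m : ℕ) (n : ℤ) : EI m (n : ℝ) = (m + 2) * n := by
  rw [EI_near (n := n) (by simp)]; ring

lemma DD_int (m : ℕ) (n : ℤ) : DD m (n : ℝ) = NN m * n := by
  induction m with
  | zero => simp [DD_zero, NN_zero]
  | succ m ih =>
    rw [DD_succ, ih]
    have := EI_int m (NN m * n)
    push_cast at this
    rw [this, NN_succ]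
    push_cast
    ring

lemma near_succ {m : ℕ} {x : ℝ} {n : ℤ} (h : |DD m x - n| ≤ 1 / 5) :
    |DD (m + 1) x - ((m + 2) * n : ℤ)| = |DD m x - n| / 2 := by
  rw [DD_succ, EI_near h]
  push_cast
  rw [show (((m : ℝ) + 2) * n + (DD m x - n) / 2 - (m + 2) * n) = (DD m x - n) / 2 by ring,
      abs_div, abs_of_pos (by norm_num : (0 : ℝ) < 2)]

lemma near_pow (k : ℕ) {m : ℕ} {x : ℝ} {n : ℤ} {δ : ℝ} (hδ : δ ≤ 1 / 5)
    (h : |DD m x - n| ≤ δ) : ∃ i : ℤ, |DD (m + k) x - i| ≤ δ := by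
  induction k with
  | zero => exact ⟨n, h⟩
  | succ k ih =>
    obtain ⟨i, hi⟩ := ih
    refine ⟨((m + k : ℕ) + 2) * i, ?_⟩
    have h1 := near_succ (hi.trans hδ)
    have h2 := abs_nonneg (DD (m + k) x - i)
    rw [← add_assoc]
    push_cast at h1 ⊢
    rw [h1]
    linarith

/-- The function `Ps m x = ∑ 3^{-k} kap (D_{m+k} x)`. -/
def Ps (m : ℕ) (x : ℝ) : ℝ := ∑' k : ℕ, (1 / 3 : ℝ) ^ k * kap (DD (m + k) x)

lemma Ps_bound (m k : ℕ) (x : ℝ) :
    ‖(1 / 3 : ℝ) ^ k * kap (DD (m + k) x)‖ ≤ (1 / 3 : ℝ) ^ k * (2 / 3) := by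
  rw [Real.norm_eq_abs, abs_of_nonneg (mul_nonneg (by positivity) (kap_nonneg _))]
  exact mul_le_mul_of_nonneg_left (kap_le _) (by positivity)

lemma Ps_summable (m : ℕ) (x : ℝ) :
    Summable (fun k : ℕ => (1 / 3 : ℝ) ^ k * kap (DD (m + k) x)) :=
  Summable.of_norm_bounded geo_summable (fun k => Ps_bound m k x)

lemma Ps_cont (m : ℕ) : Continuous (Ps m) := by
  apply continuous_tsum _ geo_summable (Ps_bound m)
  intro k
  exact continuous_const.mul (kap_cont.comp (DD (m + k)).continuous)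

lemma Ps_nonneg (m : ℕ) (x : ℝ) : 0 ≤ Ps m x :=
  tsum_nonneg (fun _ => mul_nonneg (by positivity) (kap_nonneg _))

lemma Ps_le_one (m : ℕ) (x : ℝ) : Ps m x ≤ 1 := by
  rw [← geo_sum]
  apply Summable.tsum_le_tsum _ (Ps_summable m x) geo_summable
  intro n
  exact mul_le_mul_of_nonneg_left (kap_le _) (by positivity)

lemma Ps_step (m : ℕ) (x : ℝ) : Ps m x = kap (DD m x) + Ps (m + 1) x / 3 := by
  unfold Ps
  rw [(Ps_summable m x).tsum_eq_zero_add]
  rw [← tsum_div_const]
  congr 1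
  · simp
  · congr 1
    funext n
    rw [pow_succ, show m + (n + 1) = m + 1 + n by ring]
    ring

lemma Ps_near {m : ℕ} {x : ℝ} {n : ℤ} (h : |DD m x - n| ≤ 1 / 10) : Ps m x = 1 := by
  rw [← geo_sum]
  unfold Ps
  congr 1
  funext k
  obtain ⟨i, hi⟩ := near_pow k (by norm_num) h
  rw [kap_near hi]

lemma Ps_succ (m : ℕ) (x : ℝ) : Ps (m + 1) x = min 1 (3 * Ps m x) := by
  have h1 := Ps_step m x
  by_cases hk : kap (DD m x) = 0
  · rw [hk] at h1
    have : 3 * Ps m x = Ps (m + 1) x := by linarith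
    rw [this, min_eq_right (Ps_le_one _ _)]
  · obtain ⟨n, hn⟩ := kap_ne hk
    have h2 : |DD (m + 1) x - ((m + 2) * n : ℤ)| ≤ 1 / 10 := by
      rw [near_succ hn.le]
      linarith
    have h3 := Ps_near h2
    rw [h3] at h1 ⊢
    have := kap_nonneg (DD m x)
    rw [min_eq_left (by linarith)]

/-- The height function. -/
def ps (x : ℝ) : ℝ := Ps 0 x

lemma ps_cont : Continuous ps := Ps_cont 0
lemma ps_nonneg (x : ℝ) : 0 ≤ ps x := Ps_nonneg 0 x
lemma ps_le_one (x : ℝ) : ps x ≤ 1 := Ps_le_one 0 x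

lemma Ps_pow (k : ℕ) (x : ℝ) : Ps k x = min 1 (3 ^ k * ps x) := by
  induction k with
  | zero => simp [ps, Ps_le_one]
  | succ k ih =>
    rw [Ps_succ, ih]
    rcases le_total 1 ((3 : ℝ) ^ k * ps x) with h | h
    · rw [min_eq_left h, min_eq_left (by norm_num)]
      rw [pow_succ, min_eq_left (by nlinarith)]
    · rw [min_eq_right h, pow_succ]
      congr 1; ring

lemma Ps_far (k : ℕ) {m : ℕ} {x : ℝ} (h : Far (DD (m + k) x)) :
    Ps m x = Ps (m + k) x / 3 ^ k := by
  induction k generalizing m with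
  | zero => simp
  | succ k ih =>
    have e : m + (k + 1) = m + 1 + k := by ring
    rw [e] at h
    have h1 := ih h
    have hk : kap (DD m x) = 0 := by
      by_contra hne
      obtain ⟨n, hn⟩ := kap_ne hne
      have h2 : |DD (m + 1) x - ((m + 2) * n : ℤ)| ≤ |DD m x - n| / 2 := (near_succ hn.le).le
      obtain ⟨j, hj⟩ := near_pow k (by linarith) h2
      have := h j
      linarith
    rw [Ps_step, hk, h1, e, pow_succ]
    field_simp
    ring

lemma ps_far {m : ℕ} {x : ℝ} (h : Far (DD m x)) : 3 ^ m * ps x = Ps m x := by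
  have e : 0 + m = m := zero_add m
  have h1 := Ps_far m (m := 0) (x := x) (by rw [e]; exact h)
  rw [e] at h1
  have : (3 : ℝ) ^ m ≠ 0 := by positivity
  unfold ps
  rw [h1]
  field_simp

lemma Ps_lt_one {m : ℕ} {x : ℝ} (h : ∀ n : ℤ, 1 / 10 < |DD m x - n|) : Ps m x < 1 := by
  have h1 := Ps_step m x
  have h2 := Ps_le_one (m + 1) x
  set y := DD m x with hy
  have h3 : kap y < 2 / 3 := by
    unfold kap kk
    apply max_lt (by norm_num)
    apply lt_of_le_of_lt (min_le_left _ _)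
    have h4 : 1 / 10 < min (Int.fract y) (1 - Int.fract y) := by
      have h5 := h ⌊y⌋
      have h6 := h (⌊y⌋ + 1)
      have h0 := Int.fract_nonneg y
      have h2 := Int.fract_lt_one y
      have h3 := Int.floor_add_fract y
      push_cast at h6
      rw [show y - ⌊y⌋ = Int.fract y by linarith, abs_of_nonneg h0] at h5
      rw [show y - (⌊y⌋ + 1) = -(1 - Int.fract y) by linarith, abs_neg,
        abs_of_nonneg (by linarith)] at h6
      exact lt_min h5 h6
    linarith
  linarith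

/-- The lift of the deck transformation: `D_m (R x) = D_m x + j`. -/
def Rt (m : ℕ) (j : ℤ) : ℝ ≃o ℝ := (DD m).trans ((OrderIso.addRight (j : ℝ)).trans (DD m).symm)

lemma D_Rt (m : ℕ) (j : ℤ) (x : ℝ) : DD m (Rt m j x) = DD m x + j := by
  show DD m ((DD m).symm (DD m x + j)) = _
  exact (DD m).apply_symm_apply _

lemma Rt_ext {m : ℕ} {x y : ℝ} (h : DD m x = DD m y) : x = y := (DD m).injective h

lemma Rt_Rt (m : ℕ) (i j : ℤ) (x : ℝ) : Rt m i (Rt m j x) = Rt m (i + j) x := by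
  apply Rt_ext (m := m)
  rw [D_Rt, D_Rt, D_Rt]; push_cast; ring

lemma Rt_zero (m : ℕ) (x : ℝ) : Rt m 0 x = x := by
  apply Rt_ext (m := m)
  rw [D_Rt]; simp

lemma Rt_add_int (m : ℕ) (j : ℤ) (x : ℝ) (n : ℤ) : Rt m j (x + n) = Rt m j x + n := by
  apply Rt_ext (m := m)
  rw [D_Rt, DD_add_int, DD_add_int, D_Rt]; ring

lemma Rt_full (x : ℝ) (j : ℤ) : Rt 0 j x = x + j := by
  apply Rt_ext (m := 0)
  rw [D_Rt]; rfl

lemma Rt_succ (m : ℕ) (j : ℤ) (x : ℝ) : Rt (m + 1) ((m + 2) * j) x = Rt m j x := by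
  apply Rt_ext (m := m + 1)
  rw [D_Rt, DD_succ, DD_succ, D_Rt, EI_add_int]
  push_cast; ring

/-- The ratio of the numbers of sectors of the levels `m + k` and `m`. -/
def rat (m : ℕ) : ℕ → ℕ
  | 0 => 1
  | k + 1 => (m + k + 2) * rat m k

lemma D_Rt_ge (m k : ℕ) (j : ℤ) (x : ℝ) :
    DD (m + k) (Rt m j x) = DD (m + k) x + (rat m k * j : ℤ) := by
  induction k with
  | zero => simp [rat, D_Rt]
  | succ k ih =>
    rw [← add_assoc, DD_succ, ih, EI_add_int, DD_succ]
    simp only [rat]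
    push_cast
    ring

lemma rat_dvd (m k : ℕ) : m + k + 2 ∣ rat m (k + 1) := Dvd.intro _ rfl

lemma Rt_cont (m : ℕ) (j : ℤ) : Continuous (Rt m j) := (Rt m j).continuous

lemma Ps_Rt (m k : ℕ) (j : ℤ) (x : ℝ) : Ps (m + k) (Rt m j x) = Ps (m + k) x := by
  unfold Ps
  congr 1
  funext l
  rw [add_assoc, D_Rt_ge, kap_add_int]

lemma ps_add_int (x : ℝ) (n : ℤ) : ps (x + n) = ps x := by
  have := Ps_Rt 0 0 n x
  rw [Rt_full] at this
  exact this

lemma ps_Rt_lt {m : ℕ} {j : ℤ} {x : ℝ} (h : 3 ^ m * ps x < 1) : ps (Rt m j x) = ps x := by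
  have h1 := Ps_pow m x
  have h2 := Ps_pow m (Rt m j x)
  have h0 := Ps_Rt m 0 j x
  rw [add_zero] at h0
  rw [h0, h1, min_eq_right h.le] at h2
  rcases min_choice 1 ((3 : ℝ) ^ m * ps (Rt m j x)) with h3 | h3
  · rw [h3] at h2
    linarith
  · rw [h3] at h2
    have : (3 : ℝ) ^ m ≠ 0 := by positivity
    exact (mul_left_cancel₀ this h2).symm

/-- The radial factor. -/
def qq (m : ℕ) (j : ℤ) (x : ℝ) : ℝ := max (3 ^ m * ps x) 1 / max (3 ^ m * ps (Rt m j x)) 1

lemma qq_pos (m : ℕ) (j : ℤ) (x : ℝ) : 0 < qq m j x := by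
  unfold qq
  have h1 : 0 < max (3 ^ m * ps x) 1 := lt_max_of_lt_right one_pos
  have h2 : 0 < max (3 ^ m * ps (Rt m j x)) 1 := lt_max_of_lt_right one_pos
  positivity

lemma qq_cont (m : ℕ) (j : ℤ) : Continuous (qq m j) := by
  unfold qq
  apply Continuous.div
  · exact (continuous_const.mul ps_cont).max continuous_const
  · exact (continuous_const.mul (ps_cont.comp (Rt_cont m j))).max continuous_const
  · intro x
    have h2 : 0 < max (3 ^ m * ps (Rt m j x)) 1 := lt_max_of_lt_right one_pos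
    exact h2.ne'

lemma qq_add_int (m : ℕ) (j : ℤ) (x : ℝ) (n : ℤ) : qq m j (x + n) = qq m j x := by
  unfold qq
  rw [Rt_add_int, ps_add_int, ps_add_int]

lemma qq_ps (m : ℕ) (j : ℤ) (x : ℝ) : qq m j x * ps (Rt m j x) = ps x := by
  have h3 : (3 : ℝ) ^ m ≠ 0 := by positivity
  unfold qq
  by_cases h : 3 ^ m * ps x < 1
  · rw [ps_Rt_lt h, div_self, one_mul]
    have h2 : 0 < max (3 ^ m * ps x) 1 := lt_max_of_lt_right one_pos
    exact h2.ne'
  · have h' : ¬ (3 ^ m * ps (Rt m j x) < 1) := by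
      intro hc
      have := ps_Rt_lt (j := -j) hc
      rw [Rt_Rt, neg_add_cancel, Rt_zero] at this
      rw [← this] at hc
      exact h hc
    push Not at h h'
    rw [max_eq_left h, max_eq_left h']
    have : ps (Rt m j x) ≠ 0 := by
      intro h0; rw [h0] at h'; norm_num at h'
    field_simp

lemma qq_mul (m : ℕ) (i j : ℤ) (x : ℝ) : qq m j x * qq m i (Rt m j x) = qq m (i + j) x := by
  unfold qq
  rw [Rt_Rt]
  have h2 : max (3 ^ m * ps (Rt m j x)) 1 ≠ 0 :=
    (lt_max_of_lt_right one_pos : (0 : ℝ) < max (3 ^ m * ps (Rt m j x)) 1).ne'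
  field_simp

lemma qq_one_of {m : ℕ} {j : ℤ} {x : ℝ} (h : ps (Rt m j x) = ps x) : qq m j x = 1 := by
  unfold qq
  rw [h, div_self]
  exact (lt_max_of_lt_right one_pos : (0 : ℝ) < max (3 ^ m * ps x) 1).ne'

lemma qq_zero (m : ℕ) (x : ℝ) : qq m 0 x = 1 := qq_one_of (by rw [Rt_zero])

lemma qq_full (j : ℤ) (x : ℝ) : qq 0 j x = 1 := qq_one_of (by rw [Rt_full, ps_add_int])

lemma qq_succ (m : ℕ) (j : ℤ) (x : ℝ) : qq (m + 1) ((m + 2) * j) x = qq m j x := by
  have e := qq_ps (m + 1) ((m + 2) * j) x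
  have e' := qq_ps m j x
  rw [Rt_succ] at e
  by_cases hp : ps (Rt m j x) = 0
  · have hx : ps x = 0 := by rw [← e', hp, mul_zero]
    rw [qq_one_of, qq_one_of]
    · rw [hp, hx]
    · rw [Rt_succ, hp, hx]
  · exact mul_right_cancel₀ hp (e.trans e'.symm)

end

end Pool.Agent.W2helper30.QM
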