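import Pool.Agent.V11131.Mod3
import Pool.Agent.W2helper30.QM1

/-!
Polar homeomorphisms of the plane depending on a parameter.
-/

namespace Pool.Agent.W2helper30.QM

open Set Filter Topology
open Pool.Agent.V11131.Mod (E ang norm_E E_ne E_add E_zero E_int E_add_int E_eq E_cont polar
  norm_polar ang_polar ang_cont polar_unique)

noncomputable section

lemma ang_neg {w : ℂ} (hw : w ≠ 0) : ∃ n : ℤ, ang w = ang (-w) + 1 / 2 + n := by
  apply E_eq
  have e1 := polar w
  have e2 := polar (-w)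
  rw [norm_neg] at e2
  have e3 : E (1 / 2) = -1 := by
    unfold E
    rw [show ((2 * Real.pi * (1 / 2) : ℝ) : ℂ) * Complex.I = Real.pi * Complex.I by
      push_cast; ring]
    exact Complex.exp_pi_mul_I
  have hw' : (‖w‖ : ℂ) ≠ 0 := by
    simpa using hw
  apply mul_left_cancel₀ hw'
  rw [E_add, e3, ← e1]
  rw [mul_neg_one, mul_neg, ← e2, neg_neg]

/-- Continuity of functions of the norm and the angle which are periodic in the angle. -/
lemma cont_polar {P Y : Type*} [TopologicalSpace P] [TopologicalSpace Y]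
    {W : P × ℝ × ℝ → Y} (hW : Continuous W)
    (hp : ∀ p t x (n : ℤ), W (p, t, x + n) = W (p, t, x)) {p : P} {z : ℂ} (hz : z ≠ 0) :
    ContinuousAt (fun a : P × ℂ => W (a.1, ‖a.2‖, ang a.2)) (p, z) := by
  by_cases hs : z ∈ Complex.slitPlane
  · have h1 : ContinuousAt (fun a : P × ℂ => ang a.2) (p, z) :=
      ContinuousAt.comp (f := fun a : P × ℂ => a.2) (x := (p, z)) (ang_cont hs)
        continuous_snd.continuousAt
    have h2 : ContinuousAt (fun a : P × ℂ => (a.1, ‖a.2‖, ang a.2)) (p, z) :=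
      continuous_fst.continuousAt.prodMk
        ((continuous_norm.comp continuous_snd).continuousAt.prodMk h1)
    exact ContinuousAt.comp (f := fun a : P × ℂ => (a.1, ‖a.2‖, ang a.2)) (x := (p, z))
      hW.continuousAt h2
  · have hneg : -z ∈ Complex.slitPlane := by
      rw [Complex.mem_slitPlane_iff] at hs ⊢
      push Not at hs
      left
      have h1 : z.re ≠ 0 := by
        intro h
        exact hz (Complex.ext h hs.2)
      have := lt_of_le_of_ne hs.1 h1
      simpa using this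
    have key : ∀ᶠ a : P × ℂ in 𝓝 (p, z),
        W (a.1, ‖a.2‖, ang a.2) = W (a.1, ‖a.2‖, ang (-a.2) + 1 / 2) := by
      have hev : ∀ᶠ a : P × ℂ in 𝓝 (p, z), a.2 ≠ 0 :=
        continuous_snd.continuousAt.eventually_ne hz
      filter_upwards [hev] with a ha
      obtain ⟨n, hn⟩ := ang_neg ha
      rw [hn, hp]
    have h1 : ContinuousAt (fun a : P × ℂ => ang (-a.2) + 1 / 2) (p, z) := by
      apply ContinuousAt.add _ continuousAt_const
      exact ContinuousAt.comp (f := fun a : P × ℂ => -a.2) (x := (p, z)) (ang_cont hneg)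
        continuous_snd.neg.continuousAt
    have h2 : ContinuousAt (fun a : P × ℂ => (a.1, ‖a.2‖, ang (-a.2) + 1 / 2)) (p, z) :=
      continuous_fst.continuousAt.prodMk
        ((continuous_norm.comp continuous_snd).continuousAt.prodMk h1)
    have h3 : ContinuousAt (fun a : P × ℂ => W (a.1, ‖a.2‖, ang (-a.2) + 1 / 2)) (p, z) :=
      ContinuousAt.comp (f := fun a : P × ℂ => (a.1, ‖a.2‖, ang (-a.2) + 1 / 2)) (x := (p, z))
        hW.continuousAt h2
    exact h3.congr (key.mono fun w hw => hw.symm)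

/-- A polar homeomorphism depending on a parameter: outside the unit disc the angle `x` goes
to `K 1 x` and the distance to the unit circle is multiplied by `Q x`; inside the unit disc the
norm `t` is preserved and the angle `x` goes to `K t x`. -/
structure Dat (P : Type) [TopologicalSpace P] where
  Q : P → ℝ → ℝ
  K : P → ℝ → ℝ → ℝ
  Qc : Continuous (fun a : P × ℝ => Q a.1 a.2)
  Kc : Continuous (fun a : P × ℝ × ℝ => K a.1 a.2.1 a.2.2)
  Qp : ∀ p x, 0 < Q p x
  Qn : ∀ p x (n : ℤ), Q p (x + n) = Q p x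
  Kn : ∀ p t x (n : ℤ), K p t (x + n) = K p t x + n
  Km : ∀ p t, StrictMono (K p t)
  K1 : ∀ p t x, 1 ≤ t → K p t x = K p 1 x

namespace Dat

variable {P : Type} [TopologicalSpace P] (D : Dat P)

/-- radial part -/
def rad (p : P) (t x : ℝ) : ℝ := min t 1 + max (t - 1) 0 * D.Q p x

lemma rad_nonneg (p : P) {t : ℝ} (ht : 0 ≤ t) (x : ℝ) : 0 ≤ D.rad p t x := by
  unfold rad
  have h1 : 0 ≤ min t 1 := le_min ht zero_le_one
  have h2 : 0 ≤ max (t - 1) 0 * D.Q p x := mul_nonneg (le_max_right _ _) (D.Qp p x).le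
  linarith

lemma rad_le (p : P) {t : ℝ} (ht : t ≤ 1) (x : ℝ) : D.rad p t x = t := by
  unfold rad
  rw [min_eq_left ht, max_eq_right (by linarith), zero_mul, add_zero]

lemma rad_ge (p : P) {t : ℝ} (ht : 1 ≤ t) (x : ℝ) : D.rad p t x = 1 + (t - 1) * D.Q p x := by
  unfold rad
  rw [min_eq_right ht, max_eq_left (by linarith)]

lemma rad_ge_one (p : P) {t : ℝ} (ht : 1 ≤ t) (x : ℝ) : 1 ≤ D.rad p t x := by
  rw [D.rad_ge p ht]
  have := mul_nonneg (show 0 ≤ t - 1 by linarith) (D.Qp p x).le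
  linarith

lemma rad_gt_one (p : P) {t : ℝ} (ht : 1 < t) (x : ℝ) : 1 < D.rad p t x := by
  rw [D.rad_ge p ht.le]
  have := mul_pos (show 0 < t - 1 by linarith) (D.Qp p x)
  linarith

/-- The map. -/
def act (p : P) (z : ℂ) : ℂ := (D.rad p ‖z‖ (ang z) : ℂ) * E (D.K p ‖z‖ (ang z))

lemma act_polar (p : P) {t : ℝ} (ht : 0 ≤ t) (x : ℝ) :
    D.act p ((t : ℂ) * E x) = (D.rad p t x : ℂ) * E (D.K p t x) := by
  unfold act
  rw [norm_polar ht]
  rcases ht.eq_or_lt with h | h
  · rw [← h, D.rad_le p zero_le_one, D.rad_le p zero_le_one]; simp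
  · obtain ⟨n, hn⟩ := ang_polar h x
    rw [hn, D.Kn, E_add_int]
    unfold rad
    rw [D.Qn]

lemma norm_act (p : P) (z : ℂ) : ‖D.act p z‖ = D.rad p ‖z‖ (ang z) :=
  norm_polar (D.rad_nonneg p (norm_nonneg z) _) _

lemma act_cont : Continuous (fun a : P × ℂ => D.act a.1 a.2) := by
  rw [continuous_iff_continuousAt]
  rintro ⟨p, z⟩
  by_cases hz : z = 0
  · subst hz
    have h0 : D.act p 0 = 0 := by
      rw [← norm_eq_zero, norm_act, norm_zero, D.rad_le p zero_le_one]
    show Tendsto _ _ _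
    rw [show (fun a : P × ℂ => D.act a.1 a.2) (p, 0) = 0 from h0,
      tendsto_zero_iff_norm_tendsto_zero]
    have hev : ∀ᶠ a : P × ℂ in 𝓝 (p, 0), ‖D.act a.1 a.2‖ = ‖a.2‖ := by
      have h1 : ∀ᶠ a : P × ℂ in 𝓝 (p, 0), ‖a.2‖ < 1 := by
        apply (continuous_norm.comp continuous_snd).continuousAt.eventually_lt_const
        simp
      filter_upwards [h1] with a ha
      rw [norm_act, D.rad_le _ ha.le]
    have h2 : Tendsto (fun a : P × ℂ => ‖a.2‖) (𝓝 (p, 0)) (𝓝 ‖(0 : ℂ)‖) :=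
      (continuous_norm.comp continuous_snd).tendsto (p, (0 : ℂ))
    rw [norm_zero] at h2
    exact h2.congr' (hev.mono fun a ha => ha.symm)
  · have hW : Continuous (fun a : P × ℝ × ℝ =>
        (D.rad a.1 a.2.1 a.2.2 : ℂ) * E (D.K a.1 a.2.1 a.2.2)) := by
      apply Continuous.mul
      · apply Complex.continuous_ofReal.comp
        unfold rad
        apply Continuous.add
        · fun_prop
        · apply Continuous.mul (by fun_prop)
          exact D.Qc.comp (by fun_prop : Continuous (fun a : P × ℝ × ℝ => (a.1, a.2.2)))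
      · exact E_cont.comp D.Kc
    refine cont_polar hW ?_ hz
    intro p t x n
    show (D.rad p t (x + n) : ℂ) * E (D.K p t (x + n)) = (D.rad p t x : ℂ) * E (D.K p t x)
    rw [D.Kn, E_add_int]
    unfold rad
    rw [D.Qn]

/-- composition -/
def comp (D' D : Dat P) : Dat P where
  Q p x := D.Q p x * D'.Q p (D.K p 1 x)
  K p t x := D'.K p t (D.K p t x)
  Qc := by
    apply Continuous.mul D.Qc
    have h1 : Continuous (fun a : P × ℝ => D.K a.1 1 a.2) :=
      D.Kc.comp (by fun_prop : Continuous (fun a : P × ℝ => (a.1, (1 : ℝ), a.2)))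
    have h2 : Continuous (fun a : P × ℝ => (a.1, D.K a.1 1 a.2)) := continuous_fst.prodMk h1
    exact D'.Qc.comp h2
  Kc := by
    have h1 : Continuous (fun a : P × ℝ × ℝ => a.2.1) := by fun_prop
    have h2 : Continuous (fun a : P × ℝ × ℝ => (a.1, a.2.1, D.K a.1 a.2.1 a.2.2)) :=
      continuous_fst.prodMk (h1.prodMk D.Kc)
    exact D'.Kc.comp h2
  Qp p x := mul_pos (D.Qp _ _) (D'.Qp _ _)
  Qn p x n := by rw [D.Qn, D.Kn, D'.Qn]
  Kn p t x n := by rw [D.Kn, D'.Kn]
  Km p t := (D'.Km p t).comp (D.Km p t)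
  K1 p t x ht := by rw [D.K1 p t x ht, D'.K1 p t _ ht]

lemma rad_comp (D' D : Dat P) (p : P) {t : ℝ} (_ht : 0 ≤ t) (x : ℝ) :
    (comp D' D).rad p t x = D'.rad p (D.rad p t x) (D.K p t x) := by
  rcases le_total t 1 with h | h
  · rw [rad_le _ _ h, D.rad_le _ h, D'.rad_le _ h]
  · rw [rad_ge _ _ h, D'.rad_ge _ (D.rad_ge_one p h x), D.rad_ge _ h, D.K1 p t x h]
    show 1 + (t - 1) * (D.Q p x * D'.Q p (D.K p 1 x)) = _
    ring

lemma act_comp (D' D : Dat P) (p : P) (z : ℂ) :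
    D'.act p (D.act p z) = (comp D' D).act p z := by
  conv_lhs => rw [polar z]
  conv_rhs => rw [polar z]
  rw [D.act_polar p (norm_nonneg _), D'.act_polar p (D.rad_nonneg p (norm_nonneg _) _),
    (comp D' D).act_polar p (norm_nonneg _), rad_comp _ _ _ (norm_nonneg _)]
  congr 2
  show _ = D'.K p ‖z‖ (D.K p ‖z‖ (ang z))
  rcases le_total ‖z‖ 1 with h | h
  · rw [D.rad_le _ h]
  · rw [D'.K1 _ _ _ (D.rad_ge_one p h _), D'.K1 _ _ _ h]

/-- identity -/
def one : Dat P where
  Q _ _ := 1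
  K _ _ x := x
  Qc := continuous_const
  Kc := by fun_prop
  Qp _ _ := one_pos
  Qn _ _ _ := rfl
  Kn _ _ _ _ := rfl
  Km _ _ := strictMono_id
  K1 _ _ _ _ := rfl

lemma act_of {D : Dat P} {p : P} (hQ : ∀ x, D.Q p x = 1) (hK : ∀ t x, D.K p t x = x) (z : ℂ) :
    D.act p z = z := by
  unfold act
  rw [hK]
  have : D.rad p ‖z‖ (ang z) = ‖z‖ := by
    unfold rad
    rw [hQ, mul_one]
    rcases le_total ‖z‖ 1 with h | h
    · rw [min_eq_left h, max_eq_right (by linarith)]; ring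
    · rw [min_eq_right h, max_eq_left (by linarith)]; ring
  rw [this]
  exact (polar z).symm

lemma K_surj (p : P) (t : ℝ) : Function.Surjective (D.K p t) := by
  have hc : Continuous (D.K p t) :=
    D.Kc.comp (by fun_prop : Continuous (fun x : ℝ => (p, t, x)))
  have key : ∀ x : ℝ, D.K p t 0 + x - 1 ≤ D.K p t x ∧ D.K p t x ≤ D.K p t 0 + x + 1 := by
    intro x
    have h1 := D.Kn p t 0 ⌊x⌋
    have h2 := D.Kn p t 0 (⌊x⌋ + 1)
    rw [zero_add] at h1 h2
    have h3 := (D.Km p t).monotone (Int.floor_le x)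
    have h4 := (D.Km p t).monotone (show x ≤ ((⌊x⌋ + 1 : ℤ) : ℝ) by
      push_cast; exact (Int.lt_floor_add_one x).le)
    have h5 := Int.floor_le x
    have h6 := Int.lt_floor_add_one x
    push_cast at h2 h4
    constructor <;> linarith
  apply hc.surjective
  · apply tendsto_atTop_mono (fun x => (key x).1)
    exact tendsto_atTop_add_const_right _ _ (tendsto_atTop_add_const_left _ _ tendsto_id)
  · apply tendsto_atBot_mono (fun x => (key x).2)
    exact tendsto_atBot_add_const_right _ _ (tendsto_atBot_add_const_left _ _ tendsto_id)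

/-- inverse of the angular part -/
def Ki (p : P) (t : ℝ) (x : ℝ) : ℝ := (D.K_surj p t x).choose

lemma K_Ki (p : P) (t x : ℝ) : D.K p t (D.Ki p t x) = x := (D.K_surj p t x).choose_spec

lemma Ki_K (p : P) (t x : ℝ) : D.Ki p t (D.K p t x) = x := (D.Km p t).injective (D.K_Ki p t _)

lemma Ki_mono (p : P) (t : ℝ) : StrictMono (D.Ki p t) := by
  intro x y h
  rw [← (D.Km p t).lt_iff_lt, K_Ki, K_Ki]
  exact h

lemma Ki_cont : Continuous (fun a : P × ℝ × ℝ => D.Ki a.1 a.2.1 a.2.2) := by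
  rw [continuous_iff_continuousAt]
  rintro ⟨p, t, x⟩
  rw [Metric.continuousAt_iff']
  intro ε hε
  set y := D.Ki p t x with hy
  have e0 : D.K p t y = x := D.K_Ki p t x
  have e1 : D.K p t (y - ε / 2) < x := by rw [← e0]; exact D.Km p t (by linarith)
  have e2 : x < D.K p t (y + ε / 2) := by rw [← e0]; exact D.Km p t (by linarith)
  have c1 : ContinuousAt (fun a : P × ℝ × ℝ => D.K a.1 a.2.1 (y - ε / 2) - a.2.2) (p, t, x) := by
    apply Continuous.continuousAt
    apply Continuous.sub _ (by fun_prop)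
    exact D.Kc.comp (by fun_prop : Continuous (fun a : P × ℝ × ℝ => (a.1, a.2.1, y - ε / 2)))
  have c2 : ContinuousAt (fun a : P × ℝ × ℝ => D.K a.1 a.2.1 (y + ε / 2) - a.2.2) (p, t, x) := by
    apply Continuous.continuousAt
    apply Continuous.sub _ (by fun_prop)
    exact D.Kc.comp (by fun_prop : Continuous (fun a : P × ℝ × ℝ => (a.1, a.2.1, y + ε / 2)))
  filter_upwards [c1.eventually_lt_const (show D.K p t (y - ε / 2) - x < 0 by linarith),
    c2.eventually_const_lt (show 0 < D.K p t (y + ε / 2) - x by linarith)] with a h1 h2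
  have g1 : y - ε / 2 < D.Ki a.1 a.2.1 a.2.2 := by
    rw [← (D.Km a.1 a.2.1).lt_iff_lt, K_Ki]; linarith
  have g2 : D.Ki a.1 a.2.1 a.2.2 < y + ε / 2 := by
    rw [← (D.Km a.1 a.2.1).lt_iff_lt, K_Ki]; linarith
  show dist (D.Ki a.1 a.2.1 a.2.2) y < ε
  rw [Real.dist_eq, abs_lt]
  constructor <;> linarith

/-- inverse datum -/
def inv : Dat P where
  Q p x := (D.Q p (D.Ki p 1 x))⁻¹
  K p t x := D.Ki p t x
  Qc := by
    apply Continuous.inv₀
    · have h1 : Continuous (fun a : P × ℝ => D.Ki a.1 1 a.2) :=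
        D.Ki_cont.comp (by fun_prop : Continuous (fun a : P × ℝ => (a.1, (1 : ℝ), a.2)))
      have h2 : Continuous (fun a : P × ℝ => (a.1, D.Ki a.1 1 a.2)) := continuous_fst.prodMk h1
      exact D.Qc.comp h2
    · intro a; exact (D.Qp _ _).ne'
  Kc := D.Ki_cont
  Qp p x := inv_pos.2 (D.Qp _ _)
  Qn p x n := by
    congr 1
    rw [← D.Qn p (D.Ki p 1 x) n]
    congr 1
    apply (D.Km p 1).injective
    rw [K_Ki, D.Kn, K_Ki]
  Kn p t x n := by
    apply (D.Km p t).injective
    rw [K_Ki, D.Kn, K_Ki]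
  Km := D.Ki_mono
  K1 p t x ht := by
    apply (D.Km p t).injective
    rw [K_Ki, D.K1 p t _ ht, K_Ki]

lemma act_inv_act (p : P) (z : ℂ) : D.inv.act p (D.act p z) = z := by
  rw [act_comp]
  apply act_of
  · intro x
    show D.Q p x * (D.Q p (D.Ki p 1 (D.K p 1 x)))⁻¹ = 1
    rw [Ki_K]
    exact mul_inv_cancel₀ (D.Qp p x).ne'
  · intro t x; exact D.Ki_K p t x

lemma act_act_inv (p : P) (z : ℂ) : D.act p (D.inv.act p z) = z := by
  rw [act_comp]
  apply act_of
  · intro x
    show (D.Q p (D.Ki p 1 x))⁻¹ * D.Q p (D.Ki p 1 x) = 1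
    exact inv_mul_cancel₀ (D.Qp _ _).ne'
  · intro t x; exact D.K_Ki p t x

lemma act_inj (p : P) : Function.Injective (D.act p) := by
  intro z w h
  rw [← D.act_inv_act p z, h, D.act_inv_act]

end Dat

/-- The surface. -/
def SS : Set ℂ := {z | (‖z‖ - 1) * ps (ang z) ≤ 1}

lemma polar_mem_SS {t : ℝ} (ht : 0 ≤ t) (x : ℝ) : (t : ℂ) * E x ∈ SS ↔ (t - 1) * ps x ≤ 1 := by
  show (‖_‖ - 1) * ps (ang _) ≤ 1 ↔ _
  rw [norm_polar ht]
  rcases ht.eq_or_lt with h | h
  · rw [← h]
    have h1 := ps_nonneg (ang (((0 : ℝ) : ℂ) * E x))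
    have h2 := ps_nonneg x
    constructor <;> intro _ <;> linarith
  · obtain ⟨n, hn⟩ := ang_polar h x
    rw [hn, ps_add_int]

/-- The datum preserves the surface. -/
def Dat.Good {P : Type} [TopologicalSpace P] (D : Dat P) : Prop :=
  ∀ p x, D.Q p x * ps (D.K p 1 x) = ps x

namespace Dat

variable {P : Type} [TopologicalSpace P] {D : Dat P}

lemma Good.mem (h : D.Good) (p : P) (z : ℂ) : D.act p z ∈ SS ↔ z ∈ SS := by
  rw [polar z, D.act_polar p (norm_nonneg _), polar_mem_SS (D.rad_nonneg p (norm_nonneg _) _),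
    polar_mem_SS (norm_nonneg _)]
  rcases le_total ‖z‖ 1 with h1 | h1
  · rw [D.rad_le _ h1]
    have e1 : (‖z‖ - 1) * ps (D.K p ‖z‖ (ang z)) ≤ 1 := by
      have := mul_nonneg (show 0 ≤ 1 - ‖z‖ by linarith) (ps_nonneg (D.K p ‖z‖ (ang z)))
      linarith
    have e2 : (‖z‖ - 1) * ps (ang z) ≤ 1 := by
      have := mul_nonneg (show 0 ≤ 1 - ‖z‖ by linarith) (ps_nonneg (ang z))
      linarith
    exact ⟨fun _ => e2, fun _ => e1⟩
  · rw [D.rad_ge _ h1, D.K1 _ _ _ h1, add_sub_cancel_left, mul_assoc, h]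

lemma Good.inv (h : D.Good) : D.inv.Good := by
  intro p x
  show (D.Q p (D.Ki p 1 x))⁻¹ * ps (D.Ki p 1 x) = ps x
  have h1 := h p (D.Ki p 1 x)
  rw [K_Ki] at h1
  have h2 := (D.Qp p (D.Ki p 1 x)).ne'
  rw [← h1]
  field_simp

lemma Good.comp {D' : Dat P} (h' : D'.Good) (h : D.Good) : (comp D' D).Good := by
  intro p x
  show D.Q p x * D'.Q p (D.K p 1 x) * ps (D'.K p 1 (D.K p 1 x)) = ps x
  rw [mul_assoc, h', h]

end Dat

end

end Pool.Agent.W2helper30.QM
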