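import Pool.Agent.W2helper30.QM3

/-!
The sectors, the pockets and the central polygons.
-/

namespace Pool.Agent.W2helper30.QM

open Set Filter Topology
open Pool.Agent.V11131.Mod (E ang norm_E E_ne E_add E_zero E_int E_add_int E_eq E_cont polar
  norm_polar ang_polar ang_cont polar_unique IsDisc IsArc Far)

noncomputable section

lemma pow3_pos (m : ℕ) : (0 : ℝ) < 3 ^ m := by positivity

lemma pow3_le {m n : ℕ} (h : m ≤ n) : (3 : ℝ) ^ m ≤ 3 ^ n := pow_le_pow_right₀ (by norm_num) h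

lemma pow3_lt {m n : ℕ} (h : m < n) : (3 : ℝ) ^ m < 3 ^ n := pow_lt_pow_right₀ (by norm_num) h

lemma far_W {a : ℤ} {y : ℝ} (h1 : (a : ℝ) + 1 / 10 ≤ y) (h2 : y ≤ a + 9 / 10) : Far y := by
  intro n
  by_cases hn : n ≤ a
  · have : (n : ℝ) ≤ a := by exact_mod_cast hn
    rw [le_abs]; left; linarith
  · have : (a : ℝ) + 1 ≤ n := by exact_mod_cast (by omega : a + 1 ≤ n)
    rw [le_abs]; right; linarith

lemma far_W' {a : ℤ} {y : ℝ} (h1 : (a : ℝ) + 1 / 10 < y) (h2 : y < a + 9 / 10) :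
    ∀ n : ℤ, 1 / 10 < |y - n| := by
  intro n
  by_cases hn : n ≤ a
  · have : (n : ℝ) ≤ a := by exact_mod_cast hn
    rw [lt_abs]; left; linarith
  · have : (a : ℝ) + 1 ≤ n := by exact_mod_cast (by omega : a + 1 ≤ n)
    rw [lt_abs]; right; linarith

/-- The depth function of the pockets. -/
def tn (m : ℕ) (y : ℝ) : ℝ :=
  if 2 ≤ round y % ((m : ℤ) + 2) then min 1 (2 / 5 + 12 * |y - round y|) else 1

lemma round_of {y : ℝ} {b : ℤ} (h : |y - b| < 1 / 2) : round y = b := by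
  rw [round_eq, Int.floor_eq_iff]
  rw [abs_lt] at h
  constructor <;> linarith

lemma tn_of {m : ℕ} {y : ℝ} {b : ℤ} (h : |y - b| < 1 / 2) :
    tn m y = if 2 ≤ b % ((m : ℤ) + 2) then min 1 (2 / 5 + 12 * |y - b|) else 1 := by
  unfold tn
  rw [round_of h]

lemma tn_pocket {m : ℕ} {y : ℝ} {b : ℤ} (hb : 2 ≤ b % ((m : ℤ) + 2)) (h : |y - b| ≤ 1 / 20) :
    tn m y = 2 / 5 + 12 * |y - b| := by
  rw [tn_of (lt_of_le_of_lt h (by norm_num)), if_pos hb, min_eq_right (by linarith)]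

lemma tn_other {m : ℕ} {y : ℝ} {b : ℤ} (hb : ¬ 2 ≤ b % ((m : ℤ) + 2)) (h : |y - b| < 1 / 2) :
    tn m y = 1 := by
  rw [tn_of h, if_neg hb]

lemma tn_le_one (m : ℕ) (y : ℝ) : tn m y ≤ 1 := by
  unfold tn
  split_ifs
  · exact min_le_left _ _
  · exact le_rfl

lemma tn_ge (m : ℕ) (y : ℝ) : 2 / 5 ≤ tn m y := by
  unfold tn
  split_ifs
  · apply le_min (by norm_num)
    have := abs_nonneg (y - round y)
    linarith
  · norm_num

lemma tn_far {m : ℕ} {y : ℝ} (h : ∀ b : ℤ, 1 / 20 ≤ |y - b|) : tn m y = 1 := by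
  unfold tn
  split_ifs
  · apply min_eq_left
    have := h (round y)
    linarith
  · rfl

lemma tn_lt {m : ℕ} {y : ℝ} (h : tn m y < 1) :
    ∃ b : ℤ, 2 ≤ b % ((m : ℤ) + 2) ∧ |y - b| < 1 / 20 ∧ tn m y = 2 / 5 + 12 * |y - b| := by
  unfold tn at h ⊢
  split_ifs at h ⊢ with hb
  · refine ⟨round y, hb, ?_, ?_⟩
    · rcases min_lt_iff.1 h with h1 | h1
      · exact absurd h1 (lt_irrefl _)
      · linarith
    · rcases min_lt_iff.1 h with h1 | h1
      · exact absurd h1 (lt_irrefl _)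
      · exact min_eq_right h1.le
  · exact absurd h (lt_irrefl _)

lemma tn_add (m : ℕ) (y : ℝ) (n : ℤ) : tn m (y + (((m : ℤ) + 2) * n : ℤ)) = tn m y := by
  unfold tn
  rw [round_add_intCast, Int.add_mul_emod_self_left]
  push_cast
  rw [show y + ((m : ℝ) + 2) * n - (round y + ((m : ℝ) + 2) * n) = y - round y by ring]

lemma tn_cont (m : ℕ) : Continuous (tn m) := by
  rw [continuous_iff_continuousAt]
  intro y
  have hr : |y - round y| ≤ 1 / 2 := abs_sub_round y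
  rcases hr.lt_or_eq with h | h
  · have hev : ∀ᶠ w : ℝ in 𝓝 y, |w - round y| < 1 / 2 := by
      have hc : ContinuousAt (fun w : ℝ => |w - round y|) y := by fun_prop
      exact hc.eventually_lt_const h
    have h2 : ContinuousAt (fun w : ℝ => if 2 ≤ round y % ((m : ℤ) + 2) then
        min 1 (2 / 5 + 12 * |w - round y|) else (1 : ℝ)) y := by
      split_ifs
      · fun_prop
      · fun_prop
    exact h2.congr (hev.mono fun w hw => (tn_of hw).symm)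
  · have hev : ∀ᶠ w in 𝓝 y, tn m w = 1 := by
      have hev2 : ∀ᶠ w in 𝓝 y, |w - y| < 1 / 10 := by
        have hc : ContinuousAt (fun w : ℝ => |w - y|) y := by fun_prop
        apply hc.eventually_lt_const
        simp
      filter_upwards [hev2] with w hw
      apply tn_far
      intro b
      by_contra hc
      push Not at hc
      have h1 : |y - b| < 1 / 5 := by
        calc |y - b| = |(y - w) + (w - b)| := by ring_nf
          _ ≤ |y - w| + |w - b| := abs_add_le _ _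
          _ < 1 / 5 := by rw [abs_sub_comm y w]; linarith
      have h2 := round_of (show |y - b| < 1 / 2 by linarith)
      rw [h2] at h
      linarith
    have h1 : tn m y = 1 := hev.self_of_nhds
    rw [ContinuousAt, h1]
    exact tendsto_const_nhds.congr' (hev.mono fun w hw => hw.symm)

/-- local polar coordinates -/
lemma polar_nhds {t₀ x₀ : ℝ} (h : 0 < t₀) {U : ℝ × ℝ → Prop} (hU : ∀ᶠ p in 𝓝 (t₀, x₀), U p) :
    ∀ᶠ z in 𝓝 ((t₀ : ℂ) * E x₀), ∃ t x : ℝ, z = t * E x ∧ U (t, x) := by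
  set p : ℂ := (t₀ : ℂ) * E x₀ with hp
  set loc : ℂ → ℝ := fun z => x₀ + ang (z * E (-x₀)) with hloc
  have hE : E x₀ * E (-x₀) = 1 := by rw [← E_add, add_neg_cancel, E_zero]
  have h1 : p * E (-x₀) = (t₀ : ℂ) := by rw [hp, mul_assoc, hE, mul_one]
  have hsl : p * E (-x₀) ∈ Complex.slitPlane := by
    rw [h1]; exact Complex.ofReal_mem_slitPlane.2 h
  have loc_cont : ContinuousAt loc p := by
    apply continuousAt_const.add
    exact ContinuousAt.comp (f := fun z : ℂ => z * E (-x₀)) (ang_cont hsl)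
      (continuousAt_id.mul continuousAt_const)
  have loc0 : loc p = x₀ := by
    simp only [hloc]
    rw [h1]
    unfold ang
    rw [Complex.arg_ofReal_of_nonneg h.le]
    simp
  have locE : ∀ z, z = (‖z‖ : ℂ) * E (loc z) := by
    intro z
    have := polar (z * E (-x₀))
    rw [norm_mul, norm_E, mul_one] at this
    have hE' : E (-x₀) * E x₀ = 1 := by rw [mul_comm]; exact hE
    calc z = z * E (-x₀) * E x₀ := by rw [mul_assoc, hE', mul_one]
      _ = _ := by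
        rw [this]
        simp only [hloc]
        rw [E_add]
        ring
  have hnp : ‖p‖ = t₀ := by rw [hp, norm_polar h.le]
  have c : ContinuousAt (fun z : ℂ => (‖z‖, loc z)) p :=
    continuous_norm.continuousAt.prodMk loc_cont
  have c' : Tendsto (fun z : ℂ => (‖z‖, loc z)) (𝓝 p) (𝓝 (t₀, x₀)) := by
    have := c.tendsto
    rwa [hnp, loc0] at this
  filter_upwards [c'.eventually hU] with z hz
  exact ⟨‖z‖, loc z, locE z, hz⟩

lemma gap_ne {m : ℕ} {b : ℤ} (hb : b % ((m : ℤ) + 2) ≠ 0) {x : ℝ}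
    (h : |DD (m + 1) x - b| ≤ 1 / 10) (n : ℤ) : 1 / 5 ≤ |DD m x - n| := by
  by_contra hc
  push Not at hc
  have h1 := near_succ (n := n) hc.le
  have h2 : |((b : ℤ) : ℝ) - (((m : ℤ) + 2) * n : ℤ)| < 1 := by
    calc |((b : ℤ) : ℝ) - (((m : ℤ) + 2) * n : ℤ)|
        = |(DD (m + 1) x - (((m : ℤ) + 2) * n : ℤ)) - (DD (m + 1) x - b)| := by ring_nf
      _ ≤ |DD (m + 1) x - (((m : ℤ) + 2) * n : ℤ)| + |DD (m + 1) x - b| := abs_sub _ _
      _ < 1 := by rw [h1]; linarith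
  have h3 : |b - ((m : ℤ) + 2) * n| < 1 := by exact_mod_cast h2
  have h4 : b = ((m : ℤ) + 2) * n := by
    have := Int.abs_lt_one_iff.1 h3
    linarith
  apply hb
  rw [h4]
  exact Int.mul_emod_right _ _

lemma ps_gap {m : ℕ} {b : ℤ} (hb : b % ((m : ℤ) + 2) ≠ 0) {x : ℝ}
    (h : |DD (m + 1) x - b| ≤ 1 / 10) : 3 ^ (m + 1) * ps x = 1 := by
  have hf : Far (DD m x) := by
    intro n
    have := gap_ne hb h n
    linarith
  have h1 := ps_far hf
  have h2 := Ps_step m x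
  have h3 : Pool.Agent.V11131.Mod.kap (DD m x) = 0 := by
    by_contra hk
    obtain ⟨n, hn⟩ := Pool.Agent.V11131.Mod.kap_ne hk
    have := gap_ne hb h n
    linarith
  rw [h3, Ps_near h] at h2
  rw [pow_succ]
  linarith

lemma gap_sector {m : ℕ} {b : ℤ} (hb : b % ((m : ℤ) + 2) ≠ 0) {x : ℝ}
    (h : |DD (m + 1) x - b| ≤ 1 / 10) :
    ((b / ((m : ℤ) + 2) : ℤ) : ℝ) + 1 / 5 ≤ DD m x ∧
      DD m x ≤ ((b / ((m : ℤ) + 2) : ℤ) : ℝ) + 4 / 5 := by
  set a : ℤ := b / ((m : ℤ) + 2) with ha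
  have hm : (0 : ℤ) < (m : ℤ) + 2 := by positivity
  have h0 := Int.emod_nonneg b hm.ne'
  have h1 := Int.emod_lt_of_pos b hm
  have h2 := Int.emod_add_mul_ediv b ((m : ℤ) + 2)
  rw [← ha] at h2
  have b1 : ((m : ℤ) + 2) * a + 1 ≤ b := by
    have : 0 < b % ((m : ℤ) + 2) := lt_of_le_of_ne h0 (Ne.symm hb)
    linarith
  have b2 : b + 1 ≤ ((m : ℤ) + 2) * (a + 1) := by linarith
  have b1' : ((m : ℝ) + 2) * a + 1 ≤ b := by exact_mod_cast b1
  have b2' : (b : ℝ) + 1 ≤ ((m : ℝ) + 2) * (a + 1) := by exact_mod_cast b2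
  rw [abs_le] at h
  have c1 : (a : ℝ) < DD m x := by
    rw [← (EI m).lt_iff_lt, EI_int, ← DD_succ]
    linarith
  have c2 : DD m x < (a : ℝ) + 1 := by
    have e : ((a : ℝ) + 1) = ((a + 1 : ℤ) : ℝ) := by push_cast; ring
    rw [e, ← (EI m).lt_iff_lt, EI_int, ← DD_succ]
    push_cast
    linarith
  have d1 := gap_ne hb (abs_le.2 h) a
  have d2 := gap_ne hb (abs_le.2 h) (a + 1)
  push_cast at d2
  rw [abs_of_nonneg (by linarith)] at d1
  rw [abs_sub_comm, abs_of_nonneg (by linarith)] at d2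
  constructor <;> linarith

/-- The whole sector number `a` of level `m`. -/
def HB (m : ℕ) (a : ℤ) : Set ℂ :=
  {z | ∃ t x : ℝ, z = t * E x ∧ (a : ℝ) + 1 / 10 ≤ DD m x ∧ DD m x ≤ a + 9 / 10 ∧
    1 + 3 ^ m ≤ t ∧ t ≤ 1 + 3 ^ (m + 1) ∧ (t - 1) * ps x ≤ 1}

/-- The main polygon of the sector number `a` of level `m`. -/
def HQ (m : ℕ) (a : ℤ) : Set ℂ :=
  {z | ∃ t x : ℝ, z = t * E x ∧ (a : ℝ) + 1 / 10 ≤ DD m x ∧ DD m x ≤ a + 9 / 10 ∧
    1 + 3 ^ m ≤ t ∧ t ≤ 1 + 3 ^ (m + 1) ∧ (t - 1) * ps x ≤ 1 ∧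
      t - 1 ≤ 3 ^ (m + 1) * tn m (DD (m + 1) x)}

/-- The pocket at the gap number `b` of level `m + 1`. -/
def HP (m : ℕ) (b : ℤ) : Set ℂ :=
  {z | ∃ t x : ℝ, z = t * E x ∧ |DD (m + 1) x - b| ≤ 1 / 20 ∧
    1 + 3 ^ (m + 1) * (2 / 5 + 12 * |DD (m + 1) x - b|) ≤ t ∧ t ≤ 1 + 3 ^ (m + 1)}

lemma HQ_sub {m : ℕ} {a : ℤ} : HQ m a ⊆ HB m a := by
  rintro z ⟨t, x, rfl, h1, h2, h3, h4, h5, -⟩
  exact ⟨t, x, rfl, h1, h2, h3, h4, h5⟩

lemma ne_zero_of_two {b c : ℤ} (h : 2 ≤ b % c) : b % c ≠ 0 := by omega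

lemma HP_sub {m : ℕ} {b : ℤ} (hb : 2 ≤ b % ((m : ℤ) + 2)) :
    HP m b ⊆ HB m (b / ((m : ℤ) + 2)) := by
  rintro z ⟨t, x, rfl, h1, h2, h3⟩
  have h1' : |DD (m + 1) x - b| ≤ 1 / 10 := by linarith
  have g1 := gap_sector (ne_zero_of_two hb) h1'
  have g2 := ps_gap (ne_zero_of_two hb) h1'
  have h0 := abs_nonneg (DD (m + 1) x - b)
  have hp := pow3_pos m
  have hp1 : (3 : ℝ) ^ (m + 1) = 3 * 3 ^ m := by rw [pow_succ]; ring
  have h4 : (3 : ℝ) ^ (m + 1) * (2 / 5) ≤ 3 ^ (m + 1) * (2 / 5 + 12 * |DD (m + 1) x - b|) :=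
    mul_le_mul_of_nonneg_left (by linarith) (pow3_pos (m + 1)).le
  refine ⟨t, x, rfl, by linarith [g1.1], by linarith [g1.2], ?_, h3, ?_⟩
  · have h6 : (3 : ℝ) ^ (m + 1) * (2 / 5) ≤ t - 1 := by linarith
    rw [hp1] at h6; linarith
  · have := mul_le_mul_of_nonneg_right (show t - 1 ≤ 3 ^ (m + 1) by linarith) (ps_nonneg x)
    linarith

lemma HB_cover {m : ℕ} {a : ℤ} {z : ℂ} (h : z ∈ HB m a) :
    z ∈ HQ m a ∨ ∃ b : ℤ, 2 ≤ b % ((m : ℤ) + 2) ∧ z ∈ HP m b := by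
  obtain ⟨t, x, rfl, h1, h2, h3, h4, h5⟩ := h
  by_cases hc : t - 1 ≤ 3 ^ (m + 1) * tn m (DD (m + 1) x)
  · exact Or.inl ⟨t, x, rfl, h1, h2, h3, h4, h5, hc⟩
  · right
    push Not at hc
    have h6 : tn m (DD (m + 1) x) < 1 := by
      have hp := pow3_pos (m + 1)
      by_contra h7
      push Not at h7
      have := mul_le_mul_of_nonneg_left h7 hp.le
      linarith
    obtain ⟨b, b1, b2, b3⟩ := tn_lt h6
    rw [b3] at hc
    exact ⟨b, b1, t, x, rfl, b2.le, by linarith, h4⟩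

lemma HB_norm {m : ℕ} {a : ℤ} {z : ℂ} (h : z ∈ HB m a) :
    1 + 3 ^ m ≤ ‖z‖ ∧ ‖z‖ ≤ 1 + 3 ^ (m + 1) := by
  obtain ⟨t, x, rfl, h1, h2, h3, h4, h5⟩ := h
  have := pow3_pos m
  rw [norm_polar (by linarith)]
  exact ⟨h3, h4⟩

lemma HB_SS {m : ℕ} {a : ℤ} : HB m a ⊆ SS := by
  rintro z ⟨t, x, rfl, h1, h2, h3, h4, h5⟩
  have := pow3_pos m
  exact (polar_mem_SS (by linarith) x).2 h5

lemma HQ_shift (m : ℕ) (a n : ℤ) : HQ m (a + NN m * n) = HQ m a := by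
  have key : ∀ a n : ℤ, HQ m a ⊆ HQ m (a + NN m * n) := by
    rintro a n z ⟨t, x, rfl, h1, h2, h3, h4, h5, h6⟩
    refine ⟨t, x + n, by rw [E_add_int], ?_, ?_, h3, h4, by rw [ps_add_int]; exact h5, ?_⟩
    · rw [DD_add_int]; push_cast; linarith
    · rw [DD_add_int]; push_cast; linarith
    · rw [DD_add_int]
      have := tn_add m (DD (m + 1) x) (NN m * n)
      rw [NN_succ]
      push_cast at this ⊢
      rw [mul_assoc, this]
      exact h6
  apply Set.Subset.antisymm _ (key a n)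
  have := key (a + NN m * n) (-n)
  rwa [show a + NN m * n + NN m * -n = a by ring] at this

lemma HP_shift (m : ℕ) (b n : ℤ) : HP m (b + NN (m + 1) * n) = HP m b := by
  have key : ∀ b n : ℤ, HP m b ⊆ HP m (b + NN (m + 1) * n) := by
    rintro b n z ⟨t, x, rfl, h1, h2, h3⟩
    have e : DD (m + 1) (x + n) - ((b + NN (m + 1) * n : ℤ) : ℝ) = DD (m + 1) x - b := by
      rw [DD_add_int]; push_cast; ring
    refine ⟨t, x + n, by rw [E_add_int], ?_, ?_, h3⟩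
    · rw [e]; exact h1
    · rw [e]; exact h2
  apply Set.Subset.antisymm _ (key b n)
  have := key (b + NN (m + 1) * n) (-n)
  rwa [show b + NN (m + 1) * n + NN (m + 1) * -n = b by ring] at this

lemma HB_same {m : ℕ} {a b : ℤ} {z : ℂ} (h : z ∈ HB m a) (h' : z ∈ HB m b) :
    ∃ n : ℤ, b = a + NN m * n := by
  obtain ⟨t, x, rfl, h1, h2, h3, h4, h5⟩ := h
  obtain ⟨s, y, e, g1, g2, g3, g4, g5⟩ := h'
  have hp := pow3_pos m
  obtain ⟨-, n, hn⟩ := polar_unique (show 0 < t by linarith) (show 0 ≤ s by linarith) e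
  refine ⟨-n, ?_⟩
  rw [hn, DD_add_int] at h1 h2
  have k1 : (a : ℝ) - NN m * n - b < 1 := by linarith
  have k2 : (-1 : ℝ) < (a : ℝ) - NN m * n - b := by linarith
  have k3 : a - NN m * n - b < 1 := by exact_mod_cast k1
  have k4 : -1 < a - NN m * n - b := by exact_mod_cast k2
  have : a + NN m * -n = a - NN m * n := by ring
  omega

lemma HP_same {m : ℕ} {a b : ℤ} {z : ℂ} (h : z ∈ HP m a) (h' : z ∈ HP m b) :
    ∃ n : ℤ, b = a + NN (m + 1) * n := by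
  obtain ⟨t, x, rfl, h1, h2, h3⟩ := h
  obtain ⟨s, y, e, g1, g2, g3⟩ := h'
  have hp := pow3_pos (m + 1)
  have ha := abs_nonneg (DD (m + 1) x - a)
  have hb := abs_nonneg (DD (m + 1) y - b)
  have q1 := mul_nonneg hp.le (show 0 ≤ 2 / 5 + 12 * |DD (m + 1) x - a| by linarith)
  have q2 := mul_nonneg hp.le (show 0 ≤ 2 / 5 + 12 * |DD (m + 1) y - b| by linarith)
  obtain ⟨-, n, hn⟩ := polar_unique (show 0 < t by linarith) (show 0 ≤ s by linarith) e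
  refine ⟨-n, ?_⟩
  rw [hn, DD_add_int] at h1
  rw [abs_le] at h1 g1
  have k1 : (a : ℝ) - NN (m + 1) * n - b < 1 := by linarith
  have k2 : (-1 : ℝ) < (a : ℝ) - NN (m + 1) * n - b := by linarith
  have k3 : a - NN (m + 1) * n - b < 1 := by exact_mod_cast k1
  have k4 : -1 < a - NN (m + 1) * n - b := by exact_mod_cast k2
  have : a + NN (m + 1) * -n = a - NN (m + 1) * n := by ring
  omega

lemma EI_lo (m : ℕ) (a : ℤ) : EI m ((a : ℝ) + 1 / 10) = (m + 2) * a + 1 / 20 := by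
  rw [EI_near (n := a)]
  · ring
  · rw [show (a : ℝ) + 1 / 10 - a = 1 / 10 by ring]; norm_num

lemma EI_hi (m : ℕ) (a : ℤ) : EI m ((a : ℝ) + 9 / 10) = (m + 2) * (a + 1) - 1 / 20 := by
  rw [EI_near (n := a + 1)]
  · push_cast; ring
  · push_cast; rw [show (a : ℝ) + 9 / 10 - (a + 1) = -(1 / 10) by ring]; norm_num

lemma HB_succ {m : ℕ} {a b : ℤ} {z : ℂ} (h : z ∈ HB m a) (h' : z ∈ HB (m + 1) b) :
    ∃ n : ℤ, ((m : ℤ) + 2) * a ≤ b + NN (m + 1) * n ∧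
      b + NN (m + 1) * n + 1 ≤ ((m : ℤ) + 2) * (a + 1) := by
  obtain ⟨t, x, rfl, h1, h2, h3, h4, h5⟩ := h
  obtain ⟨s, y, e, g1, g2, g3, g4, g5⟩ := h'
  have hp := pow3_pos m
  have hp' := pow3_pos (m + 1)
  obtain ⟨-, n, hn⟩ := polar_unique (show 0 < t by linarith) (show 0 ≤ s by linarith) e
  refine ⟨n, ?_⟩
  have hy : y = x + (-n : ℤ) := by rw [hn]; push_cast; ring
  rw [hy, DD_add_int, DD_succ] at g1 g2
  have m1 : EI m ((a : ℝ) + 1 / 10) ≤ EI m (DD m x) := (EI m).monotone h1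
  have m2 : EI m (DD m x) ≤ EI m ((a : ℝ) + 9 / 10) := (EI m).monotone h2
  rw [EI_lo] at m1
  rw [EI_hi] at m2
  push_cast at g1 g2
  have k1 : ((m : ℝ) + 2) * a < b + NN (m + 1) * n + 1 := by linarith
  have k2 : (b : ℝ) + NN (m + 1) * n < ((m : ℝ) + 2) * (a + 1) := by linarith
  have k3 : ((m : ℤ) + 2) * a < b + NN (m + 1) * n + 1 := by exact_mod_cast k1
  have k4 : b + NN (m + 1) * n < ((m : ℤ) + 2) * (a + 1) := by exact_mod_cast k2
  constructor <;> omega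

lemma HP_HB_succ {m : ℕ} {a b : ℤ} {z : ℂ} (h : z ∈ HP m b) (h' : z ∈ HB (m + 1) a) : False := by
  obtain ⟨t, x, rfl, h1, h2, h3⟩ := h
  obtain ⟨s, y, e, g1, g2, g3, g4, g5⟩ := h'
  have hp := pow3_pos (m + 1)
  have ha := abs_nonneg (DD (m + 1) x - b)
  have q1 := mul_nonneg hp.le (show 0 ≤ 2 / 5 + 12 * |DD (m + 1) x - b| by linarith)
  obtain ⟨-, n, hn⟩ := polar_unique (show 0 < t by linarith) (show 0 ≤ s by linarith) e
  rw [hn, DD_add_int] at h1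
  rw [abs_le] at h1
  have k1 : (a : ℝ) - b + NN (m + 1) * n < 0 := by linarith
  have k2 : (-1 : ℝ) < (a : ℝ) - b + NN (m + 1) * n := by linarith
  have k3 : a - b + NN (m + 1) * n < 0 := by exact_mod_cast k1
  have k4 : -1 < a - b + NN (m + 1) * n := by exact_mod_cast k2
  omega

/-- Radial scaling inside the interior. -/
lemma int_scale {A : Set ℂ} {z : ℂ} (h : z ∈ interior A) :
    (∃ s : ℝ, 0 < s ∧ s < 1 ∧ (s : ℂ) * z ∈ A) ∧ (∃ s : ℝ, 1 < s ∧ (s : ℂ) * z ∈ A) := by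
  have hA : A ∈ 𝓝 z := mem_interior_iff_mem_nhds.1 h
  have hc : Tendsto (fun s : ℝ => (s : ℂ) * z) (𝓝 1) (𝓝 z) := by
    have : Tendsto (fun s : ℝ => (s : ℂ) * z) (𝓝 1) (𝓝 (((1 : ℝ) : ℂ) * z)) := by
      apply Continuous.tendsto; fun_prop
    simpa using this
  have hev : ∀ᶠ s : ℝ in 𝓝 1, (s : ℂ) * z ∈ A := hc hA
  constructor
  · have h1 : ∀ᶠ s : ℝ in 𝓝[<] 1, (s : ℂ) * z ∈ A := hev.filter_mono nhdsWithin_le_nhds
    have h2 : ∀ᶠ s : ℝ in 𝓝[<] 1, s < 1 := self_mem_nhdsWithin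
    have h3 : ∀ᶠ s : ℝ in 𝓝[<] 1, 0 < s :=
      (eventually_gt_nhds (by norm_num : (0 : ℝ) < 1)).filter_mono nhdsWithin_le_nhds
    obtain ⟨s, a, b, c⟩ := (h1.and (h2.and h3)).exists
    exact ⟨s, c, b, a⟩
  · have h1 : ∀ᶠ s : ℝ in 𝓝[>] 1, (s : ℂ) * z ∈ A := hev.filter_mono nhdsWithin_le_nhds
    have h2 : ∀ᶠ s : ℝ in 𝓝[>] 1, 1 < s := self_mem_nhdsWithin
    obtain ⟨s, a, b⟩ := (h1.and h2).exists
    exact ⟨s, b, a⟩

lemma int_norm {A : Set ℂ} {z : ℂ} {c d : ℝ} (hc : 0 < c) (hA : ∀ w ∈ A, c ≤ ‖w‖ ∧ ‖w‖ ≤ d)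
    (h : z ∈ interior A) : c < ‖z‖ ∧ ‖z‖ < d := by
  obtain ⟨⟨s, s0, s1, hs⟩, ⟨r, r1, hr⟩⟩ := int_scale h
  have b := hA z (interior_subset h)
  have b1 := hA _ hs
  have b2 := hA _ hr
  rw [norm_mul, Complex.norm_real, Real.norm_of_nonneg s0.le] at b1
  rw [norm_mul, Complex.norm_real, Real.norm_of_nonneg (by linarith)] at b2
  constructor <;> nlinarith [b1.1, b2.2, b.1]

lemma HP_HQ {m : ℕ} {a b : ℤ} (hb : 2 ≤ b % ((m : ℤ) + 2)) {t x : ℝ} (ht : 0 < t)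
    (hx : |DD (m + 1) x - b| ≤ 1 / 20) (h' : (t : ℂ) * E x ∈ HQ m a) :
    t ≤ 1 + 3 ^ (m + 1) * (2 / 5 + 12 * |DD (m + 1) x - b|) := by
  obtain ⟨s, y, e, g1, g2, g3, g4, g5, g6⟩ := h'
  have hp := pow3_pos m
  obtain ⟨e1, n, hn⟩ := polar_unique ht (show 0 ≤ s by linarith) e
  have hy : y = x + (-n : ℤ) := by rw [hn]; push_cast; ring
  rw [hy, DD_add_int, NN_succ] at g6
  have h7 := tn_add m (DD (m + 1) x) (NN m * -n)
  push_cast at h7 g6
  rw [mul_assoc, h7, tn_pocket hb hx] at g6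
  rw [e1]
  linarith

lemma HP_polar {m : ℕ} {b : ℤ} {t x : ℝ} (ht : 0 < t)
    (hx : |DD (m + 1) x - b| ≤ 1 / 20) (h' : (t : ℂ) * E x ∈ HP m b) :
    1 + 3 ^ (m + 1) * (2 / 5 + 12 * |DD (m + 1) x - b|) ≤ t := by
  obtain ⟨s, y, e, g1, g2, g3⟩ := h'
  have hp := pow3_pos (m + 1)
  have hb := abs_nonneg (DD (m + 1) y - b)
  have q2 := mul_nonneg hp.le (show 0 ≤ 2 / 5 + 12 * |DD (m + 1) y - b| by linarith)
  obtain ⟨e1, n, hn⟩ := polar_unique ht (show 0 ≤ s by linarith) e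
  rw [hn, DD_add_int] at hx ⊢
  rw [abs_le] at g1 hx
  have hN : (1 : ℤ) ≤ NN (m + 1) := by exact_mod_cast NN_pos (m + 1)
  have hn0 : n = 0 := by
    have k1 : (NN (m + 1) : ℝ) * n < 1 := by linarith
    have k2 : (-1 : ℝ) < (NN (m + 1) : ℝ) * n := by linarith
    have k3 : (NN (m + 1) : ℤ) * n < 1 := by exact_mod_cast k1
    have k4 : -1 < (NN (m + 1) : ℤ) * n := by exact_mod_cast k2
    have k5 : (NN (m + 1) : ℤ) * n = 0 := by omega
    rcases mul_eq_zero.1 k5 with h | h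
    · omega
    · exact h
  rw [hn0, e1]
  simpa using g2

lemma int_HQ_HP {m : ℕ} {a b : ℤ} (hb : 2 ≤ b % ((m : ℤ) + 2)) {z : ℂ}
    (h : z ∈ interior (HQ m a)) (h' : z ∈ HP m b) : False := by
  obtain ⟨-, ⟨s, s1, hs⟩⟩ := int_scale h
  obtain ⟨t, x, rfl, h1, h2, h3⟩ := h'
  have hp := pow3_pos (m + 1)
  have ha := abs_nonneg (DD (m + 1) x - b)
  have q1 := mul_nonneg hp.le (show 0 ≤ 2 / 5 + 12 * |DD (m + 1) x - b| by linarith)
  have ht : 0 < t := by linarith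
  have e : (s : ℂ) * ((t : ℂ) * E x) = ((s * t : ℝ) : ℂ) * E x := by push_cast; ring
  rw [e] at hs
  have h4 := HP_HQ hb (show 0 < s * t by nlinarith) h1 hs
  nlinarith

lemma int_HP_HQ {m : ℕ} {a b : ℤ} (hb : 2 ≤ b % ((m : ℤ) + 2)) {z : ℂ}
    (h : z ∈ interior (HP m b)) (h' : z ∈ HQ m a) : False := by
  obtain ⟨⟨s, s0, s1, hs⟩, -⟩ := int_scale h
  obtain ⟨t, x, rfl, h1, h2, h3⟩ := interior_subset h
  have hp := pow3_pos (m + 1)
  have ha := abs_nonneg (DD (m + 1) x - b)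
  have q1 := mul_nonneg hp.le (show 0 ≤ 2 / 5 + 12 * |DD (m + 1) x - b| by linarith)
  have ht : 0 < t := by linarith
  have e : (s : ℂ) * ((t : ℂ) * E x) = ((s * t : ℝ) : ℂ) * E x := by push_cast; ring
  rw [e] at hs
  have h4 := HP_polar (show 0 < s * t by positivity) h1 hs
  have h5 := HP_HQ hb ht h1 h'
  nlinarith

end

end Pool.Agent.W2helper30.QM
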