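import Pool.Agent.W2helper30.QM4

/-!
The polygons are discs, they meet in arcs, and the punctures are interior points.
-/

namespace Pool.Agent.W2helper30.QM

open Set Filter Topology
open Pool.Agent.V11131.Mod (E ang norm_E E_ne E_add E_zero E_int E_add_int E_eq E_cont polar
  norm_polar ang_polar ang_cont polar_unique IsDisc IsArc Far)

noncomputable section

/-- The inner side of the sector number `a` of level `m`. -/
def Lo (m : ℕ) (a : ℤ) : Set ℂ :=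
  {z | ∃ x : ℝ, z = ((1 + 3 ^ m : ℝ) : ℂ) * E x ∧ (a : ℝ) + 1 / 10 ≤ DD m x ∧
    DD m x ≤ a + 9 / 10}

/-- The inner side of a pocket. -/
def PA (m : ℕ) (b : ℤ) : Set ℂ :=
  {z | ∃ x : ℝ, z = ((1 + 3 ^ (m + 1) * (2 / 5 + 12 * |DD (m + 1) x - b|) : ℝ) : ℂ) * E x ∧
    |DD (m + 1) x - b| ≤ 1 / 20}

/-- upper boundary -/
def uq (m : ℕ) (x : ℝ) : ℝ :=
  1 + min (3 ^ (m + 1) / max 1 (3 ^ (m + 1) * ps x)) (3 ^ (m + 1) * tn m (DD (m + 1) x))

lemma uq_cont (m : ℕ) : Continuous (uq m) := by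
  unfold uq
  apply continuous_const.add
  apply Continuous.min
  · apply Continuous.div continuous_const
    · exact continuous_const.max (continuous_const.mul ps_cont)
    · intro x
      exact (lt_max_of_lt_left one_pos : (0 : ℝ) < max 1 (3 ^ (m + 1) * ps x)).ne'
  · exact continuous_const.mul ((tn_cont m).comp (DD (m + 1)).continuous)

lemma le_uq {m : ℕ} {t x : ℝ} (ht : 1 ≤ t) :
    t ≤ uq m x ↔ t ≤ 1 + 3 ^ (m + 1) ∧ (t - 1) * ps x ≤ 1 ∧
      t - 1 ≤ 3 ^ (m + 1) * tn m (DD (m + 1) x) := by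
  have h0 : (0 : ℝ) < max 1 (3 ^ (m + 1) * ps x) := lt_max_of_lt_left one_pos
  have hc := pow3_pos (m + 1)
  have key : t - 1 ≤ 3 ^ (m + 1) / max 1 (3 ^ (m + 1) * ps x) ↔
      t ≤ 1 + 3 ^ (m + 1) ∧ (t - 1) * ps x ≤ 1 := by
    rw [le_div_iff₀ h0]
    constructor
    · intro h
      have h1 : (t - 1) * 1 ≤ (t - 1) * max 1 (3 ^ (m + 1) * ps x) :=
        mul_le_mul_of_nonneg_left (le_max_left _ _) (by linarith)
      have h2 : (t - 1) * (3 ^ (m + 1) * ps x) ≤ (t - 1) * max 1 (3 ^ (m + 1) * ps x) :=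
        mul_le_mul_of_nonneg_left (le_max_right _ _) (by linarith)
      refine ⟨by linarith, ?_⟩
      have h3 : 3 ^ (m + 1) * ((t - 1) * ps x) ≤ 3 ^ (m + 1) * 1 := by linarith
      exact le_of_mul_le_mul_left h3 hc
    · rintro ⟨h1, h2⟩
      rcases max_choice (1 : ℝ) (3 ^ (m + 1) * ps x) with h | h
      · rw [h]; linarith
      · rw [h]
        have : 3 ^ (m + 1) * ((t - 1) * ps x) ≤ 3 ^ (m + 1) * 1 :=
          mul_le_mul_of_nonneg_left h2 hc.le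
        linarith
  unfold uq
  rw [← and_assoc, ← key, ← le_min_iff]
  constructor <;> intro h <;> linarith

/-- left end -/
def al (m : ℕ) (a : ℤ) : ℝ := (DD m).symm (a + 1 / 10)
/-- right end -/
def be (m : ℕ) (a : ℤ) : ℝ := (DD m).symm (a + 9 / 10)

lemma D_al (m : ℕ) (a : ℤ) : DD m (al m a) = a + 1 / 10 := (DD m).apply_symm_apply _
lemma D_be (m : ℕ) (a : ℤ) : DD m (be m a) = a + 9 / 10 := (DD m).apply_symm_apply _

lemma al_le {m : ℕ} {a : ℤ} {x : ℝ} : al m a ≤ x ↔ (a : ℝ) + 1 / 10 ≤ DD m x :=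
  (DD m).symm_apply_le

lemma le_be {m : ℕ} {a : ℤ} {x : ℝ} : x ≤ be m a ↔ DD m x ≤ (a : ℝ) + 9 / 10 :=
  (DD m).le_symm_apply

lemma NN_ge (m : ℕ) : (1 : ℝ) ≤ NN m := by exact_mod_cast NN_pos m

lemma symm_lt {m : ℕ} {y z : ℝ} (h : z < y + 1) : (DD m).symm z - (DD m).symm y < 1 := by
  have h1 : (DD m).symm z < (DD m).symm y + 1 := by
    rw [← (DD m).lt_iff_lt]
    have h1 := DD_add_int m ((DD m).symm y) 1
    push_cast at h1
    have e1 : DD m ((DD m).symm z) = z := (DD m).apply_symm_apply _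
    have e2 : DD m ((DD m).symm y) = y := (DD m).apply_symm_apply _
    rw [h1, e1, e2]
    have := NN_ge m
    linarith
  linarith

lemma al_lt_be (m : ℕ) (a : ℤ) : al m a < be m a := by
  apply (DD m).symm.strictMono
  linarith

lemma be_sub_al (m : ℕ) (a : ℤ) : be m a - al m a < 1 := symm_lt (by linarith)

lemma HQ_eq (m : ℕ) (a : ℤ) : HQ m a = {z | ∃ t x : ℝ, z = t * E x ∧ al m a ≤ x ∧ x ≤ be m a ∧
    1 + 3 ^ m ≤ t ∧ t ≤ uq m x} := by
  have hp := pow3_pos m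
  ext z
  constructor
  · rintro ⟨t, x, rfl, h1, h2, h3, h4⟩
    exact ⟨t, x, rfl, al_le.2 h1, le_be.2 h2, h3, (le_uq (by linarith)).2 h4⟩
  · rintro ⟨t, x, rfl, h1, h2, h3, h4⟩
    have h5 := (le_uq (by linarith)).1 h4
    exact ⟨t, x, rfl, al_le.1 h1, le_be.1 h2, h3, h5⟩

lemma uq_end {m : ℕ} {x : ℝ} {n : ℤ} (hf : Far (DD m x)) (h : |DD m x - n| ≤ 1 / 10) :
    uq m x = 1 + 3 ^ m := by
  have h1 := ps_far hf
  rw [Ps_near h] at h1
  have hc := pow3_pos m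
  have h2 : (3 : ℝ) ^ (m + 1) * ps x = 3 := by rw [pow_succ]; linarith
  have h3 := near_succ (n := n) (x := x) (m := m) (by linarith)
  have h4 : tn m (DD (m + 1) x) = 1 := by
    apply tn_other (b := ((m : ℤ) + 2) * n)
    · rw [Int.mul_emod_right]; norm_num
    · rw [h3]; linarith [abs_nonneg (DD m x - n)]
  unfold uq
  rw [h2, h4, max_eq_right (by norm_num), mul_one, min_eq_left]
  · rw [pow_succ]; ring
  · apply div_le_self (pow3_pos _).le (by norm_num)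

lemma HQ_disc (m : ℕ) (a : ℤ) : IsDisc (HQ m a) := by
  rw [HQ_eq]
  have hp := pow3_pos m
  apply lens_disc (al_lt_be m a) (be_sub_al m a) (l := fun _ => 1 + 3 ^ m) continuous_const
    (uq_cont m)
  · intro x _ _; linarith
  · apply uq_end (n := a)
    · rw [D_al]; exact far_W (a := a) le_rfl (by linarith)
    · rw [D_al]; rw [show (a : ℝ) + 1 / 10 - a = 1 / 10 by ring]; norm_num
  · apply uq_end (n := a + 1)
    · rw [D_be]; exact far_W (a := a) (by linarith) le_rfl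
    · rw [D_be]; push_cast; rw [show (a : ℝ) + 9 / 10 - (a + 1) = -(1 / 10) by ring]; norm_num
  · intro x h1 h2
    have h3 : (a : ℝ) + 1 / 10 < DD m x := by
      rw [← D_al m a]; exact (DD m).strictMono h1
    have h4 : DD m x < (a : ℝ) + 9 / 10 := by
      rw [← D_be m a]; exact (DD m).strictMono h2
    have h5 := ps_far (far_W h3.le h4.le)
    have h6 := Ps_lt_one (far_W' h3 h4)
    have h0 : (0 : ℝ) < max 1 (3 ^ (m + 1) * ps x) := lt_max_of_lt_left one_pos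
    have h7 : max 1 (3 ^ (m + 1) * ps x) < 3 := by
      apply max_lt (by norm_num)
      rw [pow_succ, mul_right_comm, h5]
      linarith
    have h8 := tn_ge m (DD (m + 1) x)
    show 1 + 3 ^ m < uq m x
    unfold uq
    have h9 : (3 : ℝ) ^ m < min (3 ^ (m + 1) / max 1 (3 ^ (m + 1) * ps x))
        (3 ^ (m + 1) * tn m (DD (m + 1) x)) := by
      apply lt_min
      · rw [lt_div_iff₀ h0]
        calc (3 : ℝ) ^ m * max 1 (3 ^ (m + 1) * ps x) < 3 ^ m * 3 :=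
              mul_lt_mul_of_pos_left h7 hp
          _ = 3 ^ (m + 1) := by rw [pow_succ]
      · rw [pow_succ, mul_assoc]
        have : (3 : ℝ) ^ m * 1 < 3 ^ m * (3 * tn m (DD (m + 1) x)) :=
          mul_lt_mul_of_pos_left (by linarith) hp
        linarith
    linarith

/-- left end of a pocket -/
def al' (m : ℕ) (b : ℤ) : ℝ := (DD (m + 1)).symm (b - 1 / 20)
/-- right end of a pocket -/
def be' (m : ℕ) (b : ℤ) : ℝ := (DD (m + 1)).symm (b + 1 / 20)

lemma D_al' (m : ℕ) (b : ℤ) : DD (m + 1) (al' m b) = b - 1 / 20 := (DD (m + 1)).apply_symm_apply _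
lemma D_be' (m : ℕ) (b : ℤ) : DD (m + 1) (be' m b) = b + 1 / 20 := (DD (m + 1)).apply_symm_apply _

lemma al'_lt (m : ℕ) (b : ℤ) : al' m b < be' m b := by
  apply (DD (m + 1)).symm.strictMono
  linarith

lemma be'_sub (m : ℕ) (b : ℤ) : be' m b - al' m b < 1 := symm_lt (by linarith)

lemma pocket_iff {m : ℕ} {b : ℤ} {x : ℝ} :
    |DD (m + 1) x - b| ≤ 1 / 20 ↔ al' m b ≤ x ∧ x ≤ be' m b := by
  rw [show al' m b ≤ x ↔ (b : ℝ) - 1 / 20 ≤ DD (m + 1) x from (DD (m + 1)).symm_apply_le,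
    show x ≤ be' m b ↔ DD (m + 1) x ≤ (b : ℝ) + 1 / 20 from (DD (m + 1)).le_symm_apply, abs_le]
  constructor <;> rintro ⟨h1, h2⟩ <;> constructor <;> linarith

/-- lower boundary of a pocket -/
def lp (m : ℕ) (b : ℤ) (x : ℝ) : ℝ := 1 + 3 ^ (m + 1) * (2 / 5 + 12 * |DD (m + 1) x - b|)

lemma lp_cont (m : ℕ) (b : ℤ) : Continuous (lp m b) := by
  unfold lp
  apply continuous_const.add
  apply continuous_const.mul
  apply continuous_const.add
  apply continuous_const.mul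
  exact ((DD (m + 1)).continuous.sub continuous_const).abs

lemma lp_pos (m : ℕ) (b : ℤ) (x : ℝ) : 0 < lp m b x := by
  unfold lp
  have := pow3_pos (m + 1)
  positivity

lemma HP_disc (m : ℕ) (b : ℤ) : IsDisc (HP m b) := by
  have e : HP m b = {z | ∃ t x : ℝ, z = t * E x ∧ al' m b ≤ x ∧ x ≤ be' m b ∧ lp m b x ≤ t ∧
      t ≤ 1 + 3 ^ (m + 1)} := by
    ext z
    constructor
    · rintro ⟨t, x, rfl, h1, h2, h3⟩
      have := pocket_iff.1 h1
      exact ⟨t, x, rfl, this.1, this.2, h2, h3⟩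
    · rintro ⟨t, x, rfl, h1, h2, h3, h4⟩
      exact ⟨t, x, rfl, pocket_iff.2 ⟨h1, h2⟩, h3, h4⟩
  rw [e]
  apply lens_disc (al'_lt m b) (be'_sub m b) (u := fun _ => 1 + 3 ^ (m + 1)) (lp_cont m b)
    continuous_const
  · intro x _ _; exact lp_pos m b x
  · unfold lp
    rw [D_al', show (b : ℝ) - 1 / 20 - b = -(1 / 20) by ring, abs_neg,
      abs_of_pos (by norm_num : (0 : ℝ) < 1 / 20)]
    ring
  · unfold lp
    rw [D_be', show (b : ℝ) + 1 / 20 - b = 1 / 20 by ring,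
      abs_of_pos (by norm_num : (0 : ℝ) < 1 / 20)]
    ring
  · intro x h1 h2
    have h3 : (b : ℝ) - 1 / 20 < DD (m + 1) x := by
      rw [← D_al' m b]; exact (DD (m + 1)).strictMono h1
    have h4 : DD (m + 1) x < (b : ℝ) + 1 / 20 := by
      rw [← D_be' m b]; exact (DD (m + 1)).strictMono h2
    have h5 : |DD (m + 1) x - b| < 1 / 20 := by
      rw [abs_lt]; constructor <;> linarith
    show lp m b x < 1 + 3 ^ (m + 1)
    unfold lp
    have hp := pow3_pos (m + 1)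
    have := mul_lt_mul_of_pos_left (show 2 / 5 + 12 * |DD (m + 1) x - b| < 1 by linarith) hp
    linarith

/-- The puncture at the gap number `b` of level `m + 1`. -/
def gp (m : ℕ) (b : ℤ) : ℂ :=
  ((1 + 3 ^ (m + 1) / 2 : ℝ) : ℂ) * E ((DD (m + 1)).symm b)

lemma D_gp (m : ℕ) (b : ℤ) : DD (m + 1) ((DD (m + 1)).symm (b : ℝ)) = b :=
  (DD (m + 1)).apply_symm_apply _

lemma gp_HP (m : ℕ) (b : ℤ) : gp m b ∈ interior (HP m b) := by
  rw [mem_interior_iff_mem_nhds]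
  set x0 := (DD (m + 1)).symm (b : ℝ) with hx0
  set t0 : ℝ := 1 + 3 ^ (m + 1) / 2 with ht0
  have hp := pow3_pos (m + 1)
  have ht0p : 0 < t0 := by positivity
  have e0 : DD (m + 1) x0 = b := D_gp m b
  have c1 : ContinuousAt (fun a : ℝ × ℝ => |DD (m + 1) a.2 - b|) (t0, x0) := by
    apply Continuous.continuousAt
    exact (((DD (m + 1)).continuous.comp continuous_snd).sub continuous_const).abs
  have c2 : ContinuousAt (fun a : ℝ × ℝ =>
      a.1 - (1 + 3 ^ (m + 1) * (2 / 5 + 12 * |DD (m + 1) a.2 - b|))) (t0, x0) := by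
    apply Continuous.continuousAt
    exact continuous_fst.sub ((lp_cont m b).comp continuous_snd)
  have c3 : ContinuousAt (fun a : ℝ × ℝ => a.1) (t0, x0) := continuous_fst.continuousAt
  have hev : ∀ᶠ a : ℝ × ℝ in 𝓝 (t0, x0), |DD (m + 1) a.2 - b| ≤ 1 / 20 ∧
      1 + 3 ^ (m + 1) * (2 / 5 + 12 * |DD (m + 1) a.2 - b|) ≤ a.1 ∧
        a.1 ≤ 1 + 3 ^ (m + 1) := by
    filter_upwards [c1.eventually_lt_const (u := (1 : ℝ) / 20)
      (by show |DD (m + 1) x0 - b| < _; rw [e0, sub_self, abs_zero]; norm_num),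
      c2.eventually_const_lt (u := (0 : ℝ))
        (by
          show _ < t0 - (1 + 3 ^ (m + 1) * (2 / 5 + 12 * |DD (m + 1) x0 - b|))
          rw [e0, sub_self, abs_zero, ht0]
          linarith),
      c3.eventually_lt_const (u := (1 : ℝ) + 3 ^ (m + 1)) (by show t0 < _; linarith)]
      with a h1 h2 h3
    exact ⟨h1.le, by linarith, h3.le⟩
  exact polar_nhds ht0p hev

lemma gp_HQ (m : ℕ) (a : ℤ) : gp m (((m : ℤ) + 2) * a + 1) ∈ interior (HQ m a) := by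
  rw [mem_interior_iff_mem_nhds]
  set b : ℤ := ((m : ℤ) + 2) * a + 1 with hb
  have hb1 : b % ((m : ℤ) + 2) = 1 := by
    rw [hb, add_comm, Int.add_mul_emod_self_left]
    apply Int.emod_eq_of_lt (by norm_num)
    have : (0 : ℤ) ≤ m := by positivity
    linarith
  have hb2 : b / ((m : ℤ) + 2) = a := by
    have hm : (0 : ℤ) < (m : ℤ) + 2 := by positivity
    rw [hb, add_comm, Int.add_mul_ediv_left _ _ hm.ne', Int.ediv_eq_zero_of_lt (by norm_num)
      (by have : (0 : ℤ) ≤ m := by positivity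
          linarith), zero_add]
  set x0 := (DD (m + 1)).symm (b : ℝ) with hx0
  set t0 : ℝ := 1 + 3 ^ (m + 1) / 2 with ht0
  have hp := pow3_pos m
  have hp1 : (3 : ℝ) ^ (m + 1) = 3 * 3 ^ m := by rw [pow_succ]; ring
  have ht0p : 0 < t0 := by positivity
  have e0 : DD (m + 1) x0 = b := D_gp m b
  have hne : b % ((m : ℤ) + 2) ≠ 0 := by rw [hb1]; norm_num
  have hnear : |DD (m + 1) x0 - b| ≤ 1 / 10 := by rw [e0, sub_self, abs_zero]; norm_num
  have g1 := gap_sector hne hnear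
  have g2 := ps_gap hne hnear
  rw [hb2] at g1
  have c1 : ContinuousAt (fun p : ℝ × ℝ => DD m p.2) (t0, x0) :=
    ((DD m).continuous.comp continuous_snd).continuousAt
  have c2 : ContinuousAt (fun p : ℝ × ℝ => (p.1 - 1) * ps p.2) (t0, x0) := by
    apply Continuous.continuousAt
    exact (continuous_fst.sub continuous_const).mul (ps_cont.comp continuous_snd)
  have c3 : ContinuousAt (fun p : ℝ × ℝ => p.1) (t0, x0) := continuous_fst.continuousAt
  have c4 : ContinuousAt (fun p : ℝ × ℝ => p.1 - 1 - 3 ^ (m + 1) * tn m (DD (m + 1) p.2))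
      (t0, x0) := by
    apply Continuous.continuousAt
    exact (continuous_fst.sub continuous_const).sub (continuous_const.mul
      ((tn_cont m).comp ((DD (m + 1)).continuous.comp continuous_snd)))
  have hev : ∀ᶠ p : ℝ × ℝ in 𝓝 (t0, x0), (a : ℝ) + 1 / 10 ≤ DD m p.2 ∧ DD m p.2 ≤ a + 9 / 10 ∧
      1 + 3 ^ m ≤ p.1 ∧ p.1 ≤ 1 + 3 ^ (m + 1) ∧ (p.1 - 1) * ps p.2 ≤ 1 ∧
        p.1 - 1 ≤ 3 ^ (m + 1) * tn m (DD (m + 1) p.2) := by
    filter_upwards [c1.eventually_const_lt (u := (a : ℝ) + 1 / 10)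
        (by show _ < DD m x0; linarith [g1.1]),
      c1.eventually_lt_const (u := (a : ℝ) + 9 / 10) (by show DD m x0 < _; linarith [g1.2]),
      c3.eventually_const_lt (u := (1 : ℝ) + 3 ^ m)
        (by show _ < t0; rw [ht0, hp1]; linarith),
      c3.eventually_lt_const (u := (1 : ℝ) + 3 ^ (m + 1))
        (by show t0 < _; rw [ht0, hp1]; linarith),
      c2.eventually_lt_const (u := (1 : ℝ))
        (by
          show (t0 - 1) * ps x0 < 1
          rw [ht0]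
          have : (1 + (3 : ℝ) ^ (m + 1) / 2 - 1) * ps x0 = 3 ^ (m + 1) * ps x0 / 2 := by ring
          rw [this, g2]; norm_num),
      c4.eventually_lt_const (u := (0 : ℝ))
        (by
          show t0 - 1 - 3 ^ (m + 1) * tn m (DD (m + 1) x0) < 0
          rw [e0, tn_other (b := b) (by rw [hb1]; norm_num) (by simp), ht0, hp1]
          linarith)] with p h1 h2 h3 h4 h5 h6
    exact ⟨h1.le, h2.le, h3.le, h4.le, h5.le, by linarith⟩
  exact polar_nhds ht0p hev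

lemma Lo_arc (m : ℕ) (a : ℤ) : IsArc (Lo m a) := by
  have e : Lo m a = {z | ∃ x : ℝ, z = (((fun _ => 1 + 3 ^ m : ℝ → ℝ) x : ℝ) : ℂ) * E x ∧
      al m a ≤ x ∧ x ≤ be m a} := by
    ext z
    constructor
    · rintro ⟨x, rfl, h1, h2⟩
      exact ⟨x, rfl, al_le.2 h1, le_be.2 h2⟩
    · rintro ⟨x, rfl, h1, h2⟩
      exact ⟨x, rfl, al_le.1 h1, le_be.1 h2⟩
  rw [e]
  apply graph_arc (al_lt_be m a) (be_sub_al m a) continuous_const
  intro x _ _
  have := pow3_pos m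
  show (0 : ℝ) < 1 + 3 ^ m
  linarith

lemma PA_arc (m : ℕ) (b : ℤ) : IsArc (PA m b) := by
  have e : PA m b = {z | ∃ x : ℝ, z = ((lp m b x : ℝ) : ℂ) * E x ∧
      al' m b ≤ x ∧ x ≤ be' m b} := by
    ext z
    constructor
    · rintro ⟨x, rfl, h1⟩
      have := pocket_iff.1 h1
      exact ⟨x, rfl, this.1, this.2⟩
    · rintro ⟨x, rfl, h1, h2⟩
      exact ⟨x, rfl, pocket_iff.2 ⟨h1, h2⟩⟩
  rw [e]
  exact graph_arc (al'_lt m b) (be'_sub m b) (lp_cont m b) (fun x _ _ => lp_pos m b x)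

lemma Lo_norm {m : ℕ} {a : ℤ} {z : ℂ} (h : z ∈ Lo m a) : ‖z‖ = 1 + 3 ^ m := by
  obtain ⟨x, rfl, h1, h2⟩ := h
  have := pow3_pos m
  exact norm_polar (by linarith) x

lemma mem_Lo {m : ℕ} {a : ℤ} {z : ℂ} (h : z ∈ HB m a) (h' : ‖z‖ ≤ 1 + 3 ^ m) : z ∈ Lo m a := by
  obtain ⟨t, x, rfl, h1, h2, h3, h4, h5⟩ := h
  have hp := pow3_pos m
  rw [norm_polar (by linarith)] at h'
  have : t = 1 + 3 ^ m := le_antisymm h' h3
  exact ⟨x, by rw [this], h1, h2⟩

lemma Lo_sub_HQ {m : ℕ} {a : ℤ} : Lo m a ⊆ HQ m a := by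
  rintro z ⟨x, rfl, h1, h2⟩
  have hp := pow3_pos m
  have hp1 : (3 : ℝ) ^ (m + 1) = 3 * 3 ^ m := by rw [pow_succ]; ring
  have h3 := tn_ge m (DD (m + 1) x)
  have h4 := ps_far (far_W h1 h2)
  have h5 := Ps_le_one m x
  refine ⟨1 + 3 ^ m, x, rfl, h1, h2, le_rfl, ?_, ?_, ?_⟩
  · rw [hp1]; linarith
  · rw [add_sub_cancel_left]; linarith
  · rw [add_sub_cancel_left, hp1]
    nlinarith

lemma Lo_sub_parent {m : ℕ} {a b : ℤ} (h1 : ((m : ℤ) + 2) * a ≤ b)
    (h2 : b + 1 ≤ ((m : ℤ) + 2) * (a + 1)) : Lo (m + 1) b ⊆ HQ m a := by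
  rintro z ⟨x, rfl, g1, g2⟩
  have b1 : ((m : ℝ) + 2) * a ≤ b := by exact_mod_cast h1
  have b2 : (b : ℝ) + 1 ≤ ((m : ℝ) + 2) * (a + 1) := by exact_mod_cast h2
  have hp := pow3_pos m
  have hp1 : (3 : ℝ) ^ (m + 1) = 3 * 3 ^ m := by rw [pow_succ]; ring
  have h4 := ps_far (far_W g1 g2)
  have h5 := Ps_le_one (m + 1) x
  have h6 : tn m (DD (m + 1) x) = 1 := by
    apply tn_far
    intro n
    have := far_W g1 g2 n
    linarith
  refine ⟨1 + 3 ^ (m + 1), x, rfl, ?_, ?_, ?_, le_rfl, ?_, ?_⟩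
  · rw [← (EI m).le_iff_le, EI_lo, ← DD_succ]; linarith
  · rw [← (EI m).le_iff_le, EI_hi, ← DD_succ]; linarith
  · rw [hp1]; linarith
  · rw [add_sub_cancel_left]; linarith
  · rw [add_sub_cancel_left, h6]; linarith

lemma HQ_inter {m : ℕ} {a b : ℤ} (h1 : ((m : ℤ) + 2) * a ≤ b)
    (h2 : b + 1 ≤ ((m : ℤ) + 2) * (a + 1)) : HQ (m + 1) b ∩ HQ m a = Lo (m + 1) b := by
  apply Set.Subset.antisymm
  · rintro z ⟨g1, g2⟩
    exact mem_Lo (HQ_sub g1) (HB_norm (HQ_sub g2)).2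
  · intro z hz
    exact ⟨Lo_sub_HQ hz, Lo_sub_parent h1 h2 hz⟩

lemma HP_inter {m : ℕ} {b : ℤ} (hb : 2 ≤ b % ((m : ℤ) + 2)) :
    HP m b ∩ HQ m (b / ((m : ℤ) + 2)) = PA m b := by
  have hp := pow3_pos m
  have hp1 : (3 : ℝ) ^ (m + 1) = 3 * 3 ^ m := by rw [pow_succ]; ring
  apply Set.Subset.antisymm
  · rintro z ⟨⟨t, x, rfl, h1, h2, h3⟩, g2⟩
    have h0 := lp_pos m b x
    unfold lp at h0
    have h4 := HP_HQ hb (by linarith) h1 g2
    refine ⟨x, ?_, h1⟩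
    rw [le_antisymm h4 h2]
  · rintro z ⟨x, rfl, h1⟩
    have h1' : |DD (m + 1) x - b| ≤ 1 / 10 := by linarith
    have g1 := gap_sector (ne_zero_of_two hb) h1'
    have g2 := ps_gap (ne_zero_of_two hb) h1'
    have h0 := abs_nonneg (DD (m + 1) x - b)
    have k1 : (3 : ℝ) ^ (m + 1) * (2 / 5 + 12 * |DD (m + 1) x - b|) ≤ 3 ^ (m + 1) * 1 :=
      mul_le_mul_of_nonneg_left (by linarith) (pow3_pos (m + 1)).le
    have k2 : (3 : ℝ) ^ (m + 1) * (2 / 5) ≤ 3 ^ (m + 1) * (2 / 5 + 12 * |DD (m + 1) x - b|) :=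
      mul_le_mul_of_nonneg_left (by linarith) (pow3_pos (m + 1)).le
    refine ⟨⟨_, x, rfl, h1, le_rfl, by linarith⟩, _, x, rfl, by linarith [g1.1],
      by linarith [g1.2], ?_, by linarith, ?_, ?_⟩
    · have : (3 : ℝ) ^ (m + 1) * (2 / 5) = 3 ^ m * (6 / 5) := by rw [hp1]; ring
      linarith
    · rw [add_sub_cancel_left]
      have := mul_le_mul_of_nonneg_right k1 (ps_nonneg x)
      linarith
    · rw [add_sub_cancel_left, tn_pocket hb h1]

/-! Central polygons -/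

/-- Boundary of the first central polygon. -/
def FC (x : ℝ) : ℝ := min 2 (1 / 5 + 36 * min (Int.fract x) (1 - Int.fract x))

lemma FC_cont : Continuous FC := by
  have : Continuous ((fun y : ℝ => min 2 (1 / 5 + 36 * min y (1 - y))) ∘ Int.fract) := by
    apply ContinuousOn.comp_fract''
    · fun_prop
    · norm_num
  exact this

lemma FC_add_int (x : ℝ) (n : ℤ) : FC (x + n) = FC x := by
  unfold FC
  rw [Int.fract_add_intCast]

lemma FC_pos (x : ℝ) : 0 < FC x := by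
  unfold FC
  have h0 := Int.fract_nonneg x
  have h1 := Int.fract_lt_one x
  have h2 : 0 ≤ min (Int.fract x) (1 - Int.fract x) := le_min h0 (by linarith)
  apply lt_min <;> linarith

lemma FC_le (x : ℝ) : FC x ≤ 2 := min_le_left _ _

lemma FC_near {x : ℝ} (h : |x| ≤ 1 / 20) : FC x = 1 / 5 + 36 * |x| := by
  unfold FC
  rw [abs_le] at h
  by_cases hx : 0 ≤ x
  · have hfr : Int.fract x = x := by
      rw [Int.fract_eq_self]; constructor <;> linarith
    rw [hfr, min_eq_left (a := x) (by linarith), abs_of_nonneg hx, min_eq_right (by linarith)]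
  · push Not at hx
    have hfr : Int.fract x = x + 1 := by
      rw [Int.fract_eq_iff]
      refine ⟨by linarith, by linarith, -1, by push_cast; ring⟩
    rw [hfr, min_eq_right (a := x + 1) (by linarith), abs_of_neg hx, min_eq_right (by linarith)]
    ring

lemma FC_far {x : ℝ} (h : ∀ n : ℤ, 1 / 20 ≤ |x - n|) : FC x = 2 := by
  unfold FC
  apply min_eq_left
  have h1 := h ⌊x⌋
  have h2 := h (⌊x⌋ + 1)
  have h3 := Int.floor_add_fract x
  have h4 := Int.fract_nonneg x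
  have h5 := Int.fract_lt_one x
  push_cast at h2
  rw [show x - ⌊x⌋ = Int.fract x by linarith, abs_of_nonneg h4] at h1
  rw [show x - (⌊x⌋ + 1) = -(1 - Int.fract x) by linarith, abs_neg,
        abs_of_nonneg (by linarith)] at h2
  have h6 := le_min h1 h2
  linarith

/-- The first central polygon. -/
def C2 : Set ℂ := {z | ‖z‖ ≤ FC (ang z)}

/-- The second central polygon. -/
def C1 : Set ℂ := {z | ∃ t x : ℝ, z = t * E x ∧ |x| ≤ 1 / 20 ∧ 1 / 5 + 36 * |x| ≤ t ∧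
  t ≤ 1 + 36 * |x| ∧ t ≤ 2}

/-- The third central polygon. -/
def C0 : Set ℂ := {z | ∃ t x : ℝ, z = t * E x ∧ |x| ≤ 1 / 36 ∧ 1 + 36 * |x| ≤ t ∧ t ≤ 2}

/-- first arc -/
def A1 : Set ℂ := {z | ∃ x : ℝ, z = ((1 / 5 + 36 * |x| : ℝ) : ℂ) * E x ∧ |x| ≤ 1 / 20}

/-- second arc -/
def A0 : Set ℂ := {z | ∃ x : ℝ, z = ((1 + 36 * |x| : ℝ) : ℂ) * E x ∧ |x| ≤ 1 / 36}

lemma polar_mem_C2 {t : ℝ} (ht : 0 < t) (x : ℝ) : (t : ℂ) * E x ∈ C2 ↔ t ≤ FC x := by
  show ‖_‖ ≤ FC (ang _) ↔ _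
  rw [norm_polar ht.le]
  obtain ⟨n, hn⟩ := ang_polar ht x
  rw [hn, FC_add_int]

lemma C2_disc : IsDisc C2 := star_disc FC_cont FC_pos FC_add_int FC_le

lemma C1_disc : IsDisc C1 := by
  have e : C1 = {z | ∃ t x : ℝ, z = t * E x ∧ -(1 / 20) ≤ x ∧ x ≤ 1 / 20 ∧
      1 / 5 + 36 * |x| ≤ t ∧ t ≤ min (1 + 36 * |x|) 2} := by
    ext z
    constructor
    · rintro ⟨t, x, rfl, h1, h2, h3, h4⟩
      exact ⟨t, x, rfl, (abs_le.1 h1).1, (abs_le.1 h1).2, h2, le_min h3 h4⟩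
    · rintro ⟨t, x, rfl, h1, h2, h3, h4⟩
      exact ⟨t, x, rfl, abs_le.2 ⟨h1, h2⟩, h3, (le_min_iff.1 h4).1, (le_min_iff.1 h4).2⟩
  rw [e]
  apply lens_disc (by norm_num) (by norm_num) (by fun_prop) (by fun_prop)
  · intro x _ _; positivity
  · simp only [abs_neg]
    rw [abs_of_pos (by norm_num : (0 : ℝ) < 1 / 20)]
    norm_num
  · rw [abs_of_pos (by norm_num : (0 : ℝ) < 1 / 20)]
    norm_num
  · intro x h1 h2
    have : |x| < 1 / 20 := abs_lt.2 ⟨h1, h2⟩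
    apply lt_min <;> linarith

lemma C0_disc : IsDisc C0 := by
  have e : C0 = {z | ∃ t x : ℝ, z = t * E x ∧ -(1 / 36) ≤ x ∧ x ≤ 1 / 36 ∧
      1 + 36 * |x| ≤ t ∧ t ≤ (fun _ => 2 : ℝ → ℝ) x} := by
    ext z
    constructor
    · rintro ⟨t, x, rfl, h1, h2, h3⟩
      exact ⟨t, x, rfl, (abs_le.1 h1).1, (abs_le.1 h1).2, h2, h3⟩
    · rintro ⟨t, x, rfl, h1, h2, h3, h4⟩
      exact ⟨t, x, rfl, abs_le.2 ⟨h1, h2⟩, h3, h4⟩
  rw [e]
  apply lens_disc (by norm_num) (by norm_num) (by fun_prop) (by fun_prop)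
  · intro x _ _; positivity
  · simp only [abs_neg]
    rw [abs_of_pos (by norm_num : (0 : ℝ) < 1 / 36)]
    norm_num
  · rw [abs_of_pos (by norm_num : (0 : ℝ) < 1 / 36)]
    norm_num
  · intro x h1 h2
    have : |x| < 1 / 36 := abs_lt.2 ⟨h1, h2⟩
    show 1 + 36 * |x| < 2
    linarith

lemma A1_arc : IsArc A1 := by
  have e : A1 = {z | ∃ x : ℝ, z = ((1 / 5 + 36 * |x| : ℝ) : ℂ) * E x ∧
      -(1 / 20) ≤ x ∧ x ≤ 1 / 20} := by
    ext z
    constructor
    · rintro ⟨x, rfl, h1⟩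
      exact ⟨x, rfl, abs_le.1 h1⟩
    · rintro ⟨x, rfl, h1⟩
      exact ⟨x, rfl, abs_le.2 h1⟩
  rw [e]
  apply graph_arc (l := fun x => 1 / 5 + 36 * |x|) (by norm_num) (by norm_num) (by fun_prop)
  intro x _ _
  positivity

lemma A0_arc : IsArc A0 := by
  have e : A0 = {z | ∃ x : ℝ, z = ((1 + 36 * |x| : ℝ) : ℂ) * E x ∧
      -(1 / 36) ≤ x ∧ x ≤ 1 / 36} := by
    ext z
    constructor
    · rintro ⟨x, rfl, h1⟩
      exact ⟨x, rfl, abs_le.1 h1⟩
    · rintro ⟨x, rfl, h1⟩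
      exact ⟨x, rfl, abs_le.2 h1⟩
  rw [e]
  apply graph_arc (l := fun x => 1 + 36 * |x|) (by norm_num) (by norm_num) (by fun_prop)
  intro x _ _
  positivity

/-- Normal form of points with small angle. -/
lemma small_unique {t s x y : ℝ} (ht : 0 < t) (hs : 0 ≤ s) (hx : |x| ≤ 1 / 20) (hy : |y| ≤ 1 / 20)
    (h : (t : ℂ) * E x = (s : ℂ) * E y) : t = s ∧ x = y := by
  obtain ⟨e1, n, e2⟩ := polar_unique ht hs h
  refine ⟨e1, ?_⟩
  rw [abs_le] at hx hy
  have k1 : (n : ℝ) < 1 := by linarith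
  have k2 : (-1 : ℝ) < n := by linarith
  have k3 : n < 1 := by exact_mod_cast k1
  have k4 : -1 < n := by exact_mod_cast k2
  have k5 : n = 0 := by omega
  rw [k5] at e2
  simpa using e2

lemma C1_C2 : C1 ∩ C2 = A1 := by
  apply Set.Subset.antisymm
  · rintro z ⟨⟨t, x, rfl, h1, h2, h3, h4⟩, h5⟩
    have h0 := abs_nonneg x
    rw [polar_mem_C2 (by linarith), FC_near h1] at h5
    exact ⟨x, by rw [le_antisymm h5 h2], h1⟩
  · rintro z ⟨x, rfl, h1⟩
    have h0 := abs_nonneg x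
    refine ⟨⟨_, x, rfl, h1, le_rfl, by linarith, by linarith⟩, ?_⟩
    rw [polar_mem_C2 (by linarith), FC_near h1]

lemma C0_C1 : C0 ∩ C1 = A0 := by
  apply Set.Subset.antisymm
  · rintro z ⟨⟨t, x, rfl, h1, h2, h3⟩, ⟨s, y, e, g1, g2, g3, g4⟩⟩
    have h0 := abs_nonneg x
    have g0 := abs_nonneg y
    obtain ⟨e1, e2⟩ := small_unique (by linarith) (by linarith) (by linarith) g1 e
    rw [← e2, ← e1] at g3
    exact ⟨x, by rw [le_antisymm g3 h2], h1⟩
  · rintro z ⟨x, rfl, h1⟩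
    have h0 := abs_nonneg x
    exact ⟨⟨_, x, rfl, h1, le_rfl, by linarith⟩,
      ⟨_, x, rfl, by linarith, by linarith, le_rfl, by linarith⟩⟩

lemma C0_C2 : C0 ∩ C2 = ∅ := by
  rw [Set.eq_empty_iff_forall_notMem]
  rintro z ⟨⟨t, x, rfl, h1, h2, h3⟩, h5⟩
  have h0 := abs_nonneg x
  rw [polar_mem_C2 (by linarith), FC_near (by linarith)] at h5
  linarith

lemma C2_norm {z : ℂ} (h : z ∈ C2) : ‖z‖ ≤ 2 := by
  have h' : ‖z‖ ≤ FC (ang z) := h
  exact h'.trans (FC_le _)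

lemma C1_norm {z : ℂ} (h : z ∈ C1) : 1 / 5 ≤ ‖z‖ ∧ ‖z‖ ≤ 2 := by
  obtain ⟨t, x, rfl, h1, h2, h3, h4⟩ := h
  have h0 := abs_nonneg x
  rw [norm_polar (by linarith)]
  constructor <;> linarith

lemma C0_norm {z : ℂ} (h : z ∈ C0) : 1 ≤ ‖z‖ ∧ ‖z‖ ≤ 2 := by
  obtain ⟨t, x, rfl, h1, h2, h3⟩ := h
  have h0 := abs_nonneg x
  rw [norm_polar (by linarith)]
  constructor <;> linarith

lemma C1_Lo {a : ℤ} {z : ℂ} (h : z ∈ C1) (h' : z ∈ Lo 0 a) : False := by
  obtain ⟨t, x, rfl, h1, h2, h3, h4⟩ := h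
  obtain ⟨y, e, g1, g2⟩ := h'
  have h0 := abs_nonneg x
  obtain ⟨-, n, hn⟩ := polar_unique (show 0 < t by linarith) (by norm_num) e
  have hf := far_W g1 g2 (-n)
  rw [DD_zero] at hf
  push_cast at hf
  rw [show y - -(n : ℝ) = x by linarith] at hf
  linarith

lemma C0_Lo {a : ℤ} {z : ℂ} (h : z ∈ C0) (h' : z ∈ Lo 0 a) : False := by
  obtain ⟨t, x, rfl, h1, h2, h3⟩ := h
  obtain ⟨y, e, g1, g2⟩ := h'
  have h0 := abs_nonneg x
  obtain ⟨-, n, hn⟩ := polar_unique (show 0 < t by linarith) (by norm_num) e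
  have hf := far_W g1 g2 (-n)
  rw [DD_zero] at hf
  push_cast at hf
  rw [show y - -(n : ℝ) = x by linarith] at hf
  linarith

lemma Lo_sub_C2 {a : ℤ} : Lo 0 a ⊆ C2 := by
  rintro z ⟨x, rfl, h1, h2⟩
  rw [polar_mem_C2 (by norm_num), FC_far]
  · norm_num
  · intro n
    have := far_W h1 h2 n
    rw [DD_zero] at this
    linarith

lemma HQ_C2 {a : ℤ} : HQ 0 a ∩ C2 = Lo 0 a := by
  apply Set.Subset.antisymm
  · rintro z ⟨g1, g2⟩
    apply mem_Lo (HQ_sub g1)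
    have := C2_norm g2
    norm_num
    exact this
  · intro z hz
    exact ⟨Lo_sub_HQ hz, Lo_sub_C2 hz⟩

lemma central_cover {z : ℂ} (hz : ‖z‖ ≤ 2) : z ∈ C2 ∨ z ∈ C1 ∨ z ∈ C0 := by
  by_cases h : ‖z‖ ≤ FC (ang z)
  · exact Or.inl h
  · right
    push Not at h
    have h1 : FC (ang z) < 2 := by linarith
    have h2 : ∃ n : ℤ, |ang z - n| < 1 / 20 := by
      by_contra hc
      push Not at hc
      rw [FC_far hc] at h1
      exact lt_irrefl _ h1
    obtain ⟨n, hn⟩ := h2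
    set x := ang z - n with hx
    have e : ang z = x + n := by rw [hx]; ring
    have ez : z = (‖z‖ : ℂ) * E x := by
      conv_lhs => rw [polar z, e, E_add_int]
    rw [e, FC_add_int, FC_near hn.le] at h
    by_cases h3 : ‖z‖ ≤ 1 + 36 * |x|
    · left
      exact ⟨‖z‖, x, ez, hn.le, h.le, h3, hz⟩
    · right
      push Not at h3
      exact ⟨‖z‖, x, ez, by linarith, h3.le, hz⟩

lemma p2_mem : (0 : ℂ) ∈ interior C2 := by
  rw [mem_interior_iff_mem_nhds]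
  have : Metric.ball (0 : ℂ) (1 / 5) ∈ 𝓝 (0 : ℂ) := Metric.ball_mem_nhds _ (by norm_num)
  filter_upwards [this] with z hz
  rw [mem_ball_zero_iff] at hz
  show ‖z‖ ≤ FC (ang z)
  unfold FC
  have h0 := Int.fract_nonneg (ang z)
  have h1 := Int.fract_lt_one (ang z)
  have h2 : 0 ≤ min (Int.fract (ang z)) (1 - Int.fract (ang z)) := le_min h0 (by linarith)
  apply le_min <;> linarith

lemma p1_mem : ((2 / 5 : ℝ) : ℂ) ∈ interior C1 := by
  rw [mem_interior_iff_mem_nhds]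
  have c1 : ContinuousAt (fun p : ℝ × ℝ => |p.2|) ((2 / 5 : ℝ), (0 : ℝ)) := by fun_prop
  have c2 : ContinuousAt (fun p : ℝ × ℝ => p.1 - 36 * |p.2|) ((2 / 5 : ℝ), (0 : ℝ)) := by fun_prop
  have hev : ∀ᶠ p : ℝ × ℝ in 𝓝 ((2 / 5 : ℝ), (0 : ℝ)), |p.2| ≤ 1 / 20 ∧
      1 / 5 + 36 * |p.2| ≤ p.1 ∧ p.1 ≤ 1 + 36 * |p.2| ∧ p.1 ≤ 2 := by
    filter_upwards [c1.eventually_lt_const (u := (1 : ℝ) / 100) (by norm_num),
      c2.eventually_const_lt (u := (1 : ℝ) / 5) (by norm_num),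
      c2.eventually_lt_const (u := (1 : ℝ)) (by norm_num)] with p h1 h2 h3
    exact ⟨by linarith, by linarith, by linarith, by linarith⟩
  have := polar_nhds (show (0 : ℝ) < 2 / 5 by norm_num) hev
  rw [E_zero, mul_one] at this
  exact this

lemma p0_mem : ((3 / 2 : ℝ) : ℂ) ∈ interior C0 := by
  rw [mem_interior_iff_mem_nhds]
  have c1 : ContinuousAt (fun p : ℝ × ℝ => |p.2|) ((3 / 2 : ℝ), (0 : ℝ)) := by fun_prop
  have c2 : ContinuousAt (fun p : ℝ × ℝ => p.1 - 36 * |p.2|) ((3 / 2 : ℝ), (0 : ℝ)) := by fun_prop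
  have c3 : ContinuousAt (fun p : ℝ × ℝ => p.1) ((3 / 2 : ℝ), (0 : ℝ)) := by fun_prop
  have hev : ∀ᶠ p : ℝ × ℝ in 𝓝 ((3 / 2 : ℝ), (0 : ℝ)), |p.2| ≤ 1 / 36 ∧
      1 + 36 * |p.2| ≤ p.1 ∧ p.1 ≤ 2 := by
    filter_upwards [c1.eventually_lt_const (u := (1 : ℝ) / 36) (by norm_num),
      c2.eventually_const_lt (u := (1 : ℝ)) (by norm_num),
      c3.eventually_lt_const (u := (2 : ℝ)) (by norm_num)] with p h1 h2 h3
    exact ⟨by linarith, by linarith, by linarith⟩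
  have := polar_nhds (show (0 : ℝ) < 3 / 2 by norm_num) hev
  rw [E_zero, mul_one] at this
  exact this

end

end Pool.Agent.W2helper30.QM
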