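import Pool.Agent.W2helper30.QM5

/-!
The tree and the tree surface.
-/

namespace Pool.Agent.W2helper30.QM

open Set Filter Topology
open Pool.Agent.V11131.Mod (E ang norm_E E_ne E_add E_zero E_int E_add_int E_eq E_cont polar
  norm_polar ang_polar ang_cont polar_unique IsDisc IsArc Far TreeSurface RTree)

noncomputable section

/-- Vertices: three central ones, one for every sector, and one for every pocket. -/
inductive VV : Type
  | c0 : VV
  | c1 : VV
  | c2 : VV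
  | Q (m : ℕ) (a : Fin (NN m)) : VV
  | P (m : ℕ) (b : Fin (NN (m + 1))) (h : 2 ≤ (b : ℕ) % (m + 2)) : VV

lemma div_lt {m : ℕ} (b : Fin (NN (m + 1))) : (b : ℕ) / (m + 2) < NN m := by
  apply Nat.div_lt_of_lt_mul
  exact lt_of_lt_of_eq b.2 (NN_succ m)

/-- parent -/
def par : VV → VV
  | .c0 => .c1
  | .c1 => .c2
  | .c2 => .c2
  | .Q 0 _ => .c2
  | .Q (m + 1) a => .Q m ⟨(a : ℕ) / (m + 2), div_lt a⟩
  | .P m b _ => .Q m ⟨(b : ℕ) / (m + 2), div_lt b⟩

/-- depth -/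
def dep : VV → ℕ
  | .c0 => 2
  | .c1 => 1
  | .c2 => 0
  | .Q m _ => m + 1
  | .P m _ _ => m + 2

/-- polygons -/
def HH : VV → Set ℂ
  | .c0 => C0
  | .c1 => C1
  | .c2 => C2
  | .Q m a => HQ m ((a : ℕ) : ℤ)
  | .P m b _ => HP m ((b : ℕ) : ℤ)

/-- punctures -/
def pp : VV → ℂ
  | .c0 => ((3 / 2 : ℝ) : ℂ)
  | .c1 => ((2 / 5 : ℝ) : ℂ)
  | .c2 => 0
  | .Q m a => gp m (((m : ℤ) + 2) * ((a : ℕ) : ℤ) + 1)
  | .P m b _ => gp m ((b : ℕ) : ℤ)

lemma dep_par : ∀ v : VV, v ≠ .c2 → dep v = dep (par v) + 1 := by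
  intro v h
  cases v with
  | c0 => rfl
  | c1 => rfl
  | c2 => exact absurd rfl h
  | Q m a => cases m <;> rfl
  | P m b h => rfl

/-- An injective code of the vertices. -/
def code : VV → ℕ × ℕ × ℕ
  | .c0 => (0, 0, 0)
  | .c1 => (0, 1, 0)
  | .c2 => (0, 2, 0)
  | .Q m a => (1, m, a)
  | .P m b _ => (2, m, b)

lemma code_inj : Function.Injective code := by
  intro v w h
  cases v <;> cases w <;> simp [code] at h
  · rfl
  · rfl
  · rfl
  · obtain ⟨h1, h2⟩ := h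
    subst h1
    rw [Fin.ext h2]
  · obtain ⟨h1, h2⟩ := h
    subst h1
    congr 1
    exact Fin.ext h2

lemma NN_mono {m n : ℕ} (h : m ≤ n) : NN m ≤ NN n := Nat.factorial_le (by omega)

lemma fin_dep (n : ℕ) : {v : VV | dep v ≤ n}.Finite := by
  apply Set.Finite.subset ((Set.finite_Iic ((2, n + 2, NN (n + 1)) : ℕ × ℕ × ℕ)).preimage
    code_inj.injOn)
  intro v hv
  have hv' : dep v ≤ n := hv
  show code v ≤ (2, n + 2, NN (n + 1))
  cases v with
  | c0 => exact ⟨by simp [code], by simp [code], by simp [code]⟩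
  | c1 => exact ⟨by simp [code], by simp [code], by simp [code]⟩
  | c2 => exact ⟨by simp [code], by simp [code], by simp [code]⟩
  | Q m a =>
    have h1 : m + 1 ≤ n := hv'
    have h2 : (a : ℕ) ≤ NN (n + 1) := a.2.le.trans (NN_mono (by omega))
    exact ⟨by simp [code], by show m ≤ n + 2; omega, h2⟩
  | P m b h =>
    have h1 : m + 2 ≤ n := hv'
    have h2 : (b : ℕ) ≤ NN (n + 1) := b.2.le.trans (NN_mono (by omega))
    exact ⟨by simp [code], by show m ≤ n + 2; omega, h2⟩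

lemma idx_same {m : ℕ} {a b : Fin (NN m)} {n : ℤ} (h : ((b : ℕ) : ℤ) = (a : ℕ) + NN m * n) :
    a = b := by
  have ha : ((a : ℕ) : ℤ) < NN m := by exact_mod_cast a.2
  have hb : ((b : ℕ) : ℤ) < NN m := by exact_mod_cast b.2
  have ha0 : (0 : ℤ) ≤ (a : ℕ) := Int.natCast_nonneg _
  have hb0 : (0 : ℤ) ≤ (b : ℕ) := Int.natCast_nonneg _
  have hn : n = 0 := by
    rcases lt_trichotomy n 0 with hn | hn | hn
    · nlinarith
    · exact hn
    · nlinarith
  rw [hn, mul_zero, add_zero] at h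
  exact Fin.ext (by exact_mod_cast h.symm)

lemma idx_succ {m : ℕ} {a : Fin (NN m)} {b : Fin (NN (m + 1))} {n : ℤ}
    (h1 : ((m : ℤ) + 2) * (a : ℕ) ≤ (b : ℕ) + NN (m + 1) * n)
    (h2 : ((b : ℕ) : ℤ) + NN (m + 1) * n + 1 ≤ ((m : ℤ) + 2) * ((a : ℕ) + 1)) :
    (b : ℕ) / (m + 2) = a := by
  have ha : ((a : ℕ) : ℤ) + 1 ≤ NN m := by exact_mod_cast a.2
  have hb : ((b : ℕ) : ℤ) < NN (m + 1) := by exact_mod_cast b.2
  have ha0 : (0 : ℤ) ≤ (a : ℕ) := Int.natCast_nonneg _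
  have hb0 : (0 : ℤ) ≤ (b : ℕ) := Int.natCast_nonneg _
  have hm : (0 : ℤ) < (m : ℤ) + 2 := by positivity
  have hN : (NN (m + 1) : ℤ) = ((m : ℤ) + 2) * NN m := by
    rw [NN_succ]; push_cast; ring
  have hN0 : (0 : ℤ) < NN (m + 1) := by exact_mod_cast NN_pos (m + 1)
  have h3 : ((m : ℤ) + 2) * (((a : ℕ) : ℤ) + 1) ≤ NN (m + 1) := by
    rw [hN]; exact mul_le_mul_of_nonneg_left ha hm.le
  have h4 : 0 ≤ ((m : ℤ) + 2) * ((a : ℕ) : ℤ) := mul_nonneg hm.le ha0
  have hn : n = 0 := by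
    rcases lt_trichotomy n 0 with hn | hn | hn
    · have : (NN (m + 1) : ℤ) * n ≤ NN (m + 1) * (-1) :=
        mul_le_mul_of_nonneg_left (by omega) hN0.le
      linarith
    · exact hn
    · have : (NN (m + 1) : ℤ) * 1 ≤ NN (m + 1) * n :=
        mul_le_mul_of_nonneg_left (by omega) hN0.le
      linarith
  rw [hn, mul_zero, add_zero] at h1 h2
  have h1' : (m + 2) * (a : ℕ) ≤ b := by exact_mod_cast h1
  have h2' : (b : ℕ) < (m + 2) * ((a : ℕ) + 1) := by
    have : (b : ℕ) + 1 ≤ (m + 2) * ((a : ℕ) + 1) := by exact_mod_cast h2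
    omega
  apply le_antisymm
  · rw [← Nat.lt_succ_iff]
    exact Nat.div_lt_of_lt_mul h2'
  · rw [Nat.le_div_iff_mul_le (by omega)]
    linarith

lemma div_cast {m : ℕ} (b : ℕ) : (((b / (m + 2) : ℕ)) : ℤ) = (b : ℤ) / ((m : ℤ) + 2) := by
  push_cast
  rfl

lemma mod_cast' {m : ℕ} {b : ℕ} (h : 2 ≤ b % (m + 2)) : 2 ≤ (b : ℤ) % ((m : ℤ) + 2) := by
  have : ((b % (m + 2) : ℕ) : ℤ) = (b : ℤ) % ((m : ℤ) + 2) := by push_cast; rfl
  rw [← this]
  exact_mod_cast h

lemma HP_norm {m : ℕ} {b : ℤ} {z : ℂ} (h : z ∈ HP m b) :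
    1 + 3 ^ m < ‖z‖ ∧ ‖z‖ ≤ 1 + 3 ^ (m + 1) := by
  obtain ⟨t, x, rfl, h1, h2, h3⟩ := h
  have hp := pow3_pos m
  have hp1 : (3 : ℝ) ^ (m + 1) = 3 * 3 ^ m := by rw [pow_succ]; ring
  have h0 := abs_nonneg (DD (m + 1) x - b)
  have k2 : (3 : ℝ) ^ (m + 1) * (2 / 5) ≤ 3 ^ (m + 1) * (2 / 5 + 12 * |DD (m + 1) x - b|) :=
    mul_le_mul_of_nonneg_left (by linarith) (pow3_pos (m + 1)).le
  have k3 : (3 : ℝ) ^ (m + 1) * (2 / 5) = 3 ^ m * (6 / 5) := by rw [hp1]; ring
  rw [norm_polar (by linarith)]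
  constructor
  · linarith
  · exact h3

lemma HQ_norm {m : ℕ} {b : ℤ} {z : ℂ} (h : z ∈ HQ m b) :
    1 + 3 ^ m ≤ ‖z‖ ∧ ‖z‖ ≤ 1 + 3 ^ (m + 1) := HB_norm (HQ_sub h)

lemma one_le_pow3 (m : ℕ) : (1 : ℝ) ≤ 3 ^ m := one_le_pow₀ (by norm_num)

lemma HQ_Lo0 {m : ℕ} {a : ℤ} {z : ℂ} (h : z ∈ HQ m a) (h' : ‖z‖ ≤ 2) : m = 0 ∧ z ∈ Lo m a := by
  have h1 := HQ_norm h
  have hm : m = 0 := by
    by_contra hne
    have : (3 : ℝ) ^ 0 < 3 ^ m := pow3_lt (by omega)
    norm_num at this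
    linarith
  refine ⟨hm, ?_⟩
  subst hm
  apply mem_Lo (HQ_sub h)
  norm_num
  exact h'

lemma rel_QQ {m l : ℕ} {a : Fin (NN m)} {b : Fin (NN l)} {z : ℂ} (hz : z ∈ HH (.Q m a))
    (hw : z ∈ HH (.Q l b)) (h : m ≤ l) : VV.Q m a = VV.Q l b ∨ par (.Q l b) = .Q m a := by
  have hz' : z ∈ HQ m ((a : ℕ) : ℤ) := hz
  have hw' : z ∈ HQ l ((b : ℕ) : ℤ) := hw
  have h1 := HQ_norm hz'
  have h2 := HQ_norm hw'
  have h3 : l ≤ m + 1 := by
    by_contra hc
    have : (3 : ℝ) ^ (m + 1) < 3 ^ l := pow3_lt (by omega)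
    linarith
  rcases h.eq_or_lt with h4 | h4
  · subst h4
    left
    obtain ⟨n, hn⟩ := HB_same (HQ_sub hz') (HQ_sub hw')
    rw [idx_same hn]
  · right
    have h5 : l = m + 1 := by omega
    subst h5
    obtain ⟨n, hn1, hn2⟩ := HB_succ (HQ_sub hz') (HQ_sub hw')
    show VV.Q m ⟨(b : ℕ) / (m + 2), div_lt b⟩ = VV.Q m a
    congr 1
    exact Fin.ext (idx_succ hn1 hn2)

lemma rel_QP {m l : ℕ} {a : Fin (NN m)} {b : Fin (NN (l + 1))} {hb : 2 ≤ (b : ℕ) % (l + 2)}
    {z : ℂ} (hz : z ∈ HH (.Q m a)) (hw : z ∈ HH (.P l b hb)) : par (.P l b hb) = .Q m a := by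
  have hz' : z ∈ HQ m ((a : ℕ) : ℤ) := hz
  have hw' : z ∈ HP l ((b : ℕ) : ℤ) := hw
  have h1 := HQ_norm hz'
  have h2 := HP_norm hw'
  have h3 : l ≤ m := by
    by_contra hc
    have : (3 : ℝ) ^ (m + 1) ≤ 3 ^ l := pow3_le (by omega)
    linarith
  have h4 : m ≤ l + 1 := by
    by_contra hc
    have : (3 : ℝ) ^ (l + 1) < 3 ^ m := pow3_lt (by omega)
    linarith
  have h5 : m = l ∨ m = l + 1 := by omega
  rcases h5 with h5 | h5
  · subst h5
    have h6 := HP_sub (mod_cast' hb) hw'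
    obtain ⟨n, hn⟩ := HB_same (HQ_sub hz') h6
    rw [← div_cast] at hn
    show VV.Q m ⟨(b : ℕ) / (m + 2), div_lt b⟩ = VV.Q m a
    congr 1
    exact (idx_same (a := a) (b := ⟨(b : ℕ) / (m + 2), div_lt b⟩) hn).symm
  · subst h5
    exact (HP_HB_succ hw' (HQ_sub hz')).elim

lemma rel_PP {m l : ℕ} {a : Fin (NN (m + 1))} {ha : 2 ≤ (a : ℕ) % (m + 2)}
    {b : Fin (NN (l + 1))} {hb : 2 ≤ (b : ℕ) % (l + 2)}
    {z : ℂ} (hz : z ∈ HH (.P m a ha)) (hw : z ∈ HH (.P l b hb)) : VV.P m a ha = .P l b hb := by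
  have hz' : z ∈ HP m ((a : ℕ) : ℤ) := hz
  have hw' : z ∈ HP l ((b : ℕ) : ℤ) := hw
  have h1 := HP_norm hz'
  have h2 := HP_norm hw'
  have h3 : l = m := by
    rcases lt_trichotomy l m with hc | hc | hc
    · have : (3 : ℝ) ^ (l + 1) ≤ 3 ^ m := pow3_le (by omega)
      linarith
    · exact hc
    · have : (3 : ℝ) ^ (m + 1) ≤ 3 ^ l := pow3_le (by omega)
      linarith
  subst h3
  obtain ⟨n, hn⟩ := HP_same hz' hw'
  have := idx_same hn
  subst this
  rfl

lemma rel_CP {v : VV} (hv : v = .c0 ∨ v = .c1 ∨ v = .c2) {m : ℕ} {b : ℤ} {z : ℂ}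
    (hz : z ∈ HH v) (hw : z ∈ HP m b) : False := by
  have h1 := HP_norm hw
  have h2 := one_le_pow3 m
  have h3 : ‖z‖ ≤ 2 := by
    rcases hv with rfl | rfl | rfl
    · exact (C0_norm hz).2
    · exact (C1_norm hz).2
    · exact C2_norm hz
  linarith

lemma rel_CQ {v : VV} (hv : v = .c0 ∨ v = .c1 ∨ v = .c2) {m : ℕ} {a : Fin (NN m)} {z : ℂ}
    (hz : z ∈ HH v) (hw : z ∈ HH (.Q m a)) : par (.Q m a) = v := by
  have h3 : ‖z‖ ≤ 2 := by
    rcases hv with rfl | rfl | rfl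
    · exact (C0_norm hz).2
    · exact (C1_norm hz).2
    · exact C2_norm hz
  obtain ⟨h4, h5⟩ := HQ_Lo0 (show z ∈ HQ m ((a : ℕ) : ℤ) from hw) h3
  subst h4
  rcases hv with rfl | rfl | rfl
  · exact (C0_Lo hz h5).elim
  · exact (C1_Lo hz h5).elim
  · rfl

lemma rel (v w : VV) {z : ℂ} (hz : z ∈ HH v) (hw : z ∈ HH w) :
    v = w ∨ par v = w ∨ par w = v := by
  cases v with
  | c0 =>
    cases w with
    | c0 => exact Or.inl rfl
    | c1 => exact Or.inr (Or.inl rfl)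
    | c2 =>
      have : z ∈ C0 ∩ C2 := ⟨hz, hw⟩
      rw [C0_C2] at this
      exact this.elim
    | Q m a => exact Or.inr (Or.inr (rel_CQ (Or.inl rfl) hz hw))
    | P m b h => exact (rel_CP (Or.inl rfl) hz hw).elim
  | c1 =>
    cases w with
    | c0 => exact Or.inr (Or.inr rfl)
    | c1 => exact Or.inl rfl
    | c2 => exact Or.inr (Or.inl rfl)
    | Q m a => exact Or.inr (Or.inr (rel_CQ (Or.inr (Or.inl rfl)) hz hw))
    | P m b h => exact (rel_CP (Or.inr (Or.inl rfl)) hz hw).elim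
  | c2 =>
    cases w with
    | c0 =>
      have : z ∈ C0 ∩ C2 := ⟨hw, hz⟩
      rw [C0_C2] at this
      exact this.elim
    | c1 => exact Or.inr (Or.inr rfl)
    | c2 => exact Or.inl rfl
    | Q m a => exact Or.inr (Or.inr (rel_CQ (Or.inr (Or.inr rfl)) hz hw))
    | P m b h => exact (rel_CP (Or.inr (Or.inr rfl)) hz hw).elim
  | Q l c =>
    cases w with
    | c0 => exact Or.inr (Or.inl (rel_CQ (Or.inl rfl) hw hz))
    | c1 => exact Or.inr (Or.inl (rel_CQ (Or.inr (Or.inl rfl)) hw hz))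
    | c2 => exact Or.inr (Or.inl (rel_CQ (Or.inr (Or.inr rfl)) hw hz))
    | Q m a =>
      rcases le_total l m with h | h
      · rcases rel_QQ hz hw h with h1 | h1
        · exact Or.inl h1
        · exact Or.inr (Or.inr h1)
      · rcases rel_QQ hw hz h with h1 | h1
        · exact Or.inl h1.symm
        · exact Or.inr (Or.inl h1)
    | P m b h => exact Or.inr (Or.inr (rel_QP hz hw))
  | P l c hc =>
    cases w with
    | c0 => exact (rel_CP (Or.inl rfl) hw hz).elim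
    | c1 => exact (rel_CP (Or.inr (Or.inl rfl)) hw hz).elim
    | c2 => exact (rel_CP (Or.inr (Or.inr rfl)) hw hz).elim
    | Q m a => exact Or.inr (Or.inl (rel_QP hw hz))
    | P m b h => exact Or.inl (rel_PP hz hw)

lemma int_C {v : VV} (hv : v = .c0 ∨ v = .c1 ∨ v = .c2) {z : ℂ} (hz : z ∈ interior (HH v)) :
    ‖z‖ < 2 := by
  obtain ⟨-, ⟨s, s1, hs⟩⟩ := int_scale hz
  have h3 : ‖(s : ℂ) * z‖ ≤ 2 := by
    rcases hv with rfl | rfl | rfl
    · exact (C0_norm hs).2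
    · exact (C1_norm hs).2
    · exact C2_norm hs
  rw [norm_mul, Complex.norm_real, Real.norm_of_nonneg (by linarith)] at h3
  have h0 := norm_nonneg z
  nlinarith

lemma int_Q {m : ℕ} {a : ℤ} {z : ℂ} (hz : z ∈ interior (HQ m a)) :
    1 + 3 ^ m < ‖z‖ ∧ ‖z‖ < 1 + 3 ^ (m + 1) := by
  apply int_norm _ (fun w hw => HQ_norm hw) hz
  have := pow3_pos m
  linarith

lemma int_P {m : ℕ} {a : ℤ} {z : ℂ} (hz : z ∈ interior (HP m a)) :
    1 + 3 ^ m < ‖z‖ ∧ ‖z‖ < 1 + 3 ^ (m + 1) := by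
  apply int_norm _ (fun w hw => ⟨(HP_norm hw).1.le, (HP_norm hw).2⟩) hz
  have := pow3_pos m
  linarith

lemma int_C2_C1 {z : ℂ} (hz : z ∈ interior C2) (hw : z ∈ C1) : False := by
  obtain ⟨-, ⟨s, s1, hs⟩⟩ := int_scale hz
  obtain ⟨t, x, rfl, h1, h2, h3, h4⟩ := hw
  have h0 := abs_nonneg x
  have e : (s : ℂ) * ((t : ℂ) * E x) = ((s * t : ℝ) : ℂ) * E x := by push_cast; ring
  rw [e, polar_mem_C2 (by nlinarith), FC_near h1] at hs
  nlinarith

lemma int_C1_C2 {z : ℂ} (hz : z ∈ interior C1) (hw : z ∈ C2) : False := by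
  obtain ⟨⟨s, s0, s1, hs⟩, -⟩ := int_scale hz
  obtain ⟨t, x, rfl, h1, h2, h3, h4⟩ := interior_subset hz
  have h0 := abs_nonneg x
  have ht : 0 < t := by linarith
  rw [polar_mem_C2 ht, FC_near h1] at hw
  have e : (s : ℂ) * ((t : ℂ) * E x) = ((s * t : ℝ) : ℂ) * E x := by push_cast; ring
  rw [e] at hs
  obtain ⟨t', x', e', h1', h2', h3', h4'⟩ := hs
  have h0' := abs_nonneg x'
  obtain ⟨e1, e2⟩ := small_unique (mul_pos s0 ht) (by linarith) h1 h1' e'
  rw [← e2, ← e1] at h2'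
  nlinarith

lemma int_C1_C0 {z : ℂ} (hz : z ∈ interior C1) (hw : z ∈ C0) : False := by
  obtain ⟨-, ⟨s, s1, hs⟩⟩ := int_scale hz
  obtain ⟨t, x, rfl, h1, h2, h3⟩ := hw
  have h0 := abs_nonneg x
  have ht : 0 < t := by linarith
  have e : (s : ℂ) * ((t : ℂ) * E x) = ((s * t : ℝ) : ℂ) * E x := by push_cast; ring
  rw [e] at hs
  obtain ⟨t', x', e', h1', h2', h3', h4'⟩ := hs
  have h0' := abs_nonneg x'
  obtain ⟨e1, e2⟩ := small_unique (mul_pos (by linarith) ht) (by linarith) (by linarith) h1' e'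
  rw [← e2, ← e1] at h3'
  nlinarith

lemma int_C0_C1 {z : ℂ} (hz : z ∈ interior C0) (hw : z ∈ C1) : False := by
  obtain ⟨⟨s, s0, s1, hs⟩, -⟩ := int_scale hz
  obtain ⟨t, x, rfl, h1, h2, h3, h4⟩ := hw
  have h0 := abs_nonneg x
  have ht : 0 < t := by linarith
  have e : (s : ℂ) * ((t : ℂ) * E x) = ((s * t : ℝ) : ℂ) * E x := by push_cast; ring
  rw [e] at hs
  obtain ⟨t', x', e', h1', h2', h3'⟩ := hs
  have h0' := abs_nonneg x'
  obtain ⟨e1, e2⟩ := small_unique (mul_pos s0 ht) (by linarith) h1 (by linarith) e'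
  rw [← e2, ← e1] at h2'
  nlinarith

lemma HH_int_disj (v w : VV) (hne : v ≠ w) : Disjoint (interior (HH v)) (HH w) := by
  rw [Set.disjoint_left]
  intro z hz hw
  have hC : ∀ {v : VV}, (v = .c0 ∨ v = .c1 ∨ v = .c2) → z ∈ HH v → ‖z‖ ≤ 2 := by
    intro v hv h
    rcases hv with rfl | rfl | rfl
    · exact (C0_norm h).2
    · exact (C1_norm h).2
    · exact C2_norm h
  cases v with
  | c0 =>
    have h1 := int_C (Or.inl rfl) hz
    cases w with
    | c0 => exact hne rfl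
    | c1 => exact int_C0_C1 hz hw
    | c2 =>
      have : z ∈ C0 ∩ C2 := ⟨interior_subset hz, hw⟩
      rw [C0_C2] at this
      exact this.elim
    | Q m a =>
      have h2 := (HQ_norm (show z ∈ HQ m ((a : ℕ) : ℤ) from hw)).1
      have := one_le_pow3 m
      linarith
    | P m b h =>
      have h2 := (HP_norm (show z ∈ HP m ((b : ℕ) : ℤ) from hw)).1
      have := one_le_pow3 m
      linarith
  | c1 =>
    have h1 := int_C (Or.inr (Or.inl rfl)) hz
    cases w with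
    | c0 => exact int_C1_C0 hz hw
    | c1 => exact hne rfl
    | c2 => exact int_C1_C2 hz hw
    | Q m a =>
      have h2 := (HQ_norm (show z ∈ HQ m ((a : ℕ) : ℤ) from hw)).1
      have := one_le_pow3 m
      linarith
    | P m b h =>
      have h2 := (HP_norm (show z ∈ HP m ((b : ℕ) : ℤ) from hw)).1
      have := one_le_pow3 m
      linarith
  | c2 =>
    have h1 := int_C (Or.inr (Or.inr rfl)) hz
    cases w with
    | c0 =>
      have : z ∈ C0 ∩ C2 := ⟨hw, interior_subset hz⟩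
      rw [C0_C2] at this
      exact this.elim
    | c1 => exact int_C2_C1 hz hw
    | c2 => exact hne rfl
    | Q m a =>
      have h2 := (HQ_norm (show z ∈ HQ m ((a : ℕ) : ℤ) from hw)).1
      have := one_le_pow3 m
      linarith
    | P m b h =>
      have h2 := (HP_norm (show z ∈ HP m ((b : ℕ) : ℤ) from hw)).1
      have := one_le_pow3 m
      linarith
  | Q l c =>
    have h1 := int_Q (show z ∈ interior (HQ l ((c : ℕ) : ℤ)) from hz)
    have h3 := one_le_pow3 l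
    cases w with
    | c0 => linarith [hC (Or.inl rfl) hw]
    | c1 => linarith [hC (Or.inr (Or.inl rfl)) hw]
    | c2 => linarith [hC (Or.inr (Or.inr rfl)) hw]
    | Q m a =>
      have h2 := HQ_norm (show z ∈ HQ m ((a : ℕ) : ℤ) from hw)
      have h4 : m = l := by
        rcases lt_trichotomy m l with hc | hc | hc
        · have : (3 : ℝ) ^ (m + 1) ≤ 3 ^ l := pow3_le (by omega)
          linarith
        · exact hc
        · have : (3 : ℝ) ^ (l + 1) ≤ 3 ^ m := pow3_le (by omega)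
          linarith
      subst h4
      obtain ⟨n, hn⟩ := HB_same (HQ_sub (interior_subset
        (show z ∈ interior (HQ m ((c : ℕ) : ℤ)) from hz)))
        (HQ_sub (show z ∈ HQ m ((a : ℕ) : ℤ) from hw))
      exact hne (by rw [idx_same hn])
    | P m b h =>
      have h2 := HP_norm (show z ∈ HP m ((b : ℕ) : ℤ) from hw)
      have h4 : m = l := by
        rcases lt_trichotomy m l with hc | hc | hc
        · have : (3 : ℝ) ^ (m + 1) ≤ 3 ^ l := pow3_le (by omega)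
          linarith
        · exact hc
        · have : (3 : ℝ) ^ (l + 1) ≤ 3 ^ m := pow3_le (by omega)
          linarith
      subst h4
      exact int_HQ_HP (mod_cast' h) hz hw
  | P l c hc =>
    have h1 := int_P (show z ∈ interior (HP l ((c : ℕ) : ℤ)) from hz)
    have h3 := one_le_pow3 l
    cases w with
    | c0 => linarith [hC (Or.inl rfl) hw]
    | c1 => linarith [hC (Or.inr (Or.inl rfl)) hw]
    | c2 => linarith [hC (Or.inr (Or.inr rfl)) hw]
    | Q m a =>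
      have h2 := HQ_norm (show z ∈ HQ m ((a : ℕ) : ℤ) from hw)
      have h4 : m = l := by
        rcases lt_trichotomy m l with hc | hc | hc
        · have : (3 : ℝ) ^ (m + 1) ≤ 3 ^ l := pow3_le (by omega)
          linarith
        · exact hc
        · have : (3 : ℝ) ^ (l + 1) ≤ 3 ^ m := pow3_le (by omega)
          linarith
      subst h4
      exact int_HP_HQ (mod_cast' hc) hz hw
    | P m b h => exact hne (rel_PP (interior_subset hz) hw)

lemma arc_Q {m : ℕ} (a : Fin (NN m)) : HH (.Q m a) ∩ HH (par (.Q m a)) = Lo m ((a : ℕ) : ℤ) := by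
  cases m with
  | zero => exact HQ_C2
  | succ m =>
    have h1 := Nat.div_add_mod (a : ℕ) (m + 2)
    have h2 := Nat.mod_lt (a : ℕ) (show 0 < m + 2 by omega)
    apply HQ_inter (m := m) (a := (((a : ℕ) / (m + 2) : ℕ) : ℤ)) (b := ((a : ℕ) : ℤ))
    · have : (m + 2) * ((a : ℕ) / (m + 2)) ≤ (a : ℕ) := by omega
      exact_mod_cast this
    · have : (a : ℕ) + 1 ≤ (m + 2) * ((a : ℕ) / (m + 2) + 1) := by
        rw [mul_add]; omega
      exact_mod_cast this

lemma arc_P {m : ℕ} (b : Fin (NN (m + 1))) (h : 2 ≤ (b : ℕ) % (m + 2)) :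
    HH (.P m b h) ∩ HH (par (.P m b h)) = PA m ((b : ℕ) : ℤ) := by
  have := HP_inter (mod_cast' h)
  rw [← div_cast] at this
  exact this

/-- The tree surface. -/
def XX : TreeSurface where
  V := VV
  root := .c2
  parent := par
  depth := dep
  depth_root := rfl
  depth_parent := dep_par
  fin_children := by
    intro v
    apply Set.Finite.subset (fin_dep (dep v + 1))
    rintro w ⟨h1, h2⟩
    show dep w ≤ dep v + 1
    rw [dep_par w h1, h2]
  H := HH
  p := pp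
  disc := by
    intro v
    cases v with
    | c0 => exact C0_disc
    | c1 => exact C1_disc
    | c2 => exact C2_disc
    | Q m a => exact HQ_disc m _
    | P m b h => exact HP_disc m _
  p_mem := by
    intro v
    cases v with
    | c0 => exact p0_mem
    | c1 => exact p1_mem
    | c2 => exact p2_mem
    | Q m a => exact gp_HQ m _
    | P m b h => exact gp_HP m _
  arc := by
    intro v hv
    cases v with
    | c0 => rw [show HH .c0 ∩ HH (par .c0) = A0 from C0_C1]; exact A0_arc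
    | c1 => rw [show HH .c1 ∩ HH (par .c1) = A1 from C1_C2]; exact A1_arc
    | c2 => exact absurd rfl hv
    | Q m a => rw [arc_Q]; exact Lo_arc m _
    | P m b h => rw [arc_P]; exact PA_arc m _
  disj := by
    intro v w hne hadj
    by_contra hc
    obtain ⟨z, hz, hw⟩ := Set.nonempty_iff_ne_empty.2 hc
    rcases rel v w hz hw with h | h | h
    · exact hne h
    · apply hadj
      left
      refine ⟨?_, h⟩
      rintro rfl
      exact hne h
    · apply hadj
      right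
      refine ⟨?_, h⟩
      rintro rfl
      exact hne h.symm
  int_disj := HH_int_disj
  locfin := by
    intro K hK
    obtain ⟨M, hM⟩ := hK.isBounded.exists_norm_le
    obtain ⟨n, hn⟩ := pow_unbounded_of_one_lt M (by norm_num : (1 : ℝ) < 3)
    apply Set.Finite.subset (fin_dep (n + 2))
    rintro v ⟨z, hz, hzK⟩
    show dep v ≤ n + 2
    have h2 := hM z hzK
    cases v with
    | c0 => show 2 ≤ n + 2; omega
    | c1 => show 1 ≤ n + 2; omega
    | c2 => show 0 ≤ n + 2; omega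
    | Q m a =>
      show m + 1 ≤ n + 2
      have h1 := (HQ_norm (show z ∈ HQ m ((a : ℕ) : ℤ) from hz)).1
      by_contra hc
      have h3 := pow3_le (show n ≤ m by omega)
      linarith
    | P m b h =>
      show m + 2 ≤ n + 2
      have h1 := (HP_norm (show z ∈ HP m ((b : ℕ) : ℤ) from hz)).1
      by_contra hc
      have h3 := pow3_le (show n ≤ m by omega)
      linarith

end

end Pool.Agent.W2helper30.QM
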