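import Pool.Agent.W2helper30.QM6

/-!
The homeomorphisms of the surface given by polar data; rigidity.
-/

namespace Pool.Agent.W2helper30.QM

open Set Filter Topology
open Pool.Agent.V11131.Mod (E ang norm_E E_ne E_add E_zero E_int E_add_int E_eq E_cont polar
  norm_polar ang_polar ang_cont polar_unique IsDisc IsArc Far TreeSurface RTree)

noncomputable section

lemma cover {z : ℂ} (hz : z ∈ SS) (h1 : 2 < ‖z‖) : ∃ m : ℕ, ∃ a : ℤ, 1 + 3 ^ m < ‖z‖ ∧
    z ∈ HB m a := by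
  obtain ⟨m, hm1, hm2⟩ : ∃ m : ℕ, 1 + 3 ^ m < ‖z‖ ∧ ‖z‖ ≤ 1 + 3 ^ (m + 1) := by
    have hex : ∃ n : ℕ, ‖z‖ ≤ 1 + 3 ^ n := by
      obtain ⟨n, hn⟩ := pow_unbounded_of_one_lt ‖z‖ (by norm_num : (1 : ℝ) < 3)
      exact ⟨n, by linarith⟩
    classical
    have hs := Nat.find_spec hex
    have hmin := fun k => Nat.find_min hex (m := k)
    rcases hn : Nat.find hex with _ | m
    · rw [hn] at hs; norm_num at hs; linarith
    · refine ⟨m, ?_, by rw [hn] at hs; exact hs⟩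
      have := hmin m (by omega)
      push Not at this
      exact this
  have hz' : (‖z‖ - 1) * ps (ang z) ≤ 1 := hz
  set x := ang z with hx
  refine ⟨m, ⌊DD m x⌋, hm1, ‖z‖, x, polar z, ?_, ?_, hm1.le, hm2, hz'⟩
  all_goals
    have hfl := Int.floor_le (DD m x)
    have hfl2 := Int.lt_floor_add_one (DD m x)
    have hfar : ∀ n : ℤ, 1 / 10 < |DD m x - n| := by
      intro n
      by_contra hc
      push Not at hc
      have h2 := Ps_near hc
      rw [Ps_pow] at h2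
      have h3 : 1 ≤ 3 ^ m * ps x := by
        rw [← h2]; exact min_le_right _ _
      have hp : 0 < ps x := by
        by_contra hp
        push Not at hp
        have := pow3_pos m
        nlinarith
      nlinarith
    have f1 := hfar ⌊DD m x⌋
    have f2 := hfar (⌊DD m x⌋ + 1)
    push_cast at f2
    rw [abs_of_nonneg (by linarith)] at f1
    rw [abs_sub_comm, abs_of_nonneg (by linarith)] at f2
    linarith

lemma NNz_pos (m : ℕ) : (0 : ℤ) < NN m := by exact_mod_cast NN_pos m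

lemma emod_idx (m : ℕ) (a : ℤ) : ∃ i : Fin (NN m), ∃ n : ℤ, a = ((i : ℕ) : ℤ) + NN m * n := by
  have hp := NNz_pos m
  have h0 := Int.emod_nonneg a hp.ne'
  have h1 := Int.emod_lt_of_pos a hp
  have h2 := Int.emod_add_mul_ediv a (NN m)
  refine ⟨⟨(a % NN m).toNat, ?_⟩, a / NN m, ?_⟩
  · zify
    rw [Int.toNat_of_nonneg h0]
    exact h1
  · show a = ((a % NN m).toNat : ℤ) + _
    rw [Int.toNat_of_nonneg h0]
    exact h2.symm

lemma HQ_mod (m : ℕ) (a : ℤ) : ∃ i : Fin (NN m), HQ m a = HQ m ((i : ℕ) : ℤ) := by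
  obtain ⟨i, n, rfl⟩ := emod_idx m a
  exact ⟨i, HQ_shift m _ n⟩

lemma mod_shift (m : ℕ) (a n : ℤ) :
    (a + NN (m + 1) * n) % ((m : ℤ) + 2) = a % ((m : ℤ) + 2) := by
  have : (NN (m + 1) : ℤ) * n = ((m : ℤ) + 2) * (NN m * n) := by
    rw [NN_succ]; push_cast; ring
  rw [this, Int.add_mul_emod_self_left]

lemma mod_back {m b : ℕ} (h : 2 ≤ (b : ℤ) % ((m : ℤ) + 2)) : 2 ≤ b % (m + 2) := by
  have : ((b % (m + 2) : ℕ) : ℤ) = (b : ℤ) % ((m : ℤ) + 2) := by push_cast; rfl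
  rw [← this] at h
  exact_mod_cast h

lemma HP_mod (m : ℕ) (b : ℤ) (hb : 2 ≤ b % ((m : ℤ) + 2)) :
    ∃ i : Fin (NN (m + 1)), ∃ _ : 2 ≤ (i : ℕ) % (m + 2), HP m b = HP m ((i : ℕ) : ℤ) := by
  obtain ⟨i, n, rfl⟩ := emod_idx (m + 1) b
  rw [mod_shift] at hb
  exact ⟨i, mod_back hb, HP_shift m _ n⟩

lemma small_SS {z : ℂ} (h : ‖z‖ ≤ 2) : z ∈ SS := by
  show (‖z‖ - 1) * ps (ang z) ≤ 1
  have h1 := ps_nonneg (ang z)
  have h2 := ps_le_one (ang z)
  nlinarith

lemma S_eq : XX.S = SS := by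
  apply Set.Subset.antisymm
  · apply Set.iUnion_subset
    intro v
    change VV at v
    show HH v ⊆ SS
    cases v with
    | c0 => intro z hz; exact small_SS (C0_norm hz).2
    | c1 => intro z hz; exact small_SS (C1_norm hz).2
    | c2 => intro z hz; exact small_SS (C2_norm hz)
    | Q m a => intro z hz; exact HB_SS (HQ_sub hz)
    | P m b h => intro z hz; exact HB_SS (HP_sub (mod_cast' h) hz)
  · intro z hz
    by_cases h : ‖z‖ ≤ 2
    · rcases central_cover h with h1 | h1 | h1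
      · exact Set.mem_iUnion.2 ⟨VV.c2, h1⟩
      · exact Set.mem_iUnion.2 ⟨VV.c1, h1⟩
      · exact Set.mem_iUnion.2 ⟨VV.c0, h1⟩
    · push Not at h
      obtain ⟨m, a, -, h3⟩ := cover hz h
      rcases HB_cover h3 with h4 | ⟨b, hb, h4⟩
      · obtain ⟨i, hi⟩ := HQ_mod m a
        rw [hi] at h4
        exact Set.mem_iUnion.2 ⟨VV.Q m i, h4⟩
      · obtain ⟨i, hi1, hi⟩ := HP_mod m b hb
        rw [hi] at h4
        exact Set.mem_iUnion.2 ⟨VV.P m i hi1, h4⟩

/-- Level of a vertex. -/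
def lev : VV → ℕ
  | .c0 => 0
  | .c1 => 0
  | .c2 => 0
  | .Q m _ => m + 1
  | .P m _ _ => m + 1

lemma fin_lev (n : ℕ) : {v : VV | lev v ≤ n}.Finite := by
  apply Set.Finite.subset (fin_dep (n + 2))
  intro v hv
  have hv' : lev v ≤ n := hv
  show dep v ≤ n + 2
  cases v with
  | c0 => show 2 ≤ n + 2; omega
  | c1 => show 1 ≤ n + 2; omega
  | c2 => show 0 ≤ n + 2; omega
  | Q m a => have : m + 1 ≤ n := hv'
             show m + 1 ≤ n + 2; omega
  | P m a h => have : m + 1 ≤ n := hv'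
               show m + 2 ≤ n + 2; omega

/-- The vertices of level at most `n`. -/
def FF (n : ℕ) : Finset XX.V := (fin_lev n).toFinset

lemma mem_FF {n : ℕ} {v : VV} : (v : XX.V) ∈ FF n ↔ lev v ≤ n :=
  Set.Finite.mem_toFinset (fin_lev n)

lemma HH_norm_le {v : VV} {z : ℂ} (h : z ∈ HH v) : ‖z‖ ≤ 1 + 3 ^ lev v := by
  cases v with
  | c0 =>
    have := (C0_norm h).2
    show ‖z‖ ≤ 1 + 3 ^ 0
    norm_num; linarith
  | c1 =>
    have := (C1_norm h).2
    show ‖z‖ ≤ 1 + 3 ^ 0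
    norm_num; linarith
  | c2 =>
    have := C2_norm h
    show ‖z‖ ≤ 1 + 3 ^ 0
    norm_num; linarith
  | Q m a => exact (HQ_norm h).2
  | P m a hb => exact (HP_norm h).2

lemma mem_reg_FF {k : ℕ} {z : XX.Surf} : z ∈ XX.reg (FF k) ↔ ‖(z : ℂ)‖ ≤ 1 + 3 ^ k := by
  constructor
  · intro h
    simp only [TreeSurface.reg, Set.mem_iUnion] at h
    obtain ⟨v, hv, hz⟩ := h
    change VV at v
    have h1 : lev v ≤ k := mem_FF.1 hv
    have h2 := HH_norm_le (show (z : ℂ) ∈ HH v from hz)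
    have h3 := pow3_le h1
    linarith
  · intro h
    simp only [TreeSurface.reg, Set.mem_iUnion]
    have hz : (z : ℂ) ∈ SS := by rw [← S_eq]; exact z.2
    by_cases h1 : ‖(z : ℂ)‖ ≤ 2
    · rcases central_cover h1 with h2 | h2 | h2
      · exact ⟨VV.c2, mem_FF.2 (Nat.zero_le _), h2⟩
      · exact ⟨VV.c1, mem_FF.2 (Nat.zero_le _), h2⟩
      · exact ⟨VV.c0, mem_FF.2 (Nat.zero_le _), h2⟩
    · push Not at h1
      obtain ⟨m, a, h2, h3⟩ := cover hz h1
      have hm : m + 1 ≤ k := by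
        by_contra hc
        have := pow3_le (show k ≤ m by omega)
        linarith
      rcases HB_cover h3 with h4 | ⟨b, hb, h4⟩
      · obtain ⟨i, hi⟩ := HQ_mod m a
        rw [hi] at h4
        exact ⟨VV.Q m i, mem_FF.2 hm, h4⟩
      · obtain ⟨i, hi1, hi⟩ := HP_mod m b hb
        rw [hi] at h4
        exact ⟨VV.P m i hi1, mem_FF.2 hm, h4⟩

lemma scale_SS {s : ℝ} (h0 : 0 ≤ s) (h1 : s ≤ 1) {z : ℂ} (hz : z ∈ SS) : (s : ℂ) * z ∈ SS := by
  rw [polar z] at hz ⊢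
  rw [polar_mem_SS (norm_nonneg _)] at hz
  rw [← mul_assoc, ← Complex.ofReal_mul, polar_mem_SS (mul_nonneg h0 (norm_nonneg _))]
  have h2 : (s * ‖z‖ - 1) * ps (ang z) ≤ (‖z‖ - 1) * ps (ang z) := by
    apply mul_le_mul_of_nonneg_right _ (ps_nonneg _)
    have := norm_nonneg z
    nlinarith
  linarith

lemma reg_FF_connected (k : ℕ) : IsConnected (XX.reg (FF k)) := by
  have h0 : (0 : ℂ) ∈ XX.S := by rw [S_eq]; exact small_SS (by simp)
  set z0 : XX.Surf := ⟨0, h0⟩ with hz0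
  have hp := pow3_pos k
  have hz0' : z0 ∈ XX.reg (FF k) := by
    rw [mem_reg_FF]
    show ‖(0 : ℂ)‖ ≤ _
    rw [norm_zero]; linarith
  refine ⟨⟨z0, hz0'⟩, ?_⟩
  apply isPreconnected_of_forall z0
  intro z hz
  rw [mem_reg_FF] at hz
  have hzS : (z : ℂ) ∈ SS := by rw [← S_eq]; exact z.2
  have hmem : ∀ s : Set.Icc (0 : ℝ) 1, ((s : ℝ) : ℂ) * (z : ℂ) ∈ XX.S := by
    intro s
    have h9 := scale_SS s.2.1 s.2.2 hzS
    rw [← S_eq] at h9
    exact h9
  refine ⟨Set.range (fun s : Set.Icc (0 : ℝ) 1 => (⟨((s : ℝ) : ℂ) * (z : ℂ), hmem s⟩ : XX.Surf)),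
    ?_, ?_, ?_, ?_⟩
  · rintro _ ⟨s, rfl⟩
    rw [mem_reg_FF]
    show ‖((s : ℝ) : ℂ) * (z : ℂ)‖ ≤ _
    rw [norm_mul, Complex.norm_real, Real.norm_of_nonneg s.2.1]
    have := norm_nonneg (z : ℂ)
    nlinarith [s.2.1, s.2.2]
  · refine ⟨⟨0, by simp⟩, ?_⟩
    apply Subtype.ext
    show ((0 : ℝ) : ℂ) * (z : ℂ) = 0
    simp
  · refine ⟨⟨1, by simp⟩, ?_⟩
    apply Subtype.ext
    show ((1 : ℝ) : ℂ) * (z : ℂ) = z
    simp
  · apply isPreconnected_range
    apply Continuous.subtype_mk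
    fun_prop

namespace Dat

variable {P : Type} [TopologicalSpace P] {D : Dat P}

lemma Good.memS (h : D.Good) (p : P) (z : ℂ) : D.act p z ∈ XX.S ↔ z ∈ XX.S := by
  rw [S_eq]; exact h.mem p z

/-- The homeomorphism of the surface. -/
def hS (D : Dat P) (h : D.Good) (p : P) : XX.Surf ≃ₜ XX.Surf where
  toFun z := ⟨D.act p z, (h.memS p z).2 z.2⟩
  invFun z := ⟨D.inv.act p z, (h.inv.memS p z).2 z.2⟩
  left_inv z := Subtype.ext (D.act_inv_act p z)
  right_inv z := Subtype.ext (D.act_act_inv p z)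
  continuous_toFun := by
    apply Continuous.subtype_mk
    exact D.act_cont.comp (by fun_prop : Continuous (fun z : XX.Surf => (p, (z : ℂ))))
  continuous_invFun := by
    apply Continuous.subtype_mk
    exact D.inv.act_cont.comp (by fun_prop : Continuous (fun z : XX.Surf => (p, (z : ℂ))))

lemma hS_coe (D : Dat P) (h : D.Good) (p : P) (z : XX.Surf) :
    ((hS D h p z : XX.Surf) : ℂ) = D.act p z := rfl

/-- The family as a homeomorphism of the product. -/
def hP (D : Dat P) (h : D.Good) : (P × XX.Surf) ≃ₜ (P × XX.Surf) where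
  toFun a := (a.1, ⟨D.act a.1 a.2, (h.memS _ _).2 a.2.2⟩)
  invFun a := (a.1, ⟨D.inv.act a.1 a.2, (h.inv.memS _ _).2 a.2.2⟩)
  left_inv a := Prod.ext rfl (Subtype.ext (D.act_inv_act _ _))
  right_inv a := Prod.ext rfl (Subtype.ext (D.act_act_inv _ _))
  continuous_toFun := by
    apply continuous_fst.prodMk
    apply Continuous.subtype_mk
    exact D.act_cont.comp (by fun_prop : Continuous (fun a : P × XX.Surf => (a.1, (a.2 : ℂ))))
  continuous_invFun := by
    apply continuous_fst.prodMk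
    apply Continuous.subtype_mk
    exact D.inv.act_cont.comp (by fun_prop : Continuous (fun a : P × XX.Surf => (a.1, (a.2 : ℂ))))

lemma hP_apply (D : Dat P) (h : D.Good) (p : P) (z : XX.Surf) : hP D h (p, z) = (p, hS D h p z) :=
  rfl

end Dat

/-- The datum `D` is the rotation by `j` sectors of level `m` outside the unit disc, and the
identity in the disc of radius `1/2`. -/
structure Rep (D : Dat Unit) (m : ℕ) (j : ℤ) : Prop where
  q : ∀ x, D.Q () x = qq m j x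
  k : ∀ x, D.K () 1 x = Rt m j x
  s : ∀ t x, t ≤ 1 / 2 → D.K () t x = x

lemma Rep.good {D : Dat Unit} {m : ℕ} {j : ℤ} (h : Rep D m j) : D.Good := by
  intro p x
  rw [show p = () from rfl, h.q, h.k]
  exact qq_ps m j x

lemma Rep.comp {D' D : Dat Unit} {m : ℕ} {i j : ℤ} (h' : Rep D' m i) (h : Rep D m j) :
    Rep (Dat.comp D' D) m (i + j) where
  q x := by
    show D.Q () x * D'.Q () (D.K () 1 x) = _
    rw [h.q, h'.q, h.k, qq_mul]
  k x := by
    show D'.K () 1 (D.K () 1 x) = _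
    rw [h.k, h'.k, Rt_Rt]
  s t x ht := by
    show D'.K () t (D.K () t x) = _
    rw [h.s t x ht, h'.s t x ht]

lemma Rep.down {D : Dat Unit} {m : ℕ} {j : ℤ} (h : Rep D (m + 1) ((m + 2) * j)) : Rep D m j where
  q x := by rw [h.q, qq_succ]
  k x := by rw [h.k, Rt_succ]
  s := h.s

lemma Rep.act_polar {D : Dat Unit} {m : ℕ} {j : ℤ} (h : Rep D m j) {t : ℝ} (ht : 1 ≤ t) (x : ℝ) :
    D.act () ((t : ℂ) * E x) = ((1 + (t - 1) * qq m j x : ℝ) : ℂ) * E (Rt m j x) := by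
  rw [D.act_polar () (by linarith), D.rad_ge () ht, h.q, D.K1 () t x ht, h.k]

lemma ps_inv {m k : ℕ} {j a : ℤ} {x : ℝ} (h1 : (a : ℝ) + 1 / 10 ≤ DD (m + k) x)
    (h2 : DD (m + k) x ≤ a + 9 / 10) : ps (Rt m j x) = ps x := by
  have g1 : ((a + rat m k * j : ℤ) : ℝ) + 1 / 10 ≤ DD (m + k) (Rt m j x) := by
    rw [D_Rt_ge]; push_cast; linarith
  have g2 : DD (m + k) (Rt m j x) ≤ ((a + rat m k * j : ℤ) : ℝ) + 9 / 10 := by
    rw [D_Rt_ge]; push_cast; linarith
  have e2 := ps_far (far_W g1 g2)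
  have e3 := ps_far (far_W h1 h2)
  rw [Ps_Rt, ← e3] at e2
  exact mul_left_cancel₀ (pow3_pos (m + k)).ne' e2

lemma tn_inv (m k : ℕ) (j : ℤ) (x : ℝ) :
    tn (m + k) (DD (m + k + 1) (Rt m j x)) = tn (m + k) (DD (m + k + 1) x) := by
  have h1 := D_Rt_ge m (k + 1) j x
  rw [← add_assoc] at h1
  rw [h1]
  have h2 := tn_add (m + k) (DD (m + k + 1) x) (rat m k * j)
  have e : (rat m (k + 1) * j : ℤ) = (((m + k : ℕ) : ℤ) + 2) * (rat m k * j) := by
    simp only [rat]; push_cast; ring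
  rw [e]
  exact h2

lemma Rep.act_HQ {D : Dat Unit} {m k : ℕ} {j a : ℤ} (h : Rep D m j) {z : ℂ}
    (hz : z ∈ HQ (m + k) a) : D.act () z ∈ HQ (m + k) (a + rat m k * j) := by
  obtain ⟨t, x, rfl, h1, h2, h3, h4, h5, h6⟩ := hz
  have hp := pow3_pos (m + k)
  have ht : 1 ≤ t := by linarith
  have e1 := ps_inv (j := j) h1 h2
  rw [h.act_polar ht, qq_one_of e1, mul_one, add_sub_cancel]
  refine ⟨t, Rt m j x, rfl, ?_, ?_, h3, h4, by rw [e1]; exact h5, by rw [tn_inv]; exact h6⟩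
  · rw [D_Rt_ge]; push_cast; linarith
  · rw [D_Rt_ge]; push_cast; linarith

lemma Rep.act_HP {D : Dat Unit} {m k : ℕ} {j b : ℤ} (h : Rep D m j) {z : ℂ}
    (hb : 2 ≤ b % (((m + k : ℕ) : ℤ) + 2)) (hz : z ∈ HP (m + k) b) :
    D.act () z ∈ HP (m + k) (b + rat m (k + 1) * j) := by
  obtain ⟨t, x, rfl, h1, h2, h3⟩ := hz
  have hp := pow3_pos (m + k + 1)
  have h0 := lp_pos (m + k) b x
  have ha := abs_nonneg (DD (m + k + 1) x - b)
  have q1 := mul_nonneg hp.le (show 0 ≤ 2 / 5 + 12 * |DD (m + k + 1) x - b| by linarith)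
  have ht : 1 ≤ t := by linarith
  have g1 := gap_sector (ne_zero_of_two hb) (show |DD (m + k + 1) x - b| ≤ 1 / 10 by linarith)
  have e1 := ps_inv (m := m) (k := k) (j := j) (x := x) (a := b / (((m + k : ℕ) : ℤ) + 2))
    (by linarith [g1.1]) (by linarith [g1.2])
  rw [h.act_polar ht, qq_one_of e1, mul_one, add_sub_cancel]
  have e2 : DD (m + k + 1) (Rt m j x) - ((b + rat m (k + 1) * j : ℤ) : ℝ) =
      DD (m + k + 1) x - b := by
    have h1 := D_Rt_ge m (k + 1) j x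
    rw [← add_assoc] at h1
    rw [h1]; push_cast; ring
  exact ⟨t, Rt m j x, rfl, by rw [e2]; exact h1, by rw [e2]; exact h2, h3⟩

lemma Rep.norm_le {D : Dat Unit} {m : ℕ} {j : ℤ} (h : Rep D m j) {z : ℂ} (hz : z ∈ SS)
    (hn : ‖z‖ ≤ 1 + 3 ^ m) : ‖D.act () z‖ ≤ 1 + 3 ^ m := by
  have hp := pow3_pos m
  rcases le_total ‖z‖ 1 with h1 | h1
  · rw [D.norm_act, D.rad_le _ h1]; exact hn
  · rw [D.norm_act, D.rad_ge _ h1, h.q]
    have h2 : 0 ≤ (‖z‖ - 1) * qq m j (ang z) := mul_nonneg (by linarith) (qq_pos _ _ _).le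
    suffices (‖z‖ - 1) * qq m j (ang z) ≤ 3 ^ m by linarith
    by_cases hc : 3 ^ m * ps (Rt m j (ang z)) < 1
    · have h1 := ps_Rt_lt (j := -j) hc
      rw [Rt_Rt, neg_add_cancel, Rt_zero] at h1
      rw [qq_one_of h1.symm, mul_one]
      linarith
    · push Not at hc
      have h1 : (‖z‖ - 1) * qq m j (ang z) * ps (Rt m j (ang z)) ≤ 1 := by
        rw [mul_assoc, qq_ps]; exact hz
      calc (‖z‖ - 1) * qq m j (ang z) = ((‖z‖ - 1) * qq m j (ang z)) * 1 := by ring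
        _ ≤ ((‖z‖ - 1) * qq m j (ang z)) * (3 ^ m * ps (Rt m j (ang z))) :=
            mul_le_mul_of_nonneg_left hc h2
        _ = 3 ^ m * ((‖z‖ - 1) * qq m j (ang z) * ps (Rt m j (ang z))) := by ring
        _ ≤ 3 ^ m * 1 := mul_le_mul_of_nonneg_left h1 hp.le
        _ = 3 ^ m := mul_one _

lemma Rep.inv {D : Dat Unit} {m : ℕ} {j : ℤ} (h : Rep D m j) : Rep D.inv m (-j) where
  q x := by
    show (D.Q () (D.Ki () 1 x))⁻¹ = _
    have h1 := D.K_Ki () 1 x
    rw [h.k] at h1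
    have h2 : D.Ki () 1 x = Rt m (-j) x := by
      rw [← h1, Rt_Rt, neg_add_cancel, Rt_zero, h1]
    rw [h.q, h2]
    have h3 := qq_mul m j (-j) x
    rw [add_neg_cancel, qq_zero] at h3
    exact inv_eq_of_mul_eq_one_left h3
  k x := by
    show D.Ki () 1 x = _
    have h1 := D.K_Ki () 1 x
    rw [h.k] at h1
    rw [← h1, Rt_Rt, neg_add_cancel, Rt_zero, h1]
  s t x ht := by
    show D.Ki () t x = x
    have h1 := D.K_Ki () t x
    rwa [h.s t _ ht] at h1

/-- If the datum maps one polygon into another and the inverse maps back, the images agree. -/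
lemma Rep.img {D : Dat Unit} {m : ℕ} {j : ℤ} (h : Rep D m j) {v w : XX.V} {A B : Set ℂ}
    (hv : XX.H v = A) (hw : XX.H w = B) (h1 : ∀ z ∈ A, D.act () z ∈ B)
    (h2 : ∀ z ∈ B, D.inv.act () z ∈ A) : D.hS h.good () '' XX.poly v = XX.poly w := by
  ext z
  constructor
  · rintro ⟨y, hy, rfl⟩
    have hy' : (y : ℂ) ∈ A := by rw [← hv]; exact hy
    show D.act () y ∈ XX.H w
    rw [hw]
    exact h1 _ hy'
  · intro hz
    have hz' : (z : ℂ) ∈ B := by rw [← hw]; exact hz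
    refine ⟨(D.hS h.good ()).symm z, ?_, (D.hS h.good ()).apply_symm_apply z⟩
    show D.inv.act () z ∈ XX.H v
    rw [hv]
    exact h2 _ hz'

lemma Rep.img_Q {D : Dat Unit} {m k : ℕ} {j : ℤ} (h : Rep D m j) {v w : XX.V} {a : ℤ}
    (hv : XX.H v = HQ (m + k) a) (hw : XX.H w = HQ (m + k) (a + rat m k * j)) :
    D.hS h.good () '' XX.poly v = XX.poly w := by
  apply h.img hv hw
  · intro z hz; exact h.act_HQ hz
  · intro z hz
    have := h.inv.act_HQ hz
    rwa [show a + rat m k * j + rat m k * -j = a by ring] at this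

lemma rat_mod (m k : ℕ) (b j : ℤ) :
    (b + rat m (k + 1) * j) % (((m + k : ℕ) : ℤ) + 2) = b % (((m + k : ℕ) : ℤ) + 2) := by
  have e : (rat m (k + 1) * j : ℤ) = (((m + k : ℕ) : ℤ) + 2) * (rat m k * j) := by
    simp only [rat]; push_cast; ring
  rw [e, Int.add_mul_emod_self_left]

lemma Rep.img_P {D : Dat Unit} {m k : ℕ} {j : ℤ} (h : Rep D m j) {v w : XX.V} {b : ℤ}
    (hb : 2 ≤ b % (((m + k : ℕ) : ℤ) + 2))
    (hv : XX.H v = HP (m + k) b) (hw : XX.H w = HP (m + k) (b + rat m (k + 1) * j)) :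
    D.hS h.good () '' XX.poly v = XX.poly w := by
  apply h.img hv hw
  · intro z hz; exact h.act_HP hb hz
  · intro z hz
    have := h.inv.act_HP (by rw [rat_mod]; exact hb) hz
    rwa [show b + rat m (k + 1) * j + rat m (k + 1) * -j = b by ring] at this

lemma Rep.mat {D : Dat Unit} {m : ℕ} {j : ℤ} (h : Rep D m j) :
    XX.Match (D.hS h.good ()) (FF m) (FF m) := by
  refine ⟨?_, ?_, ?_⟩
  · ext z
    constructor
    · rintro ⟨y, hy, rfl⟩
      rw [mem_reg_FF] at hy ⊢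
      exact h.norm_le (by rw [← S_eq]; exact y.2) hy
    · intro hz
      refine ⟨(D.hS h.good ()).symm z, ?_, (D.hS h.good ()).apply_symm_apply z⟩
      rw [mem_reg_FF] at hz ⊢
      exact h.inv.norm_le (by rw [← S_eq]; exact z.2) hz
  · intro v hv0
    have hv : ¬ lev v ≤ m := fun hc => hv0 (mem_FF.2 hc)
    clear hv0
    change VV at v
    cases v with
    | c0 => exact absurd (Nat.zero_le m) hv
    | c1 => exact absurd (Nat.zero_le m) hv
    | c2 => exact absurd (Nat.zero_le m) hv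
    | Q l a =>
      have hl : ¬ (l + 1 ≤ m) := hv
      obtain ⟨k, rfl⟩ := Nat.exists_eq_add_of_le (show m ≤ l by omega)
      obtain ⟨i, hi⟩ := HQ_mod (m + k) (((a : ℕ) : ℤ) + rat m k * j)
      exact ⟨VV.Q (m + k) i, fun hc => hl (mem_FF.1 hc), h.img_Q (a := ((a : ℕ) : ℤ)) rfl hi.symm⟩
    | P l b hb =>
      have hl : ¬ (l + 1 ≤ m) := hv
      obtain ⟨k, rfl⟩ := Nat.exists_eq_add_of_le (show m ≤ l by omega)
      have hb' := mod_cast' hb
      obtain ⟨i, hi1, hi⟩ := HP_mod (m + k) (((b : ℕ) : ℤ) + rat m (k + 1) * j)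
        (by rw [rat_mod]; exact hb')
      exact ⟨VV.P (m + k) i hi1, fun hc => hl (mem_FF.1 hc),
        h.img_P (b := ((b : ℕ) : ℤ)) hb' rfl hi.symm⟩
  · intro v hv0
    have hv : ¬ lev v ≤ m := fun hc => hv0 (mem_FF.2 hc)
    clear hv0
    change VV at v
    cases v with
    | c0 => exact absurd (Nat.zero_le m) hv
    | c1 => exact absurd (Nat.zero_le m) hv
    | c2 => exact absurd (Nat.zero_le m) hv
    | Q l a =>
      have hl : ¬ (l + 1 ≤ m) := hv
      obtain ⟨k, rfl⟩ := Nat.exists_eq_add_of_le (show m ≤ l by omega)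
      obtain ⟨i, hi⟩ := HQ_mod (m + k) (((a : ℕ) : ℤ) - rat m k * j)
      refine ⟨VV.Q (m + k) i, fun hc => hl (mem_FF.1 hc),
        h.img_Q (a := ((a : ℕ) : ℤ) - rat m k * j) hi.symm ?_⟩
      rw [sub_add_cancel]; rfl
    | P l b hb =>
      have hl : ¬ (l + 1 ≤ m) := hv
      obtain ⟨k, rfl⟩ := Nat.exists_eq_add_of_le (show m ≤ l by omega)
      have hb' := mod_cast' hb
      have hb2 : 2 ≤ (((b : ℕ) : ℤ) - rat m (k + 1) * j) % (((m + k : ℕ) : ℤ) + 2) := by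
        have := rat_mod m k (((b : ℕ) : ℤ) - rat m (k + 1) * j) j
        rw [sub_add_cancel] at this
        rw [← this]
        exact hb'
      obtain ⟨i, hi1, hi⟩ := HP_mod (m + k) (((b : ℕ) : ℤ) - rat m (k + 1) * j) hb2
      refine ⟨VV.P (m + k) i hi1, fun hc => hl (mem_FF.1 hc),
        h.img_P (b := ((b : ℕ) : ℤ) - rat m (k + 1) * j) hb2 hi.symm ?_⟩
      rw [sub_add_cancel]; rfl

lemma Rep.rigid {D : Dat Unit} {m : ℕ} {j : ℤ} (h : Rep D m j) :
    XX.AsympRigid (D.hS h.good ()) :=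
  ⟨FF m, FF m, reg_FF_connected m, reg_FF_connected m, h.mat⟩

end

end Pool.Agent.W2helper30.QM
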