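import Pool.Agent.W2helper30.QM7

/-!
Orientation, punctures, isotopies, and the classes in the mapping class group.
-/

namespace Pool.Agent.W2helper30.QM

open Set Filter Topology
open Pool.Agent.V11131.Mod (E ang norm_E E_ne E_add E_zero E_int E_add_int E_eq E_cont polar
  norm_polar ang_polar ang_cont polar_unique IsDisc IsArc Far TreeSurface RTree)

noncomputable section

/-- The straight homotopy from the identity to the datum. -/
def Dat.lin (D : Dat Unit) : Dat unitInterval where
  Q s x := (D.Q () x) ^ (s : ℝ)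
  K s t x := (1 - s) * x + s * D.K () t x
  Qc := by
    apply Continuous.rpow
    · exact D.Qc.comp (by fun_prop : Continuous (fun a : unitInterval × ℝ => ((), a.2)))
    · exact continuous_subtype_val.comp continuous_fst
    · intro a; exact Or.inl (D.Qp _ _).ne'
  Kc := by
    apply Continuous.add
    · fun_prop
    · apply Continuous.mul (by fun_prop)
      exact D.Kc.comp (by fun_prop :
        Continuous (fun a : unitInterval × ℝ × ℝ => ((), a.2.1, a.2.2)))
  Qp s x := Real.rpow_pos_of_pos (D.Qp _ _) _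
  Qn s x n := by rw [D.Qn]
  Kn s t x n := by rw [D.Kn]; ring
  Km s t := by
    intro x y h
    have h2 := D.Km () t h
    have h0 := s.2.1
    have h1 := s.2.2
    show (1 - (s : ℝ)) * x + s * D.K () t x < (1 - (s : ℝ)) * y + s * D.K () t y
    rcases h0.eq_or_lt with h3 | h3
    · simp only [← h3]; simpa using h
    · have : (1 - (s : ℝ)) * x ≤ (1 - s) * y := mul_le_mul_of_nonneg_left h.le (by linarith)
      have : (s : ℝ) * D.K () t x < s * D.K () t y := mul_lt_mul_of_pos_left h2 h3
      linarith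
  K1 s t x ht := by rw [D.K1 () t x ht]

lemma Dat.lin_zero (D : Dat Unit) (z : ℂ) : D.lin.act 0 z = z := by
  apply Dat.act_of
  · intro x
    show (D.Q () x) ^ ((0 : unitInterval) : ℝ) = 1
    rw [show ((0 : unitInterval) : ℝ) = 0 from rfl, Real.rpow_zero]
  · intro t x
    show (1 - ((0 : unitInterval) : ℝ)) * x + ((0 : unitInterval) : ℝ) * D.K () t x = x
    rw [show ((0 : unitInterval) : ℝ) = 0 from rfl]; ring

lemma Dat.act_congr {P P' : Type} [TopologicalSpace P] [TopologicalSpace P'] {D : Dat P}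
    {D' : Dat P'} {p : P} {p' : P'} {z : ℂ} (hQ : 1 ≤ ‖z‖ → ∀ x, D.Q p x = D'.Q p' x)
    (hK : ∀ x, D.K p ‖z‖ x = D'.K p' ‖z‖ x) : D.act p z = D'.act p' z := by
  unfold Dat.act
  rw [hK]
  congr 2
  rcases le_total ‖z‖ 1 with h | h
  · rw [D.rad_le _ h, D'.rad_le _ h]
  · rw [D.rad_ge _ h, D'.rad_ge _ h, hQ h]

lemma Dat.lin_one (D : Dat Unit) (z : ℂ) : D.lin.act 1 z = D.act () z := by
  apply Dat.act_congr
  · intro _ x
    show (D.Q () x) ^ ((1 : unitInterval) : ℝ) = D.Q () x
    rw [show ((1 : unitInterval) : ℝ) = 1 from rfl, Real.rpow_one]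
  · intro x
    show (1 - ((1 : unitInterval) : ℝ)) * x + ((1 : unitInterval) : ℝ) * D.K () ‖z‖ x = _
    rw [show ((1 : unitInterval) : ℝ) = 1 from rfl]; ring

lemma Dat.orient (D : Dat Unit) (h : D.Good) : XX.OrientPres (D.hS h ()) := by
  refine ⟨⟨⟨fun p => ⟨D.lin.act p.1 (p.2.1.1 : ℂ) - D.lin.act p.1 (p.2.1.2 : ℂ), ?_⟩, ?_⟩,
    ?_, ?_⟩⟩
  · intro h
    have h1 := D.lin.act_inj p.1 (sub_eq_zero.1 h)
    exact p.2.2 (Subtype.ext h1)
  · apply Continuous.subtype_mk
    apply Continuous.sub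
    · exact D.lin.act_cont.comp (by fun_prop :
        Continuous (fun p : unitInterval × XX.Conf => (p.1, (p.2.1.1 : ℂ))))
    · exact D.lin.act_cont.comp (by fun_prop :
        Continuous (fun p : unitInterval × XX.Conf => (p.1, (p.2.1.2 : ℂ))))
  · intro q
    apply Subtype.ext
    show D.lin.act 0 (q.1.1 : ℂ) - D.lin.act 0 (q.1.2 : ℂ) = (q.1.1 : ℂ) - q.1.2
    rw [D.lin_zero, D.lin_zero]
  · intro q
    apply Subtype.ext
    show D.lin.act 1 (q.1.1 : ℂ) - D.lin.act 1 (q.1.2 : ℂ) =
      D.act () (q.1.1 : ℂ) - D.act () q.1.2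
    rw [D.lin_one, D.lin_one]

/-! Punctures -/

/-- Explicit description of the set of the outer punctures. -/
def PP : Set ℂ := {z | ∃ t x : ℝ, z = t * E x ∧ (t - 1) * ps x = 1 / 2 ∧ 1 ≤ t ∧
  ∃ n : ℕ, ∃ i : ℤ, DD n x = i}

lemma symm_add (m : ℕ) (y : ℝ) (n : ℤ) :
    (DD m).symm (y + NN m * n) = (DD m).symm y + n := by
  apply (DD m).injective
  rw [DD_add_int]
  have e1 : DD m ((DD m).symm (y + NN m * n)) = y + NN m * n := (DD m).apply_symm_apply _
  have e2 : DD m ((DD m).symm y) = y := (DD m).apply_symm_apply _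
  rw [e1, e2]

lemma gp_shift (m : ℕ) (b n : ℤ) : gp m (b + NN (m + 1) * n) = gp m b := by
  unfold gp
  have := symm_add (m + 1) (b : ℝ) n
  push_cast
  rw [this, E_add_int]

lemma gp_PP {m : ℕ} {b : ℤ} (hb : b % ((m : ℤ) + 2) ≠ 0) : gp m b ∈ PP := by
  have hp := pow3_pos (m + 1)
  have e := D_gp m b
  have h := ps_gap hb (x := (DD (m + 1)).symm (b : ℝ))
    (by rw [e, sub_self, abs_zero]; norm_num)
  refine ⟨1 + 3 ^ (m + 1) / 2, _, rfl, ?_, by linarith, m + 1, b, e⟩
  rw [add_sub_cancel_left]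
  linarith

lemma emod_one (m : ℕ) (a : ℤ) : (((m : ℤ) + 2) * a + 1) % ((m : ℤ) + 2) = 1 := by
  rw [add_comm, Int.add_mul_emod_self_left]
  apply Int.emod_eq_of_lt (by norm_num)
  have : (0 : ℤ) ≤ m := by positivity
  linarith

lemma punct_iff (z : ℂ) : (∃ v : VV, z = pp v) ↔ z = 0 ∨ z = ((2 / 5 : ℝ) : ℂ) ∨ z ∈ PP := by
  constructor
  · rintro ⟨v, rfl⟩
    cases v with
    | c0 =>
      right; right
      refine ⟨3 / 2, 0, ?_, ?_, by norm_num, 0, 0, by simp [DD_zero]⟩
      · show ((3 / 2 : ℝ) : ℂ) = _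
        rw [E_zero, mul_one]
      · have : ps 0 = 1 := by
          apply Ps_near (m := 0) (n := 0)
          rw [DD_zero]; simp
        rw [this]; norm_num
    | c1 => exact Or.inr (Or.inl rfl)
    | c2 => exact Or.inl rfl
    | Q m a =>
      right; right
      apply gp_PP
      rw [emod_one]; norm_num
    | P m b h =>
      right; right
      apply gp_PP
      exact ne_zero_of_two (mod_cast' h)
  · rintro (h | h | h)
    · exact ⟨.c2, h⟩
    · exact ⟨.c1, h⟩
    · obtain ⟨t, x, rfl, h1, h0, hn⟩ := h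
      classical
      have hs := Nat.find_spec hn
      have hmin := fun k => Nat.find_min hn (m := k)
      rcases hm : Nat.find hn with _ | m
      · rw [hm] at hs
        obtain ⟨i, hi⟩ := hs
        rw [DD_zero] at hi
        refine ⟨.c0, ?_⟩
        have e1 : ps x = 1 := by
          apply Ps_near (m := 0) (n := i)
          rw [DD_zero, hi]; simp
        rw [e1, mul_one] at h1
        rw [hi, E_int, mul_one, show t = 3 / 2 by linarith]
        rfl
      · rw [hm] at hs
        obtain ⟨i, hi⟩ := hs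
        have hni : ∀ j : ℤ, DD m x ≠ j := by
          intro j hj
          exact hmin m (by omega) ⟨j, hj⟩
        have hi0 : i % ((m : ℤ) + 2) ≠ 0 := by
          intro hc
          obtain ⟨k, hk⟩ := Int.dvd_of_emod_eq_zero hc
          apply hni k
          apply (EI m).injective
          rw [← DD_succ, hi, EI_int, hk]
          push_cast; ring
        have h3 := ps_gap hi0 (x := x) (by rw [hi, sub_self, abs_zero]; norm_num)
        have hp := pow3_pos (m + 1)
        have ht : t = 1 + 3 ^ (m + 1) / 2 := by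
          have hps : ps x ≠ 0 := by
            intro h; rw [h] at h3; norm_num at h3
          have : (t - 1) * ps x = (3 ^ (m + 1) / 2) * ps x := by
            rw [h1]; linarith
          have := mul_right_cancel₀ hps this
          linarith
        have hx : x = (DD (m + 1)).symm (i : ℝ) := by
          rw [← hi]; exact ((DD (m + 1)).symm_apply_apply x).symm
        have e : (t : ℂ) * E x = gp m i := by rw [ht, hx]; rfl
        have hm0 : (0 : ℤ) < (m : ℤ) + 2 := by positivity
        have q0 := Int.emod_nonneg i hm0.ne'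
        have q2 := Int.emod_add_mul_ediv i ((m : ℤ) + 2)
        by_cases h5 : i % ((m : ℤ) + 2) = 1
        · obtain ⟨a, n, han⟩ := emod_idx m (i / ((m : ℤ) + 2))
          refine ⟨.Q m a, ?_⟩
          rw [e]
          show gp m i = gp m (((m : ℤ) + 2) * ((a : ℕ) : ℤ) + 1)
          rw [← gp_shift m (((m : ℤ) + 2) * ((a : ℕ) : ℤ) + 1) n]
          congr 1
          rw [← q2, h5, han, NN_succ]
          push_cast; ring
        · have h6 : 2 ≤ i % ((m : ℤ) + 2) := by omega
          obtain ⟨b, n, rfl⟩ := emod_idx (m + 1) i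
          rw [mod_shift] at h6
          refine ⟨.P m b (mod_back h6), ?_⟩
          rw [e, gp_shift]
          rfl

lemma mem_punct (z : XX.Surf) : z ∈ XX.punct ↔
    (z : ℂ) = 0 ∨ (z : ℂ) = ((2 / 5 : ℝ) : ℂ) ∨ (z : ℂ) ∈ PP := punct_iff z

lemma Rep.act_small {D : Dat Unit} {m : ℕ} {j : ℤ} (h : Rep D m j) {z : ℂ} (hz : ‖z‖ ≤ 1 / 2) :
    D.act () z = z := by
  unfold Dat.act
  rw [D.rad_le _ (by linarith), h.s _ _ hz]
  exact (polar z).symm

lemma Rep.act_PP {D : Dat Unit} {m : ℕ} {j : ℤ} (h : Rep D m j) {z : ℂ} (hz : z ∈ PP) :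
    D.act () z ∈ PP := by
  obtain ⟨t, x, rfl, h1, h0, n, i, hi⟩ := hz
  rw [h.act_polar h0]
  have hD : ∀ k : ℕ, ∃ i' : ℤ, DD (n + k) x = i' := by
    intro k
    induction k with
    | zero => exact ⟨i, hi⟩
    | succ k ih =>
      obtain ⟨i', hi'⟩ := ih
      refine ⟨(((n + k : ℕ) : ℤ) + 2) * i', ?_⟩
      rw [← add_assoc, DD_succ, hi', EI_int]
      push_cast; ring
  obtain ⟨i', hi'⟩ := hD m
  refine ⟨_, _, rfl, ?_, ?_, m + n, i' + rat m n * j, ?_⟩
  · rw [add_sub_cancel_left, mul_assoc, qq_ps]; exact h1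
  · have := mul_nonneg (show 0 ≤ t - 1 by linarith) (qq_pos m j x).le
    linarith
  · rw [D_Rt_ge, add_comm m n, hi']
    push_cast; ring

lemma Rep.act_punct {D : Dat Unit} {m : ℕ} {j : ℤ} (h : Rep D m j) {z : XX.Surf}
    (hz : z ∈ XX.punct) : D.hS h.good () z ∈ XX.punct := by
  rw [mem_punct] at hz ⊢
  rw [Dat.hS_coe]
  rcases hz with h1 | h1 | h1
  · left
    rw [h1, h.act_small (by simp)]
  · right; left
    rw [h1, h.act_small (by rw [Complex.norm_real]; norm_num)]
  · right; right
    exact h.act_PP h1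

lemma Rep.punct {D : Dat Unit} {m : ℕ} {j : ℤ} (h : Rep D m j) :
    D.hS h.good () '' XX.punct = XX.punct := by
  ext z
  constructor
  · rintro ⟨y, hy, rfl⟩
    exact h.act_punct hy
  · intro hz
    exact ⟨(D.hS h.good ()).symm z, h.inv.act_punct hz, (D.hS h.good ()).apply_symm_apply z⟩

/-- The element of the group of asymptotically rigid homeomorphisms. -/
def gel {D : Dat Unit} {m : ℕ} {j : ℤ} (h : Rep D m j) : XX.ARG :=
  ⟨D.hS h.good (), h.rigid, D.orient h.good, h.punct⟩

/-- The class in the mapping class group. -/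
def cls {D : Dat Unit} {m : ℕ} {j : ℤ} (h : Rep D m j) : XX.MCG := QuotientGroup.mk (gel h)

lemma gel_comp {D' D : Dat Unit} {m : ℕ} {i j : ℤ} (h' : Rep D' m i) (h : Rep D m j) :
    gel h' * gel h = gel (h'.comp h) := by
  apply Subtype.ext
  apply Homeomorph.ext
  intro z
  apply Subtype.ext
  exact Dat.act_comp D' D () z

lemma cls_comp {D' D : Dat Unit} {m : ℕ} {i j : ℤ} (h' : Rep D' m i) (h : Rep D m j) :
    cls h' * cls h = cls (h'.comp h) := by
  unfold cls
  rw [← gel_comp]
  rfl

/-- The family joining two data with the same outer part. -/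
def join (D D' : Dat Unit) (_hK : ∀ x, D.K () 1 x = D'.K () 1 x) : Dat unitInterval where
  Q _ x := D.Q () x
  K s t x := (1 - s) * D.K () t x + s * D'.K () t x
  Qc := D.Qc.comp (by fun_prop : Continuous (fun a : unitInterval × ℝ => ((), a.2)))
  Kc := by
    have h : Continuous (fun a : unitInterval × ℝ × ℝ => ((), a.2.1, a.2.2)) := by fun_prop
    apply Continuous.add
    · exact Continuous.mul (by fun_prop) (D.Kc.comp h)
    · exact Continuous.mul (by fun_prop) (D'.Kc.comp h)
  Qp s x := D.Qp _ _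
  Qn s x n := D.Qn _ _ _
  Kn s t x n := by rw [D.Kn, D'.Kn]; ring
  Km s t := by
    intro x y h
    have h2 := D.Km () t h
    have h2' := D'.Km () t h
    have h0 := s.2.1
    have h1 := s.2.2
    show (1 - (s : ℝ)) * D.K () t x + s * D'.K () t x <
      (1 - (s : ℝ)) * D.K () t y + s * D'.K () t y
    rcases h0.eq_or_lt with h3 | h3
    · simp only [← h3]; simpa using h2
    · have : (1 - (s : ℝ)) * D.K () t x ≤ (1 - s) * D.K () t y :=
        mul_le_mul_of_nonneg_left h2.le (by linarith)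
      have : (s : ℝ) * D'.K () t x < s * D'.K () t y := mul_lt_mul_of_pos_left h2' h3
      linarith
  K1 s t x ht := by rw [D.K1 () t x ht, D'.K1 () t x ht]

lemma PP_norm {z : ℂ} (h : z ∈ PP) : 1 ≤ ‖z‖ := by
  obtain ⟨t, x, rfl, h1, h0, -⟩ := h
  rw [norm_polar (by linarith)]
  exact h0

lemma punct_norm {z : XX.Surf} (h : z ∈ XX.punct) : ‖(z : ℂ)‖ ≤ 1 / 2 ∨ 1 ≤ ‖(z : ℂ)‖ := by
  rw [mem_punct] at h
  rcases h with h | h | h
  · left; rw [h]; simp
  · left; rw [h, Complex.norm_real]; norm_num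
  · right; exact PP_norm h

/-- Two representatives of the same rotation are isotopic. -/
lemma isotopic {D D' : Dat Unit} {m : ℕ} {j : ℤ} (h : Rep D m j) (h' : Rep D' m j) :
    XX.IsotopicId (D'.hS h'.good () * (D.hS h.good ())⁻¹) := by
  have hK : ∀ x, D.K () 1 x = D'.K () 1 x := by intro x; rw [h.k, h'.k]
  set J := join D D' hK with hJ
  have hJg : J.Good := by
    intro s x
    have e : J.K s 1 x = D.K () 1 x := by
      show (1 - (s : ℝ)) * D.K () 1 x + s * D'.K () 1 x = _
      rw [← hK]; ring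
    rw [e]
    exact h.good () x
  set ι : (unitInterval × XX.Surf) ≃ₜ (unitInterval × XX.Surf) :=
    (Homeomorph.refl unitInterval).prodCongr (D.hS h.good ()).symm with hι
  refine ⟨ι.trans (J.hP hJg), ?_, ?_, ?_, ?_⟩
  · intro a; rfl
  · intro z
    show (0, J.hS hJg 0 ((D.hS h.good ()).symm z)) = ((0 : unitInterval), z)
    congr 1
    have e : ∀ w : XX.Surf, J.hS hJg 0 w = D.hS h.good () w := by
      intro w
      apply Subtype.ext
      rw [Dat.hS_coe, Dat.hS_coe]
      apply Dat.act_congr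
      · intro _ x; rfl
      · intro x
        show (1 - ((0 : unitInterval) : ℝ)) * D.K () ‖(w : ℂ)‖ x +
          ((0 : unitInterval) : ℝ) * D'.K () ‖(w : ℂ)‖ x = _
        rw [show ((0 : unitInterval) : ℝ) = 0 from rfl]; ring
    rw [e]
    exact (D.hS h.good ()).apply_symm_apply z
  · intro z
    show (1, J.hS hJg 1 ((D.hS h.good ()).symm z)) =
      ((1 : unitInterval), D'.hS h'.good () ((D.hS h.good ()).symm z))
    congr 1
    apply Subtype.ext
    rw [Dat.hS_coe, Dat.hS_coe]
    apply Dat.act_congr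
    · intro _ x
      show D.Q () x = D'.Q () x
      rw [h.q, h'.q]
    · intro x
      show (1 - ((1 : unitInterval) : ℝ)) * D.K () _ x + ((1 : unitInterval) : ℝ) * D'.K () _ x = _
      rw [show ((1 : unitInterval) : ℝ) = 1 from rfl]; ring
  · intro s z hz
    show (s, J.hS hJg s ((D.hS h.good ()).symm z)) = (s, z)
    congr 1
    have hw : (D.hS h.good ()).symm z ∈ XX.punct := h.inv.act_punct hz
    set w := (D.hS h.good ()).symm z with hwd
    have ez : D.hS h.good () w = z := (D.hS h.good ()).apply_symm_apply z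
    conv_rhs => rw [← ez]
    apply Subtype.ext
    rw [Dat.hS_coe, Dat.hS_coe]
    apply Dat.act_congr
    · intro _ x; rfl
    · intro x
      show (1 - (s : ℝ)) * D.K () ‖(w : ℂ)‖ x + (s : ℝ) * D'.K () ‖(w : ℂ)‖ x = _
      rcases punct_norm hw with hn | hn
      · rw [h.s _ _ hn, h'.s _ _ hn]; ring
      · rw [D.K1 () _ x hn, D'.K1 () _ x hn, hK]; ring

lemma cls_indep {D D' : Dat Unit} {m : ℕ} {j : ℤ} (h : Rep D m j) (h' : Rep D' m j) :
    cls h = cls h' := by
  have key : gel h' * (gel h)⁻¹ ∈ XX.Iso0 := isotopic h h'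
  unfold cls
  rw [QuotientGroup.eq]
  have h2 := XX.Iso0_normal.mem_comm key
  have h3 := XX.Iso0.inv_mem h2
  rw [mul_inv_rev, inv_inv] at h3
  have h4 := XX.Iso0_normal.mem_comm h3
  have h5 := XX.Iso0.inv_mem h4
  rwa [mul_inv_rev, inv_inv] at h5

/-- The interpolating function. -/
def sg (t : ℝ) : ℝ := max 0 (min 1 (2 * t - 1))

lemma sg_cont : Continuous sg := by unfold sg; fun_prop
lemma sg_nonneg (t : ℝ) : 0 ≤ sg t := le_max_left _ _
lemma sg_le (t : ℝ) : sg t ≤ 1 := max_le zero_le_one (min_le_left _ _)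
lemma sg_one {t : ℝ} (h : 1 ≤ t) : sg t = 1 := by
  unfold sg
  rw [min_eq_left (by linarith), max_eq_right zero_le_one]
lemma sg_zero {t : ℝ} (h : t ≤ 1 / 2) : sg t = 0 := by
  unfold sg
  apply max_eq_left
  exact (min_le_right _ _).trans (by linarith)

/-- The basic representative. -/
def base (m : ℕ) (j : ℤ) : Dat Unit where
  Q _ x := qq m j x
  K _ t x := (1 - sg t) * x + sg t * Rt m j x
  Qc := (qq_cont m j).comp continuous_snd
  Kc := by
    have h1 : Continuous (fun a : Unit × ℝ × ℝ => sg a.2.1) := sg_cont.comp (by fun_prop)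
    have h2 : Continuous (fun a : Unit × ℝ × ℝ => Rt m j a.2.2) :=
      (Rt_cont m j).comp (by fun_prop)
    have h3 : Continuous (fun a : Unit × ℝ × ℝ => a.2.2) := by fun_prop
    exact ((continuous_const.sub h1).mul h3).add (h1.mul h2)
  Qp _ x := qq_pos m j x
  Qn _ x n := qq_add_int m j x n
  Kn _ t x n := by rw [Rt_add_int]; ring
  Km _ t := by
    intro x y h
    have h2 : Rt m j x < Rt m j y := (Rt m j).strictMono h
    have h0 := sg_nonneg t
    have h1 := sg_le t
    show (1 - sg t) * x + sg t * Rt m j x < (1 - sg t) * y + sg t * Rt m j y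
    rcases h0.eq_or_lt with h3 | h3
    · simp only [← h3]; simpa using h
    · have : (1 - sg t) * x ≤ (1 - sg t) * y := mul_le_mul_of_nonneg_left h.le (by linarith)
      have : sg t * Rt m j x < sg t * Rt m j y := mul_lt_mul_of_pos_left h2 h3
      linarith
  K1 _ t x ht := by rw [sg_one ht, sg_one le_rfl]

lemma base_rep (m : ℕ) (j : ℤ) : Rep (base m j) m j where
  q x := rfl
  k x := by
    show (1 - sg 1) * x + sg 1 * Rt m j x = _
    rw [sg_one le_rfl]; ring
  s t x ht := by
    show (1 - sg t) * x + sg t * Rt m j x = x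
    rw [sg_zero ht]; ring

/-- The class of the rotation by `j` sectors of level `m`. -/
def cl (m : ℕ) (j : ℤ) : XX.MCG := cls (base_rep m j)

lemma cl_mul (m : ℕ) (i j : ℤ) : cl m i * cl m j = cl m (i + j) := by
  unfold cl
  rw [cls_comp]
  exact cls_indep _ _

lemma cls_down {D : Dat Unit} {m : ℕ} {j : ℤ} (h : Rep D (m + 1) ((m + 2) * j))
    (h' : Rep D m j) : cls h = cls h' := rfl

lemma cl_succ (m : ℕ) (j : ℤ) : cl (m + 1) ((m + 2) * j) = cl m j := by
  unfold cl
  rw [cls_down (base_rep (m + 1) ((m + 2) * j)) (base_rep (m + 1) ((m + 2) * j)).down]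
  exact cls_indep _ _

lemma cl_zero (m : ℕ) : cl m 0 = 1 := by
  have := cl_mul m 0 0
  rw [add_zero] at this
  exact mul_eq_left.1 this

lemma cl_npow (m : ℕ) (j : ℤ) (n : ℕ) : cl m j ^ n = cl m (n * j) := by
  induction n with
  | zero => simp [cl_zero]
  | succ n ih =>
    rw [pow_succ, ih, cl_mul]
    congr 1
    push_cast; ring

end

end Pool.Agent.W2helper30.QM
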