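import Pool.Agent.W2helper30.QM8

/-!
The twist has infinite order; the embedding of the rational numbers.
-/

namespace Pool.Agent.W2helper30.QM

open Set Filter Topology unitInterval
open Pool.Agent.V11131.Mod (E ang norm_E E_ne E_add E_zero E_int E_add_int E_eq E_cont polar
  norm_polar ang_polar ang_cont polar_unique IsDisc IsArc Far TreeSurface RTree)

noncomputable section

/-- Radial coordinate along the test path. -/
def rt (s : I) : ℝ := 2 / 5 + 11 / 10 * (s : ℝ)

lemma rt_ge (s : I) : 2 / 5 ≤ rt s := by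
  unfold rt
  have := s.2.1
  linarith

lemma rt_le (s : I) : rt s ≤ 3 / 2 := by
  unfold rt
  have := s.2.2
  linarith

lemma rt_cont : Continuous rt := by unfold rt; fun_prop

lemma rt_memS (s : I) : ((rt s : ℝ) : ℂ) ∈ XX.S := by
  rw [S_eq]
  apply small_SS
  rw [Complex.norm_real, Real.norm_of_nonneg (by linarith [rt_ge s])]
  linarith [rt_le s]

/-- The test path. -/
def tp (s : I) : XX.Surf := ⟨((rt s : ℝ) : ℂ), rt_memS s⟩

lemma tp_cont : Continuous tp := by
  apply Continuous.subtype_mk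
  exact Complex.continuous_ofReal.comp rt_cont

lemma tp_zero_punct : tp 0 ∈ XX.punct := by
  rw [mem_punct]
  right; left
  show ((rt 0 : ℝ) : ℂ) = _
  unfold rt
  simp

lemma tp_one_punct : tp 1 ∈ XX.punct := by
  refine ⟨VV.c0, ?_⟩
  show ((rt 1 : ℝ) : ℂ) = ((3 / 2 : ℝ) : ℂ)
  unfold rt
  norm_num

lemma zero_memS : (0 : ℂ) ∈ XX.S := by rw [S_eq]; exact small_SS (by simp)

/-- The central puncture. -/
def zp : XX.Surf := ⟨0, zero_memS⟩

lemma zp_punct : zp ∈ XX.punct := by
  rw [mem_punct]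
  exact Or.inl rfl

lemma base_act (n : ℤ) (s : I) : (base 0 n).act () ((rt s : ℝ) : ℂ) =
    ((rt s : ℝ) : ℂ) * E (sg (rt s) * n) := by
  have h0 : (0 : ℝ) ≤ rt s := by linarith [rt_ge s]
  have h1 : ((rt s : ℝ) : ℂ) = ((rt s : ℝ) : ℂ) * E 0 := by rw [E_zero, mul_one]
  conv_lhs => rw [h1]
  rw [Dat.act_polar _ _ h0]
  have h2 : (base 0 n).rad () (rt s) 0 = rt s := by
    rcases le_total (rt s) 1 with h | h
    · rw [Dat.rad_le _ _ h]
    · rw [Dat.rad_ge _ _ h]
      show 1 + (rt s - 1) * qq 0 n 0 = rt s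
      rw [qq_full]; ring
  have h3 : (base 0 n).K () (rt s) 0 = sg (rt s) * n := by
    show (1 - sg (rt s)) * 0 + sg (rt s) * Rt 0 n 0 = _
    rw [Rt_full]; ring
  rw [h2, h3]

lemma twist_inf {n : ℤ} (h : XX.IsotopicId ((base 0 n).hS (base_rep 0 n).good ())) : n = 0 := by
  obtain ⟨Φ, a1, a2, a3, a4⟩ := h
  have hne : ∀ (u s : I), (((Φ (u, tp s)).2 : XX.Surf) : ℂ) ≠ 0 := by
    intro u s hc
    have e1 : Φ (u, tp s) = (u, zp) := by
      apply Prod.ext
      · exact a1 _
      · exact Subtype.ext hc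
    have e2 : Φ (u, zp) = (u, zp) := a4 u zp zp_punct
    rw [← e2] at e1
    have e3 := Φ.injective e1
    have e4 : ((tp s : XX.Surf) : ℂ) = 0 := congrArg (fun a => ((Prod.snd a : XX.Surf) : ℂ)) e3
    have e5 : ((rt s : ℝ) : ℂ) = 0 := e4
    rw [Complex.ofReal_eq_zero] at e5
    have := rt_ge s
    linarith
  set F : C(I × I, {z : ℂ // z ≠ 0}) :=
    ⟨fun a => ⟨(((Φ (a.1, tp a.2)).2 : XX.Surf) : ℂ), hne a.1 a.2⟩, by
      apply Continuous.subtype_mk
      apply continuous_subtype_val.comp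
      apply continuous_snd.comp
      apply Φ.continuous.comp
      exact continuous_fst.prodMk (tp_cont.comp continuous_snd)⟩ with hF
  set γ₀ : C(I, {z : ℂ // z ≠ 0}) := F.comp ((ContinuousMap.const I 0).prodMk (ContinuousMap.id I))
    with hγ₀
  set γ₁ : C(I, {z : ℂ // z ≠ 0}) := F.comp ((ContinuousMap.const I 1).prodMk (ContinuousMap.id I))
    with hγ₁
  have v0 : ∀ s, ((γ₀ s : {z : ℂ // z ≠ 0}) : ℂ) = ((rt s : ℝ) : ℂ) := by
    intro s
    show (((Φ (0, tp s)).2 : XX.Surf) : ℂ) = _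
    rw [a2]; rfl
  have v1 : ∀ s, ((γ₁ s : {z : ℂ // z ≠ 0}) : ℂ) = ((rt s : ℝ) : ℂ) * E (sg (rt s) * n) := by
    intro s
    show (((Φ (1, tp s)).2 : XX.Surf) : ℂ) = _
    rw [a3, ← base_act]; rfl
  have hend : ∀ s : I, s ∈ ({0, 1} : Set I) → tp s ∈ XX.punct := by
    intro s hs
    rcases hs with rfl | rfl
    · exact tp_zero_punct
    · exact tp_one_punct
  have hrel : γ₀.HomotopicRel γ₁ {0, 1} := by
    refine ⟨⟨⟨F, ?_, ?_⟩, ?_⟩⟩
    · intro s; rfl
    · intro s; rfl
    · intro u s hs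
      show F (u, s) = γ₀ s
      apply Subtype.ext
      show (((Φ (u, tp s)).2 : XX.Surf) : ℂ) = (((Φ (0, tp s)).2 : XX.Surf) : ℂ)
      rw [a4 u _ (hend s hs), a4 0 _ (hend s hs)]
  have cov := Complex.isCoveringMap_exp
  have hpos : ∀ s, (0 : ℝ) < rt s := fun s => by linarith [rt_ge s]
  have hlog : ∀ s, Complex.exp ((Real.log (rt s) : ℝ) : ℂ) = ((rt s : ℝ) : ℂ) := by
    intro s
    rw [← Complex.ofReal_exp, Real.exp_log (hpos s)]
  set Γ₀ : C(I, ℂ) := ⟨fun s => ((Real.log (rt s) : ℝ) : ℂ), by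
    apply Complex.continuous_ofReal.comp
    exact rt_cont.log (fun s => (hpos s).ne')⟩ with hΓ₀
  set Γ₁ : C(I, ℂ) := ⟨fun s => ((Real.log (rt s) : ℝ) : ℂ) +
    ((2 * Real.pi * (sg (rt s) * n) : ℝ) : ℂ) * Complex.I, by
    apply Continuous.add
    · apply Complex.continuous_ofReal.comp
      exact rt_cont.log (fun s => (hpos s).ne')
    · apply Continuous.mul _ continuous_const
      apply Complex.continuous_ofReal.comp
      apply continuous_const.mul
      exact (sg_cont.comp rt_cont).mul continuous_const⟩ with hΓ₁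
  have sg0 : sg (rt 0) = 0 := by
    apply sg_zero
    unfold rt
    norm_num
  have sg1 : sg (rt 1) = 1 := by
    apply sg_one
    unfold rt
    norm_num
  set e : ℂ := ((Real.log (rt 0) : ℝ) : ℂ) with he
  have k0 : γ₀ 0 = ⟨Complex.exp e, Complex.exp_ne_zero e⟩ := by
    apply Subtype.ext
    rw [v0]
    exact (hlog 0).symm
  have k1 : γ₁ 0 = ⟨Complex.exp e, Complex.exp_ne_zero e⟩ := by
    apply Subtype.ext
    rw [v1, sg0, zero_mul, E_zero, mul_one]
    exact (hlog 0).symm
  have l0 : Γ₀ = cov.liftPath γ₀ e k0 := by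
    rw [cov.eq_liftPath_iff']
    refine ⟨?_, rfl⟩
    funext s
    apply Subtype.ext
    show Complex.exp ((Real.log (rt s) : ℝ) : ℂ) = ((γ₀ s : {z : ℂ // z ≠ 0}) : ℂ)
    rw [v0, hlog]
  have l1 : Γ₁ = cov.liftPath γ₁ e k1 := by
    rw [cov.eq_liftPath_iff']
    refine ⟨?_, ?_⟩
    · funext s
      apply Subtype.ext
      show Complex.exp (((Real.log (rt s) : ℝ) : ℂ) +
        ((2 * Real.pi * (sg (rt s) * n) : ℝ) : ℂ) * Complex.I) =
        ((γ₁ s : {z : ℂ // z ≠ 0}) : ℂ)
      rw [v1, Complex.exp_add, hlog]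
      rfl
    · show ((Real.log (rt 0) : ℝ) : ℂ) + ((2 * Real.pi * (sg (rt 0) * n) : ℝ) : ℂ) * Complex.I = e
      rw [sg0]
      simp [he]
  have fin := cov.liftPath_apply_one_eq_of_homotopicRel hrel e k0 k1
  rw [← l0, ← l1] at fin
  have fin2 : ((Real.log (rt 1) : ℝ) : ℂ) = ((Real.log (rt 1) : ℝ) : ℂ) +
    ((2 * Real.pi * (sg (rt 1) * n) : ℝ) : ℂ) * Complex.I := fin
  rw [sg1, one_mul] at fin2
  have fin3 : ((2 * Real.pi * (n : ℝ) : ℝ) : ℂ) * Complex.I = 0 := left_eq_add.1 fin2
  rcases mul_eq_zero.1 fin3 with h5 | h5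
  · rw [Complex.ofReal_eq_zero] at h5
    have hpi : (2 * Real.pi) ≠ 0 := by positivity
    rcases mul_eq_zero.1 h5 with h6 | h6
    · exact absurd h6 hpi
    · exact_mod_cast h6
  · exact absurd h5 Complex.I_ne_zero

lemma cl_inf {n : ℤ} (h : cl 0 n = 1) : n = 0 := by
  have h1 : (gel (base_rep 0 n)) ∈ XX.Iso0 := (QuotientGroup.eq_one_iff _).1 h
  exact twist_inf h1

end

/-- A group with a compatible system of roots of an element of infinite order contains the
rational numbers. -/
lemma rat_embed {G : Type} [Group G] (c : ℕ → ℤ → G) (hmul : ∀ m i j, c m i * c m j = c m (i + j))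
    (hsucc : ∀ (m : ℕ) (j : ℤ), c (m + 1) ((m + 2) * j) = c m j)
    (hinf : ∀ n : ℤ, c 0 n = 1 → n = 0) :
    ∃ f : Multiplicative ℚ →* G, Function.Injective f := by
  have hup : ∀ (m k : ℕ) (j : ℤ), c (m + k) (rat m k * j) = c m j := by
    intro m k j
    induction k with
    | zero => simp [rat]
    | succ k ih =>
      have := hsucc (m + k) (rat m k * j)
      rw [ih] at this
      rw [← this, ← add_assoc]
      congr 1
      simp only [rat]; push_cast; ring
  have hrat : ∀ m k : ℕ, NN (m + k) = rat m k * NN m := by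
    intro m k
    induction k with
    | zero => simp [rat]
    | succ k ih =>
      rw [← add_assoc, NN_succ, ih]
      simp only [rat]; ring
  -- independence of the representation
  have hind : ∀ (m l : ℕ) (i j : ℤ), (i : ℚ) / NN m = j / NN l → c m i = c l j := by
    intro m l i j h
    have hm : (NN m : ℚ) ≠ 0 := by exact_mod_cast (NN_pos m).ne'
    have hl : (NN l : ℚ) ≠ 0 := by exact_mod_cast (NN_pos l).ne'
    rw [← hup m l i, ← hup l m j, add_comm l m]
    congr 1
    have h1 : (rat m l : ℚ) * i / NN (m + l) = rat l m * j / NN (m + l) := by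
      have e1 : (NN (m + l) : ℚ) = rat m l * NN m := by exact_mod_cast hrat m l
      have e2 : (NN (m + l) : ℚ) = rat l m * NN l := by
        rw [add_comm]; exact_mod_cast hrat l m
      have r1 : (rat m l : ℚ) ≠ 0 := by
        intro h0; rw [h0, zero_mul] at e1
        have : (NN (m + l) : ℚ) ≠ 0 := by exact_mod_cast (NN_pos (m + l)).ne'
        exact this e1
      have r2 : (rat l m : ℚ) ≠ 0 := by
        intro h0; rw [h0, zero_mul] at e2
        have : (NN (m + l) : ℚ) ≠ 0 := by exact_mod_cast (NN_pos (m + l)).ne'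
        exact this e2
      conv_lhs => rw [e1]
      conv_rhs => rw [e2]
      rw [mul_div_mul_left _ _ r1, mul_div_mul_left _ _ r2]
      exact h
    have h2 : (NN (m + l) : ℚ) ≠ 0 := by exact_mod_cast (NN_pos (m + l)).ne'
    have h3 : (rat m l : ℚ) * i = rat l m * j := by
      rwa [div_left_inj' h2] at h1
    exact_mod_cast h3
  -- every rational number has a representation
  have hrep : ∀ x : ℚ, ∃ (m : ℕ) (j : ℤ), x = (j : ℚ) / NN m := by
    intro x
    have hd : x.den ∣ NN x.den := Nat.dvd_factorial x.den_pos (by omega)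
    obtain ⟨k, hk⟩ := hd
    refine ⟨x.den, x.num * k, ?_⟩
    have h1 : (x.den : ℚ) ≠ 0 := by exact_mod_cast x.den_pos.ne'
    have h2 : (k : ℚ) ≠ 0 := by
      intro h0
      have h0' : k = 0 := by exact_mod_cast h0
      rw [h0', mul_zero] at hk
      exact (NN_pos x.den).ne' hk
    rw [hk]
    push_cast
    rw [mul_div_mul_right _ _ h2]
    exact (Rat.num_div_den x).symm
  choose mm jj hmj using hrep
  have hval : ∀ (x : ℚ) (m : ℕ) (j : ℤ), x = (j : ℚ) / NN m → c (mm x) (jj x) = c m j := by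
    intro x m j h
    apply hind
    rw [← hmj, h]
  have hadd : ∀ x y : ℚ, c (mm (x + y)) (jj (x + y)) = c (mm x) (jj x) * c (mm y) (jj y) := by
    intro x y
    have hx := hmj x
    have hy := hmj y
    set m := mm x
    set l := mm y
    set i := jj x
    set j := jj y
    have hm : (NN m : ℚ) ≠ 0 := by exact_mod_cast (NN_pos m).ne'
    have hl : (NN l : ℚ) ≠ 0 := by exact_mod_cast (NN_pos l).ne'
    have h2 : (NN (m + l) : ℚ) ≠ 0 := by exact_mod_cast (NN_pos (m + l)).ne'
    have e1 : (NN (m + l) : ℚ) = rat m l * NN m := by exact_mod_cast hrat m l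
    have e2 : (NN (m + l) : ℚ) = rat l m * NN l := by
      rw [add_comm]; exact_mod_cast hrat l m
    have hx' : x = ((rat m l * i : ℤ) : ℚ) / NN (m + l) := by
      rw [hx, eq_div_iff h2]
      conv_lhs => rw [e1]
      push_cast
      field_simp
    have hy' : y = ((rat l m * j : ℤ) : ℚ) / NN (m + l) := by
      rw [hy, eq_div_iff h2]
      conv_lhs => rw [e2]
      push_cast
      field_simp
    rw [hval (x + y) (m + l) (rat m l * i + rat l m * j) (by
      rw [hx', hy', ← add_div]; push_cast; ring)]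
    rw [← hmul, hup, add_comm m l, hup]
  have hc0 : ∀ m, c m 0 = 1 := by
    intro m
    have := hmul m 0 0
    rw [add_zero] at this
    exact mul_eq_left.1 this
  refine ⟨MonoidHom.mk' (fun x => c (mm x.toAdd) (jj x.toAdd)) (fun x y => hadd x.toAdd y.toAdd),
    ?_⟩
  rw [injective_iff_map_eq_one]
  intro x hx
  have hx1 : c (mm x.toAdd) (jj x.toAdd) = 1 := hx
  set m := mm x.toAdd with hm
  set j := jj x.toAdd with hj
  -- the power by `NN m`
  have hpow : ∀ n : ℕ, c m j ^ n = c m (n * j) := by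
    intro n
    induction n with
    | zero => simp [hc0]
    | succ n ih =>
      rw [pow_succ, ih, hmul]
      congr 1
      push_cast; ring
  have h1 : c m (NN m * j) = 1 := by rw [← hpow, hx1, one_pow]
  have h2 : c 0 j = c m (NN m * j) := by
    have := hup 0 m j
    rw [zero_add] at this
    rw [← this]
    congr 2
    have := hrat 0 m
    rw [zero_add, NN_zero, mul_one] at this
    exact_mod_cast this.symm
  have h3 : j = 0 := hinf j (h2.trans h1)
  have h4 := hmj x.toAdd
  rw [← hj, h3] at h4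
  have h5 : x.toAdd = 0 := by rw [h4]; simp
  exact h5

theorem main : ∃ f : Multiplicative ℚ →* XX.MCG, Function.Injective f :=
  rat_embed cl cl_mul cl_succ (fun _ h => cl_inf h)

end Pool.Agent.W2helper30.QM
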